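import Pool.Agent.Lib.MP_1e63be_al.Z87.U3

/-! The sealing step: tracked pairs generate independent nonzero submodules. -/

namespace Z87

variable {F R P : Type} [Field F] [Ring R] [Algebra F R] [Ring P] [Algebra F P]

theorem Ind.insert {κ : Type} [DecidableEq κ] {s : Finset κ} {r : κ → R} (h : Ind F s r) {k : κ}
    (hk : k ∉ s) {B : R} (hB : ∀ m : κ → F, B ≠ ∑ l ∈ s, m l • r l) :
    Ind F (insert k s) (Function.update r k B) := by
  intro c hc
  rw [Finset.sum_insert hk, Function.update_self,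
    Finset.sum_congr rfl fun l hl => by rw [Function.update_of_ne (fun e : l = k => hk (e ▸ hl))]]
    at hc
  have h0 : c k = 0 := by_contra fun hne => hB (fun l => -((c k)⁻¹ * c l)) (by
    have := congrArg ((c k)⁻¹ • ·) hc
    simp only [smul_add, smul_smul, inv_mul_cancel₀ hne, one_smul, smul_zero,
      Finset.smul_sum] at this
    rw [eq_neg_of_add_eq_zero_left this, ← Finset.sum_neg_distrib]
    simp)
  rw [h0, zero_smul, zero_add] at hc
  intro a ha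
  rcases Finset.mem_insert.1 ha with rfl | ha
  · exact h0
  · exact h c hc a ha

namespace US
variable {U : US F R P} {s : U.St} {ι : Fam R} {Λ : Finset ℕ} {row : ℕ → R} {τ : ℕ → ℕ} {σ : P}

theorem TR.extend (h : TR s ι Λ row τ σ) {α : Type} (S : Finset α) (B : α → R) (t : α → ℕ)
    (h1 : ∀ i ∈ S, s.bt (t i) * B i = B i) (h2 : ∀ i ∈ S, B i * ι.E Λ s.a = B i) :
    ∃ Λ' row' τ' σ', TR s ι Λ' row' τ' σ' ∧ Λ ⊆ Λ' ∧ U.C (ι.E Λ s.a) * σ' = σ ∧
      ∀ i ∈ S, ∃ m : ℕ → F, B i = ∑ l ∈ Λ', m l • row' l := by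
  classical
  induction S using Finset.induction_on with
  | empty => exact ⟨Λ, row, τ, σ, h, subset_rfl, h.rep.E fun _ _ => s.ax, by simp⟩
  | insert i0 S hi0 ih =>
    obtain ⟨Λ1, row1, τ1, σ1, k1, k2, k3, k4⟩ := ih (fun i hi => h1 i (Finset.mem_insert_of_mem hi))
      fun i hi => h2 i (Finset.mem_insert_of_mem hi)
    by_cases hB : ∃ m : ℕ → F, B i0 = ∑ l ∈ Λ1, m l • row1 l
    · refine ⟨Λ1, row1, τ1, σ1, k1, k2, k3, fun i hi => ?_⟩
      rcases Finset.mem_insert.1 hi with rfl | hi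
      exacts [hB, k4 i hi]
    push Not at hB
    obtain ⟨k, hk⟩ : ∃ k, ∀ l ∈ Λ1, l < k :=
      ⟨Λ1.sup id + 1, fun l hl => Nat.lt_succ_of_le (Finset.le_sup (f := id) hl)⟩
    have hk' : ∀ m, k ≤ m → m ∉ Λ1 := fun m hm e => absurd (hk m e) (by omega)
    have e0 := h2 i0 (Finset.mem_insert_self _ _)
    have e1 : B i0 * ι.E Λ1 s.a = B i0 := by rw [← e0, mul_assoc, ι.E_sub k2 s.ha]
    have hR := k1.rep.push hk s.x (B := B i0) fun m hm => by
      rw [← e1, mul_assoc, ι.E_i' _ (hk' m hm), mul_zero]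
    have up : ∀ l ∈ Λ1, Function.update row1 k (B i0) l = row1 l := fun l hl =>
      Function.update_of_ne (hk l hl).ne _ _
    refine ⟨insert k Λ1, Function.update row1 k (B i0), Function.update τ1 k (t i0), _,
      ⟨by simpa only [Function.update_eq_self] using
        (show Rep ι U.C _ (Function.update (fun _ => s.x) k ((fun _ => s.x) k)) _ _ from hR),
      fun l hl => ?_, k1.ind.insert (hk' k le_rfl) hB, fun l hl => ?_⟩,
      k2.trans (Finset.subset_insert _ _), ?_, fun i hi => ?_⟩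
    · rcases Finset.mem_insert.1 hl with rfl | hl
      · simpa using h1 i0 (Finset.mem_insert_self _ _)
      · rw [up l hl, Function.update_of_ne (hk l hl).ne, k1.typ l hl]
    · rcases Finset.mem_insert.1 hl with rfl | hl
      · rw [Function.update_self, ← e1, mul_assoc, ι.E_sub (Finset.subset_insert _ _) s.ha]
      · rw [up l hl, ← k1.nor l hl, mul_assoc, ι.E_sub (Finset.subset_insert _ _) s.ha]
    · rw [mul_add, k3, ← mul_assoc, ← map_mul, ι.E_i' _ fun e => hk' k le_rfl (k2 e)]; simp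
    · rcases Finset.mem_insert.1 hi with rfl | hi
      · refine ⟨fun l => if l = k then 1 else 0, ?_⟩
        rw [Finset.sum_insert (hk' k le_rfl), Finset.sum_eq_zero fun l hl => by simp [(hk l hl).ne]]
        simp
      · obtain ⟨m, hm⟩ := k4 i hi
        refine ⟨fun l => if l = k then 0 else m l, ?_⟩
        rw [Finset.sum_insert (hk' k le_rfl), hm]
        simp only [if_true, zero_smul, zero_add]
        exact Finset.sum_congr rfl fun l hl => by rw [if_neg (hk l hl).ne, up l hl]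

theorem TR.extend' (h : TR s ι Λ row τ σ) {α : Type} (S : Finset α) (B : α → R)
    (h1 : ∀ i ∈ S, s.b * B i = B i) (h2 : ∀ i ∈ S, B i * ι.E Λ s.a = B i) :
    ∃ Λ' row' τ' σ', TR s ι Λ' row' τ' σ' ∧ U.C (ι.E Λ s.a) * σ' = σ ∧
      ∃ m : α → ℕ → F, ∀ i ∈ S, B i = ∑ l ∈ Λ', m i l • row' l := by
  obtain ⟨Λ', row', τ', σ', k1, -, k3, k4⟩ := h.extend (S ×ˢ Finset.range s.n)
    (fun p => s.bt p.2 * B p.1) (fun p => p.2) (fun p _ => by rw [ra (s.idem _)])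
    fun p hp => by rw [mul_assoc, h2 _ (Finset.mem_product.1 hp).1]
  choose! m hm using k4
  refine ⟨Λ', row', τ', σ', k1, k3, fun i l => ∑ t ∈ Finset.range s.n, m (i, t) l, fun i hi => ?_⟩
  rw [← h1 i hi, s.hb, Finset.sum_mul,
    Finset.sum_congr rfl fun t ht => hm (i, t) (Finset.mem_product.2 ⟨hi, ht⟩), Finset.sum_comm]
  simp only [Finset.sum_smul]

theorem TR.coef (h : TR s ι Λ row τ σ) {m : ℕ → F} {l0 : ℕ} (hl0 : l0 ∈ Λ)
    (h0 : s.bt (τ l0) * ∑ l ∈ Λ, m l • row l = 0) : m l0 = 0 := by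
  have := h.ind (fun l => if τ l = τ l0 then m l else 0) (by
    rw [← h0, Finset.mul_sum]
    refine Finset.sum_congr rfl fun l hl => ?_
    split_ifs with e
    · rw [mul_smul_comm, ← e, h.typ l hl]
    · rw [mul_smul_comm, ← h.typ l hl, ra (s.orth _ _ (Ne.symm e))]; simp) l0 hl0
  simpa using this

theorem TR.nhat (h : TR s ι Λ row τ σ) (S : Finset ℕ) (ξ B : ℕ → R) (m : ℕ → ℕ → F)
    (hB : ∀ j ∈ S, B j = ∑ l ∈ Λ, m j l • row l) :
    ∃ nh : R, ∑ j ∈ S, (U.C (ξ j) + U.C (U.θ ^ j) * s.x) * (U.C (B j) * σ) = U.C nh * σ ∧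
      ∀ k ∈ Λ, (∀ j ∈ S, ∀ l ∈ Λ, k < l → m j l = 0) →
        nh * ι.E Λ s.a * ι.i (k + 1) = (∑ j ∈ S, m j k • U.θ ^ j) * s.a := by
  refine ⟨∑ j ∈ S, (ξ j * B j + U.θ ^ j * ∑ l ∈ Λ, m j l • ι.j (l + 1)), ?_, fun k hk hm => ?_⟩
  · rw [map_sum, Finset.sum_mul]
    refine Finset.sum_congr rfl fun j hj => ?_
    rw [map_add, map_mul, map_mul, add_mul, add_mul, mul_assoc, mul_assoc, mul_assoc]
    congr 2
    rw [hB j hj]
    simp only [map_sum, map_smul, Finset.sum_mul, Finset.mul_sum, smul_mul_assoc, mul_smul_comm]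
    exact Finset.sum_congr rfl fun l hl => by rw [h.rep.coord hl]
  · rw [mul_assoc, ι.E_i _ hk, ← mul_assoc, Finset.sum_mul]
    congr 1
    refine Finset.sum_congr rfl fun j hj => ?_
    have e1 : B j * ι.i (k + 1) = 0 := by
      rw [hB j hj, Finset.sum_mul]
      refine Finset.sum_eq_zero fun l hl => ?_
      rcases le_or_gt l k with e | e
      · rw [smul_mul_assoc, h.rep.tri l hl k e, smul_zero]
      · rw [hm j hj l hl e]; simp
    have e2 : (∑ l ∈ Λ, m j l • ι.j (l + 1)) * ι.i (k + 1) = algebraMap F R (m j k) := by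
      simp only [Algebra.smul_def]; exact (ι.dual Λ).sum_mul _ hk
    rw [add_mul, mul_assoc, e1, mul_assoc, e2, Algebra.smul_def, Algebra.commutes]; simp

theorem St.fs0 [Infinite F] (s : U.St) {T : Set ℕ} {s1 s2 : Finset ℕ} {β1 β2 ξ1 ξ2 : ℕ → R}
    (d1 : ↑s1 ⊆ U.D) (d2 : ↑s2 ⊆ U.D) (b1 : ∀ j ∈ s1, s.b * β1 j = β1 j)
    (b2 : ∀ j ∈ s2, s.b * β2 j = β2 j) (t1 : ∀ τ, τ ∉ T → ∀ j ∈ s1, s.bt τ * β1 j = 0)
    (t2 : ∀ τ, τ ∉ Tᶜ → ∀ j ∈ s2, s.bt τ * β2 j = 0) {c1 c2 : P} (h1 : c1 ∈ Cl U.C s.x)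
    (h2 : c2 ∈ Cl U.C s.x)
    (h : (∑ j ∈ s1, (U.C (ξ1 j) + U.C (U.θ ^ j) * s.x) * U.C (β1 j)) * c1 -
      (∑ j ∈ s2, (U.C (ξ2 j) + U.C (U.θ ^ j) * s.x) * U.C (β2 j)) * c2 ∈ ext U.C U.J) :
    (∀ j ∈ s1, U.C (β1 j) * c1 = 0) ∧ ∀ j ∈ s2, U.C (β2 j) * c2 = 0 := by
  classical
  obtain ⟨ι⟩ := U.G.famN
  obtain ⟨Λ0, row0, τ0, σ0, n, h0, e0, hn⟩ := s.rep ι (p := U.C (ι.i 0) * c1 + U.C (ι.i 1) * c2)
    (Subring.add_mem _ (Subring.mul_mem _ (Cl.C _ _ _) h1) (Subring.mul_mem _ (Cl.C _ _ _) h2))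
  obtain ⟨Λ, row, τ, σ, hT, eσ, m, hm⟩ := h0.extend' (s1.disjSum s2)
    (Sum.elim (fun j => β1 j * (ι.j 0 * n)) fun j => β2 j * (ι.j 1 * n))
    (by rintro (j | j) hj
        · exact ra (b1 j (by simpa using hj)) _
        · exact ra (b2 j (by simpa using hj)) _)
    (by rintro (j | j) _ <;> simp only [Sum.elim_inl, Sum.elim_inr, mul_assoc, hn])
  have en : U.C n * σ0 = U.C n * σ := by rw [← eσ, ← mul_assoc, ← map_mul, hn]
  have e1 : ∀ β, U.C β * c1 = U.C (β * (ι.j 0 * n)) * σ := fun β => by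
    rw [map_mul, map_mul, mul_assoc, mul_assoc, ← en, ← e0, mul_add, ← mul_assoc (U.C (ι.j 0)),
      ← mul_assoc (U.C (ι.j 0)), ← map_mul, ← map_mul, ι.self, ι.ne (by omega)]
    simp
  have e2 : ∀ β, U.C β * c2 = U.C (β * (ι.j 1 * n)) * σ := fun β => by
    rw [map_mul, map_mul, mul_assoc, mul_assoc, ← en, ← e0, mul_add, ← mul_assoc (U.C (ι.j 1)),
      ← mul_assoc (U.C (ι.j 1)), ← map_mul, ← map_mul, ι.self, ι.ne (by omega)]
    simp
  have m1 : ∀ j ∈ s1, β1 j * (ι.j 0 * n) = ∑ l ∈ Λ, m (.inl j) l • row l := fun j hj =>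
    hm (.inl j) (by simpa)
  have m2 : ∀ j ∈ s2, β2 j * (ι.j 1 * n) = ∑ l ∈ Λ, m (.inr j) l • row l := fun j hj =>
    hm (.inr j) (by simpa)
  obtain ⟨n1, p1, q1⟩ := hT.nhat s1 ξ1 _ _ m1
  obtain ⟨n2, p2, q2⟩ := hT.nhat s2 ξ2 _ _ m2
  have hJ : (n1 - n2) * ι.E Λ s.a ∈ U.J := hT.ev (by
    rw [map_sub, sub_mul, ← p1, ← p2]
    simpa only [Finset.sum_mul, mul_assoc, e1, e2] using h)
  have key : ∀ l ∈ Λ, ∀ i ∈ s1.disjSum s2, m i l = 0 := by
    by_contra hne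
    push Not at hne
    obtain ⟨k, hk, hmax⟩ := (Λ.filter fun l => ∃ i ∈ s1.disjSum s2, m i l ≠ 0).exists_max_image
      (fun l => l)
      (by obtain ⟨l, hl, hl'⟩ := hne; exact ⟨l, Finset.mem_filter.2 ⟨hl, hl'⟩⟩)
    obtain ⟨hk, i0, hi0, hne⟩ := Finset.mem_filter.1 hk
    have top : ∀ i ∈ s1.disjSum s2, ∀ l ∈ Λ, k < l → m i l = 0 := fun i hi l hl hlt =>
      by_contra fun e => absurd (hmax l (Finset.mem_filter.2 ⟨hl, i, hi, e⟩)) (by simpa using hlt)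
    have := RI.mul hJ (ι.i (k + 1))
    rw [sub_mul, sub_mul, q1 k hk fun j hj => top _ (by simpa),
      q2 k hk fun j hj => top _ (by simpa)] at this
    by_cases hτ : τ k ∈ T
    · have z2 : ∀ j ∈ s2, m (.inr j) k = 0 := fun j hj => hT.coef hk (by
        rw [← m2 j hj, ra (t2 _ (by simpa using hτ) j hj), zero_mul])
      rw [Finset.sum_eq_zero (s := s2) fun j hj => by rw [z2 j hj, zero_smul], zero_mul,
        sub_zero] at this
      have z1 := U.indD s1 _ _ d1 this s.haJ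
      rcases i0 with j | j
      exacts [hne (z1 j (by simpa using hi0)), hne (z2 j (by simpa using hi0))]
    · have z1 : ∀ j ∈ s1, m (.inl j) k = 0 := fun j hj => hT.coef hk (by
        rw [← m1 j hj, ra (t1 _ hτ j hj), zero_mul])
      rw [Finset.sum_eq_zero (s := s1) fun j hj => by rw [z1 j hj, zero_smul], zero_mul,
        zero_sub, neg_mem_iff] at this
      have z2 := U.indD s2 _ _ d2 this s.haJ
      rcases i0 with j | j
      exacts [hne (z1 j (by simpa using hi0)), hne (z2 j (by simpa using hi0))]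
  refine ⟨fun j hj => ?_, fun j hj => ?_⟩
  · rw [e1, m1 j hj, Finset.sum_eq_zero fun l hl => by rw [key l hl _ (by simpa), zero_smul]]; simp
  · rw [e2, m2 j hj, Finset.sum_eq_zero fun l hl => by rw [key l hl _ (by simpa), zero_smul]]; simp

theorem St.fs [Infinite F] (s : U.St) {w1 w2 : P} (h : (w1, w2) ∈ s.tr) :
    w1 ∉ ext U.C U.J ∧ w2 ∉ ext U.C U.J ∧ ∀ c1 ∈ Cl U.C s.x, ∀ c2 ∈ Cl U.C s.x,
      w1 * c1 - w2 * c2 ∈ ext U.C U.J → w1 * c1 ∈ ext U.C U.J := by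
  obtain ⟨T, ⟨s1, β1, ξ1, d1, b1, ⟨j1, hj1, n1⟩, t1, e1⟩, ⟨s2, β2, ξ2, d2, b2, ⟨j2, hj2, n2⟩, t2, e2⟩⟩ :=
    s.trk _ h
  have key : ∀ c1 ∈ Cl U.C s.x, ∀ c2 ∈ Cl U.C s.x, w1 * c1 - w2 * c2 ∈ ext U.C U.J →
      (∀ j ∈ s1, U.C (β1 j) * c1 = 0) ∧ ∀ j ∈ s2, U.C (β2 j) * c2 = 0 := fun c1 h1 c2 h2 h =>
    s.fs0 (ξ1 := ξ1) (ξ2 := ξ2) d1 d2 b1 b2 t1 t2 h1 h2 (RI.cast (Submodule.add_mem _
      (Submodule.sub_mem _ h (RI.mul e1 c1)) (RI.mul e2 c2)) (by noncomm_ring))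
  have inj : ∀ c, U.C c * 1 = 0 → c = 0 := fun c hc => by
    rw [← U.evC 0 c, ← mul_one (U.C c), hc, map_zero]
  refine ⟨fun e => n1 (inj _ ((key 1 (Subring.one_mem _) 0 (Subring.zero_mem _)
      (by simpa using e)).1 j1 hj1)), fun e => n2 (inj _ ((key 0 (Subring.zero_mem _) 1
      (Subring.one_mem _) (by simpa using e)).2 j2 hj2)), fun c1 h1 c2 h2 h => ?_⟩
  refine RI.cast (RI.mul e1 c1) ?_
  rw [sub_mul, Finset.sum_mul, Finset.sum_eq_zero fun j hj => by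
    rw [mul_assoc, (key c1 h1 c2 h2 h).1 j hj, mul_zero], sub_zero]

end US
end Z87
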