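import Pool.Agent.Lib.MP_1e63be_al.Z87.U3

/-! The sealing step: the reduction lemma. -/

namespace Z87

variable {F R P : Type} [Field F] [Ring R] [Algebra F R] [Ring P] [Algebra F P]

namespace US
variable {U : US F R P}

/-- conclusion of the reduction lemma -/
def RedC (s : U.St) (Q K0 : RI R) (p : P) : Prop :=
  ∃ φ s', U.game.Mv s φ s' ∧ ((∃ c, φ p - U.C c ∈ ext U.C Q) ∨
    (∃ u ∈ K0, ∃ c, c ∉ Q ∧ φ p * U.C u - U.C c ∈ ext U.C Q) ∨
    ∃ u d y y' τ, φ p * U.C u - U.C d * s'.x * U.C y ∈ ext U.C Q ∧ y' * y = 1 ∧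
      s'.bt τ * y = y ∧ ∀ z, d * (s'.a * z) ∈ Q ↔ s'.a * z ∈ U.J)

theorem RedC.of_move {s s1 : U.St} {Q K0 : RI R} {p : P} {φ : P →ₐ[F] P} (hm : U.game.Mv s φ s1)
    (h : RedC s1 Q K0 (φ p)) : RedC s Q K0 p := by
  obtain ⟨ψ, s', h1, h2⟩ := h
  exact ⟨ψ.comp φ, s', U.game.comp hm h1, h2⟩

theorem red_aux [Infinite F] (ι : Fam R) (Q : RI R) {K0 : RI R} (hK0 : Essn K0) (N : ℕ) :
    ∀ (s : U.St) (Λ : Finset ℕ) (row : ℕ → R) (τ : ℕ → ℕ) (σ : P) (n : R) (p : P), Λ.card = N →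
      Rep ι U.C Λ (fun _ => s.x) row σ → (∀ l ∈ Λ, s.bt (τ l) * row l = row l) →
      p - U.C n * σ ∈ ext U.C Q → RedC s Q K0 p := by
  classical
  induction N using Nat.strong_induction_on with
  | _ N ih =>
  intro s Λ0 row0 τ σ0 n0 p hN hR hT hp
  obtain ⟨Λ, row, σ, n, hsub, h, e0, hn⟩ := s.reduce hR hT n0
  rw [e0] at hp
  have hφ : ∀ {φ s'}, U.game.Mv s φ s' → φ p - U.C n * φ σ ∈ ext U.C Q := fun {φ s'} hm => by
    have := ext_map U.C U.C φ hm.1 hp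
    rwa [map_sub, map_mul, hm.1] at this
  rcases Λ.eq_empty_or_nonempty with rfl | hΛ
  · obtain ⟨φ, s', hm, -⟩ := s.id
    refine ⟨φ, s', hm, .inl ⟨n * ι.i 0, ?_⟩⟩
    have := hφ hm
    rwa [h.rep.eq, Finset.sum_empty, add_zero, hm.1, ← map_mul] at this
  obtain ⟨K, B, hK, hB, kill⟩ := s.kill
  obtain ⟨K1, hK1, hK1'⟩ := Essn.all Λ (fun l => pre (row l) K ⊓ pre (s.a * ι.j (l + 1)) U.J)
    fun l _ => (hK.pre _).inf ((U.unif.essn U.G).pre _)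
  have hK2 : Essn (K1 ⊓ pre (ι.j 0) K0) := hK1.inf (hK0.pre _)
  by_cases c1 : ∃ κ ∈ K1 ⊓ pre (ι.j 0) K0, n * κ ∉ Q
  · obtain ⟨u, hu, g1, ⟨W, hW⟩, g2⟩ := U.G.indS h.ind hK2 [pre n Q]
      (fun V hV => by rw [List.mem_singleton.1 hV]; exact c1) B hB
    have hu' := (hK1' u).1 hu.1
    obtain ⟨φ, s', hm, -, k1, -⟩ := kill Λ Λ _ (fun l => s.a * (ι.j (l + 1) * u)) W τ subset_rfl hW
      (fun l hl => by rw [ra (h.typ l hl)]) (fun l hl => (hu' l hl).1)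
      (fun l hl => ⟨by simpa only [mul_assoc] using (show _ * u ∈ U.J from (hu' l hl).2),
        by rw [ra s.ha]⟩) g2
    refine ⟨φ, s', hm, .inr (.inl ⟨ι.j 0 * u, hu.2, n * u, g1 _ (List.mem_singleton_self _), ?_⟩)⟩
    refine RI.cast (RI.mul (hφ hm) (U.C (ι.j 0 * u))) ?_
    rw [sub_mul, mul_assoc, h.kill φ hm.1 u k1, ← map_mul, ra hn]
  push Not at c1
  obtain ⟨k, hk, hmax⟩ := Λ.exists_max_image id hΛ
  have t : ∀ l ∈ Λ, row l * ι.i (k + 1) = 0 := fun l hl => h.rep.tri l hl k (hmax l hl)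
  have memK : ∀ z, s.a * z ∈ U.J → ι.i (k + 1) * (s.a * z) ∈ K1 ⊓ pre (ι.j 0) K0 := fun z hz => by
    refine ⟨(hK1' _).2 fun l hl => ⟨?_, ?_⟩, ?_⟩
    · change _ * _ ∈ K; rw [ra (t l hl), zero_mul]; exact K.zero_mem
    · change _ * _ ∈ U.J
      by_cases e : l = k
      · rw [e, mul_assoc, ra (ι.self _), one_mul, ra s.ha]; exact hz
      · rw [mul_assoc, ra (ι.ne (by omega)), zero_mul, mul_zero]; exact U.J.zero_mem
    · change _ * _ ∈ K0; rw [ra (ι.z0 _), zero_mul]; exact K0.zero_mem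
  by_cases c2 : ∃ z, n * ι.i (k + 1) * (s.a * z) ∈ Q ∧ s.a * z ∉ U.J
  · obtain ⟨z, hz, hz'⟩ := c2
    obtain ⟨φ, s', hm, ⟨c, hc⟩, e1, -, e2⟩ := s.shrink (δ := 0) hz' (by simp) (by simp)
    rw [map_zero, zero_add] at e2
    have hR' := h.rep.map φ hm.1
    simp only [e2] at hR'
    have hR'' := hR'.drop hk (g := 1) (fun l hl => by
      rw [mul_one, mul_sub, ← mul_assoc, ← map_mul, t l (Finset.mem_of_mem_erase hl)]; simp)
      fun l hl m hm => by simpa using h.rep.tri l (Finset.mem_of_mem_erase hl) m hm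
    refine RedC.of_move hm (ih _ ?_ s' _ _ τ _ n _ rfl hR'' (fun l hl => ?_) ?_)
    · exact lt_of_lt_of_le (Finset.card_erase_lt_of_mem hk) (hN ▸ Finset.card_le_card hsub)
    · rw [e1, mul_one, h.typ l (Finset.mem_of_mem_erase hl)]
    · have m : n * ι.i (k + 1) * s'.a ∈ Q := by rw [hc, ← mul_assoc]; exact RI.mul hz c
      refine RI.cast (Submodule.add_mem _ (hφ hm)
        (ext_mul U.C m (s'.x * (U.C (row k) * φ σ)))) ?_
      simp only [map_mul, mul_assoc, ra s'.ax, mul_sub]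
      abel
  push Not at c2
  obtain ⟨u, hu, -, ⟨W, hW⟩, g2⟩ := U.G.indS h.ind hK2 [] (by simp) B hB
  have hu' := (hK1' u).1 hu.1
  obtain ⟨φ, s', hm, ea, k1, k2⟩ := kill Λ (Λ.erase k) _ (fun l => s.a * (ι.j (l + 1) * u)) W τ
    (Finset.erase_subset _ _) hW (fun l hl => by rw [ra (h.typ l hl)])
    (fun l hl => (hu' l (Finset.mem_of_mem_erase hl)).1)
    (fun l hl => ⟨by
      simpa only [mul_assoc] using (show _ * u ∈ U.J from (hu' l (Finset.mem_of_mem_erase hl)).2),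
      by rw [ra s.ha]⟩) g2
  obtain ⟨k3, k4⟩ := k2 k hk (by simp)
  refine ⟨φ, s', hm, .inr (.inr ⟨ι.j 0 * u, n * ι.i (k + 1), row k * u, W k, τ k, ?_, hW.1 k hk, k4,
    fun z => ?_⟩)⟩
  · obtain ⟨v, hv⟩ : ∃ v, v = U.C (ι.E Λ s.a * u - ι.i (k + 1) * (s.a * (ι.j (k + 1) * u))) +
        U.C (ι.i (k + 1)) * (s'.x * U.C (row k * u)) := ⟨_, rfl⟩
    have r : ∀ l ∈ Λ, U.C (row l) * v = U.C (row l * u) := fun l hl => by
      rw [hv, mul_add, ← map_mul, ← mul_assoc (U.C _), ← map_mul, t l hl, mul_sub, ra (h.nor l hl),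
        ra (t l hl)]
      simp
    have e : φ σ * U.C (ι.j 0 * u) = v := by
      refine (h.rep.map φ hm.1).kill ?_
      rw [Finset.sum_congr rfl fun l hl => by rw [r l hl], ← Finset.add_sum_erase _ _ hk, k3,
        Finset.sum_congr rfl fun l hl => by rw [k1 l hl], hv, ι.E_mul,
        ← Finset.add_sum_erase _ _ hk]
      simp only [map_add, map_sub, map_sum, map_mul]
      abel
    have m1 : n * u ∈ Q := c1 u hu
    have m2 : n * (ι.i (k + 1) * (s.a * (ι.j (k + 1) * u))) ∈ Q := c1 _ (memK _ (by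
      simpa only [mul_assoc] using (show _ * u ∈ U.J from (hu' k hk).2)))
    refine RI.cast (Submodule.add_mem _ (RI.mul (hφ hm) (U.C (ι.j 0 * u)))
      (ext_of U.C (Q.sub_mem m1 m2))) ?_
    rw [sub_mul, mul_assoc (U.C n), e, hv, mul_add, ← map_mul, mul_sub, ra hn, map_mul U.C n (ι.i _)]
    simp only [mul_assoc]
    abel
  · rw [ea]
    exact ⟨c2 z, fun hz => by rw [mul_assoc]; exact c1 _ (memK z hz)⟩

theorem St.red [Infinite F] (s : U.St) (Q : RI R) {K0 : RI R} (hK : Essn K0) (p : P) :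
    ∃ φ s', U.game.Mv s φ s' ∧ ((∃ c, φ p - U.C c ∈ ext U.C Q) ∨
      (∃ u ∈ K0, ∃ c, c ∉ Q ∧ φ p * U.C u - U.C c ∈ ext U.C Q) ∨
      ∃ u d y y' τ, φ p * U.C u - U.C d * s'.x * U.C y ∈ ext U.C Q ∧ y' * y = 1 ∧
        s'.bt τ * y = y ∧ ∀ z, d * (s'.a * z) ∈ Q ↔ s'.a * z ∈ U.J) := by
  obtain ⟨ι⟩ := U.G.famN
  obtain ⟨φ, s1, hm, -⟩ := s.id
  obtain ⟨Λ, row, τ, σ, n, h, e, -⟩ := s1.rep ι (hm.2.1 p)
  exact RedC.of_move hm (red_aux ι Q hK _ s1 Λ row τ σ n _ rfl h.rep h.typ (by simp [e]))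

end US
end Z87
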