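import Pool.Agent.Lib.MP_1e63be_al.Z87.Ind

/-! The game and its direct limit. -/

namespace Z87

variable {F R P : Type} [Field F] [Ring R] [Algebra F R] [Ring P] [Algebra F P]

structure Game (C : R →ₐ[F] P) where
  St : Type
  Mv : St → (P →ₐ[F] P) → St → Prop
  fix : ∀ {s φ s'}, Mv s φ s' → ∀ c, φ (C c) = C c
  comp : ∀ {s φ s' ψ s''}, Mv s φ s' → Mv s' ψ s'' → Mv s (ψ.comp φ) s''

/-- what is known about the direct limit -/
structure Game.Lim {C : R →ₐ[F] P} (Γ : Game C) {T : Type} [Ring T] [Algebra F T] (f : R →ₐ[F] T)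
    (st : ℕ → Γ.St) (κ : ℕ → P →ₐ[F] T) : Prop where
  const : ∀ n c, κ n (C c) = f c
  dir : ∀ n m, ∃ k φ ψ, Γ.Mv (st n) φ (st k) ∧ Γ.Mv (st m) ψ (st k) ∧
    (∀ p, κ k (φ p) = κ n p) ∧ ∀ p, κ k (ψ p) = κ m p
  surj : ∀ z, ∃ n p, κ n p = z
  ker : ∀ n p, κ n p = 0 → ∃ k φ, Γ.Mv (st n) φ (st k) ∧ (∀ q, κ k (φ q) = κ n q) ∧ φ p = 0

theorem Game.seq [Countable P] {C : R →ₐ[F] P} (Γ : Game C) (s0 : Γ.St) {ι : Type} [Countable ι]
    [Nonempty ι] (Done : ι → Γ.St → P → Prop)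
    (hD : ∀ i s p, ∃ φ s', Γ.Mv s φ s' ∧ Done i s' (φ p)) :
    ∃ (st : ℕ → Γ.St) (Ψ : ℕ → ℕ → (P →ₐ[F] P)), st 0 = s0 ∧ (∀ n p, Ψ n n p = p) ∧
      (∀ i j k, i ≤ j → j ≤ k → ∀ p, Ψ k j (Ψ j i p) = Ψ k i p) ∧
      (∀ n m, n < m → Γ.Mv (st n) (Ψ m n) (st m)) ∧
      ∀ i n p, ∃ m, n ≤ m ∧ Done i (st m) (Ψ m n p) := by
  classical
  have : Nonempty P := ⟨0⟩
  obtain ⟨e, he⟩ := exists_surjective_nat (ι × ℕ × P)
  choose φ s' h1 h2 using hD
  let step : ℕ → Γ.St × (ℕ → (P →ₐ[F] P)) → Γ.St × (ℕ → (P →ₐ[F] P)) := fun m x =>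
    (s' (e m.unpair.1).1 x.1 (x.2 (e m.unpair.1).2.1 (e m.unpair.1).2.2), fun n =>
      if n ≤ m then
        (φ (e m.unpair.1).1 x.1 (x.2 (e m.unpair.1).2.1 (e m.unpair.1).2.2)).comp (x.2 n)
      else AlgHom.id F P)
  let D : ℕ → Γ.St × (ℕ → (P →ₐ[F] P)) := fun m =>
    Nat.rec (s0, fun _ => AlgHom.id F P) step m
  obtain ⟨ψ, hψ, hm, hd⟩ : ∃ ψ : ℕ → (P →ₐ[F] P),
      (∀ m n, (D (m + 1)).2 n = if n ≤ m then (ψ m).comp ((D m).2 n) else AlgHom.id F P) ∧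
      (∀ m, Γ.Mv (D m).1 (ψ m) (D (m + 1)).1) ∧
      ∀ m, Done (e m.unpair.1).1 (D (m + 1)).1
        (ψ m ((D m).2 (e m.unpair.1).2.1 (e m.unpair.1).2.2)) :=
    ⟨fun m => φ (e m.unpair.1).1 (D m).1 ((D m).2 (e m.unpair.1).2.1 (e m.unpair.1).2.2),
      fun _ _ => rfl, fun m => h1 _ _ _, fun m => h2 _ _ _⟩
  have hself : ∀ n, (D n).2 n = AlgHom.id F P := fun n => by
    cases n with
    | zero => rfl
    | succ n => rw [hψ, if_neg (by omega)]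
  refine ⟨fun m => (D m).1, fun m => (D m).2, rfl, fun n p => by simp only [hself]; rfl, ?_, ?_, ?_⟩
  · intro i j k hij hjk p
    induction k, hjk using Nat.le_induction with
    | base => simp only [hself]; rfl
    | succ k hjk ih =>
      simp only [hψ, if_pos hjk, if_pos (hij.trans hjk), AlgHom.comp_apply] at ih ⊢
      rw [ih]
  · intro n m hnm
    induction m, hnm using Nat.le_induction with
    | base => simpa [hψ, hself] using hm n
    | succ m hnm ih =>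
      simp only [hψ, if_pos (show n ≤ m by omega)]
      exact Γ.comp ih (hm m)
  · intro i n p
    obtain ⟨k, hk⟩ := he (i, n, p)
    have hle : n ≤ Nat.pair k n := Nat.right_le_pair k n
    refine ⟨Nat.pair k n + 1, by omega, ?_⟩
    have := hd (Nat.pair k n)
    simp only [Nat.unpair_pair, hk] at this
    simpa [hψ, hle] using this

theorem Game.limit [Countable P] {C : R →ₐ[F] P} (Γ : Game C) (s0 : Γ.St) {ι : Type} [Countable ι]
    [Nonempty ι] (Done : ι → Γ.St → P → Prop)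
    (hD : ∀ i s p, ∃ φ s', Γ.Mv s φ s' ∧ Done i s' (φ p)) :
    ∃ (T : Type) (_ : Ring T) (_ : Algebra F T) (_ : Countable T) (f : R →ₐ[F] T)
      (st : ℕ → Γ.St) (κ : ℕ → P →ₐ[F] T), Γ.Lim f st κ ∧ st 0 = s0 ∧
      ∀ i z, ∃ n p, κ n p = z ∧ Done i (st n) p := by
  obtain ⟨st, Ψ, h0, h1, h2, h3, h4⟩ := Γ.seq s0 Done hD
  let g : ∀ i j : ℕ, i ≤ j → (P →ₐ[F] P) := fun i j _ => Ψ j i
  have : DirectedSystem (fun _ : ℕ => P) (g · · ·) :=
    ⟨fun i x => h1 i x, fun k j i hij hjk x => h2 i j k hij hjk x⟩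
  let κ : ℕ → P →ₐ[F] DirectLimit (fun _ : ℕ => P) g := fun n =>
    DirectLimit.Algebra.of (fun _ : ℕ => P) g n
  have hκ : ∀ n m, n ≤ m → ∀ p, κ m (Ψ m n p) = κ n p := fun n m h p =>
    DirectLimit.Algebra.of_f (f := g) h p
  have surj : ∀ z, ∃ n p, κ n p = z := fun z => by
    obtain ⟨n, p, h⟩ := DirectLimit.exists_eq_mk g z
    exact ⟨n, p, h.symm⟩
  refine ⟨DirectLimit (fun _ : ℕ => P) g, inferInstance, inferInstance, inferInstance,
    (κ 0).comp C, st, κ, ⟨fun n c => ?_, fun n m => ?_, surj, fun n p hp => ?_⟩, h0, fun i z => ?_⟩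
  · rcases Nat.eq_zero_or_pos n with rfl | hn
    · rfl
    · rw [← Γ.fix (h3 0 n hn) c, hκ 0 n hn.le]; rfl
  · exact ⟨max n m + 1, _, _, h3 n _ (by omega), h3 m _ (by omega), hκ n _ (by omega),
      hκ m _ (by omega)⟩
  · rw [← map_zero (κ n)] at hp
    obtain ⟨k, hk, hk', e⟩ := Quotient.exact hp
    refine ⟨k + 1, _, h3 n _ (Nat.lt_succ_of_le hk), hκ n _ (Nat.le_succ_of_le hk), ?_⟩
    have e' : Ψ k n p = 0 := by simpa [g] using e
    rw [← h2 n k (k + 1) hk (by omega), e', map_zero]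
  · obtain ⟨n, p, rfl⟩ := surj z
    obtain ⟨m, hm, hd⟩ := h4 i n p
    exact ⟨m, _, hκ n m hm p, hd⟩

section lim
variable {C : R →ₐ[F] P} {Γ : Game C} {T : Type} [Ring T] [Algebra F T] {f : R →ₐ[F] T}
  {st : ℕ → Γ.St} {κ : ℕ → P →ₐ[F] T}

theorem Game.Lim.up (h : Γ.Lim f st κ) (n : ℕ) {J : RI R} {p : P} (hp : p ∈ ext C J) :
    κ n p ∈ ext f J := ext_map C f (κ n) (h.const n) hp

theorem Game.Lim.lup (h : Γ.Lim f st κ) (n : ℕ) {L : Ideal R} {p : P} (hp : p ∈ lext C L) :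
    κ n p ∈ lext f L := lext_map C f (κ n) (h.const n) hp

theorem Game.Lim.down (h : Γ.Lim f st κ) (hr : Reg R) {n : ℕ} {J : RI R} {p : P}
    (hp : κ n p ∈ ext f J) :
    ∃ k φ, Γ.Mv (st n) φ (st k) ∧ (∀ q, κ k (φ q) = κ n q) ∧ φ p ∈ ext C J := by
  obtain ⟨j, hj, e⟩ := (mem_ext hr f).1 hp
  obtain ⟨k, φ, h1, h2, h3⟩ := h.ker n (C j * p - p) (by rw [map_sub, map_mul, h.const, e, sub_self])
  refine ⟨k, φ, h1, h2, (mem_ext hr C).2 ⟨j, hj, ?_⟩⟩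
  rwa [map_sub, map_mul, Γ.fix h1, sub_eq_zero] at h3

end lim

theorem NU.ext {T : Type} [Ring T] [Algebra F T] (G : Good F R) {f : R →ₐ[F] T} {Q : RI R}
    {c1 c2 : R} (h : ∀ d1 d2, c1 * d1 - c2 * d2 ∈ Q → c1 * d1 ∈ Q) (d1 d2 : T)
    (hd : f c1 * d1 - f c2 * d2 ∈ ext f Q) : f c1 * d1 ∈ ext f Q := by
  obtain ⟨i0, i1, j0, j1, h1, h2, h3, h4, -⟩ := G.lea
  have := flat G.reg f (J := Q) (J' := Q) (c := c1 * j0 - c2 * j1) (d := c1 * j0)
    (fun z hz => by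
      rw [mul_assoc]; exact h _ (j1 * z) (RI.cast hz (by noncomm_ring)))
    (z := f i0 * d1 + f i1 * d2) (RI.cast hd (by
      simp only [mul_add, ← mul_assoc, ← map_mul]
      simp only [sub_mul, mul_assoc, h1, h2, h3, h4]
      simp [sub_eq_add_neg]))
  refine RI.cast this ?_
  simp only [mul_add, ← mul_assoc, ← map_mul]
  simp [mul_assoc, h1, h3]

theorem NU.of_ess {T : Type} [Ring T] [Algebra F T] (G : Good F R) {f : R →ₐ[F] T}
    (hf : Function.Injective f) {Q : RI R} (hQ : NU Q) (he : EssExt f Q) : NU (Z87.ext f Q) := by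
  intro x hx
  obtain ⟨r, c, hc, h⟩ := (he x).resolve_left hx
  obtain ⟨c1, c2, h1, h2, h3⟩ := hQ c hc
  have e : ∀ c' d, x * (r * f c') * d - f (c * c') * d ∈ Z87.ext f Q := fun c' d =>
    RI.cast (RI.mul h (f c' * d)) (by rw [map_mul]; noncomm_ring)
  refine ⟨r * f c1, r * f c2, fun g => h1 (ext_const G.reg f hf ?_),
    fun g => h2 (ext_const G.reg f hf ?_), fun d1 d2 hd => RI.of_sub (e c1 d1) ?_⟩
  · simpa using RI.of_sub' (e c1 1) (by simpa using g)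
  · simpa using RI.of_sub' (e c2 1) (by simpa using g)
  · refine NU.ext G h3 d1 d2 ?_
    exact RI.cast (Submodule.add_mem _ (Submodule.sub_mem _ hd (e c1 d1)) (e c2 d2))
      (by noncomm_ring)

theorem lext_bot {T : Type} [Ring T] [Algebra F T] (hr : Reg R) (f : R →ₐ[F] T) {z : T}
    (h : z ∈ lext f ⊥) : z = 0 := by
  obtain ⟨k, hk, e⟩ := (mem_lext hr f).1 h
  rw [← e, (Submodule.mem_bot R).1 hk]; simp

theorem simpleF_ext {T : Type} [Ring T] [Algebra F T] (hr : Reg R) {f : R →ₐ[F] T}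
    (hf : Function.Injective f) {I : RI R} (hI : SimpleF F I)
    (h : ∀ z, (∃ c, z - f c ∈ ext f I) ∨ ∃ r ∈ ext f I, ∃ c, c ∉ I ∧ z * r - f c ∈ ext f I) :
    SimpleF F (ext f I) := by
  refine ⟨⟨fun e => hI.1.1 (ext_const hr f hf (by simpa using e)), fun x hx => ?_⟩, fun r hr' => ?_⟩
  · obtain ⟨r, c, hc, h1⟩ : ∃ r c, c ∉ I ∧ x * r - f c ∈ ext f I := by
      rcases h x with ⟨c, h1⟩ | ⟨r, -, c, hc, h1⟩
      · exact ⟨1, c, fun hc => hx (RI.of_sub h1 (ext_of f hc)), by simpa using h1⟩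
      · exact ⟨r, c, hc, h1⟩
    obtain ⟨d, hd⟩ := hI.1.2 c hc
    refine ⟨r * f d, RI.cast (Submodule.add_mem _ (RI.mul h1 (f d)) (ext_of f hd)) ?_⟩
    simp only [map_sub, map_mul, map_one]; noncomm_ring
  · rcases h r with ⟨c, h1⟩ | ⟨ρ, hρ, c, hc, h1⟩
    · obtain ⟨l, hl⟩ := hI.2 c fun j hj => ext_const hr f hf (by
        rw [map_mul]
        exact RI.of_sub' (RI.cast (RI.mul h1 (f j)) (by noncomm_ring)) (hr' _ (ext_of f hj)))
      refine ⟨l, RI.cast (Submodule.add_mem _ h1 (ext_of f hl)) ?_⟩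
      simp
    · exact absurd (ext_const hr f hf (RI.of_sub' h1 (hr' _ hρ))) hc

theorem good_ext {T : Type} [Ring T] [Algebra F T] (G : Good F R) {f : R →ₐ[F] T}
    (hf : Function.Injective f) {I : RI T} (hI : SimpleF F I) (hr : Reg T)
    (h0 : LEssExt f ⊥) : Good F T := by
  have pi : ∀ y : T, y ≠ 0 → ∃ s t, s * y * t = 1 := fun y hy => by
    rcases h0 y with h | ⟨r, c, hc, h⟩
    · exact absurd (lext_bot G.reg f h) hy
    · obtain ⟨s, t, hst⟩ := G.pi c (by simpa using hc)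
      refine ⟨f s * r, f t, ?_⟩
      rw [mul_assoc (f s), sub_eq_zero.1 (lext_bot G.reg f h), ← map_mul, ← map_mul, hst, map_one]
  refine ⟨fun e => G.nt (hf (by simpa using e)), hr, pi, ?_, fun c hc => ?_⟩
  · obtain ⟨i0, i1, j0, j1, h1, h2, h3, h4, h5⟩ := G.lea
    refine ⟨f i0, f i1, f j0, f j1, ?_, ?_, ?_, ?_, ?_⟩ <;>
      simp only [← map_mul, ← map_add, h1, h2, h3, h4, h5, map_one, map_zero]
  · obtain ⟨l, hl⟩ := hI.2 c fun j hj => by rw [hc]; exact RI.mul hj c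
    refine ⟨l, by_contra fun hne => hI.1.1 ?_⟩
    obtain ⟨s, t, hst⟩ := pi _ (sub_ne_zero.2 hne)
    rw [← hst, mul_sub, ← hc, ← Algebra.commutes, ← sub_mul, mul_assoc]
    exact RI.mul hl _

theorem Game.extn [Countable R] [Countable P] (G : Good F R) {I : RI R} (hI : SimpleF F I)
    {QQ : Set (RI R)} (hQQ : QQ.Countable) (hNU : ∀ Q ∈ QQ, NU Q) {LL : Set (Ideal R)}
    (hLL : LL.Countable) {C : R →ₐ[F] P} (Γ : Game C) (ev : P →ₐ[F] R) (hev : ∀ c, ev (C c) = c)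
    (s0 : Γ.St)
    (hreg : ∀ s p, ∃ φ s', Γ.Mv s φ s' ∧ ∃ q, φ p * q * φ p = φ p)
    (hred : ∀ Q ∈ QQ, ∀ s p, ∃ φ s', Γ.Mv s φ s' ∧
      ((∃ c, φ p - C c ∈ ext C Q) ∨ ∃ r c, c ∉ Q ∧ φ p * r - C c ∈ ext C Q))
    (hS : ∀ s p, ∃ φ s', Γ.Mv s φ s' ∧
      ((∃ c, φ p - C c ∈ ext C I) ∨ ∃ r ∈ ext C I, ∃ c, c ∉ I ∧ φ p * r - C c ∈ ext C I))
    (hleft : ∀ L : Ideal R, ∀ s p, ∃ φ s', Γ.Mv s φ s' ∧
      (φ p ∈ lext C L ∨ ∃ r c, c ∉ L ∧ r * φ p - C c ∈ lext C L))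
    {ι : Type} [Countable ι] (Done : ι → Γ.St → P → Prop)
    (hD : ∀ i s p, ∃ φ s', Γ.Mv s φ s' ∧ Done i s' (φ p)) :
    ∃ (T : Type) (_ : Ring T) (_ : Algebra F T) (_ : Countable T) (f : R →ₐ[F] T)
      (st : ℕ → Γ.St) (κ : ℕ → P →ₐ[F] T), Extn F f I QQ LL ∧ Γ.Lim f st κ ∧ st 0 = s0 ∧
      ∀ i z, ∃ n p, κ n p = z ∧ Done i (st n) p := by
  have := hQQ.to_subtype
  have := (hLL.insert ⊥).to_subtype
  obtain ⟨T, _, _, _, f, st, κ, hL, h0, hd⟩ := Γ.limit s0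
    (ι := Bool ⊕ (QQ ⊕ (↥(insert ⊥ LL) ⊕ ι)))
    (Sum.elim (fun b _ p => if b then ∃ q, p * q * p = p else
        ((∃ c, p - C c ∈ ext C I) ∨ ∃ r ∈ ext C I, ∃ c, c ∉ I ∧ p * r - C c ∈ ext C I))
      (Sum.elim (fun Q _ p => (∃ c, p - C c ∈ ext C Q.1) ∨
          ∃ r c, c ∉ Q.1 ∧ p * r - C c ∈ ext C Q.1)
        (Sum.elim (fun L _ p => p ∈ lext C L.1 ∨ ∃ r c, c ∉ L.1 ∧ r * p - C c ∈ lext C L.1) Done)))
    (by
      rintro (b | Q | L | i) s p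
      · cases b
        · simpa using hS s p
        · simpa using hreg s p
      · exact hred Q.1 Q.2 s p
      · exact hleft L.1 s p
      · exact hD i s p)
  have hf : Function.Injective f := (injective_iff_map_eq_zero f).2 fun c hc => by
    obtain ⟨k, φ, h1, -, h3⟩ := hL.ker 0 (C c) (by rw [hL.const, hc])
    rw [Γ.fix h1] at h3
    rw [← hev c, h3, map_zero]
  have less : ∀ L ∈ insert ⊥ LL, LEssExt f L := fun L hL' z => by
    obtain ⟨n, p, rfl, h | ⟨r, c, hc, h⟩⟩ := hd (.inr (.inr (.inl ⟨L, hL'⟩))) z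
    · exact .inl (hL.lup n h)
    · exact .inr ⟨κ n r, c, hc, by simpa [hL.const] using hL.lup n h⟩
  have ess : ∀ Q ∈ QQ, EssExt f Q := fun Q hQ z => by
    obtain ⟨n, p, rfl, ⟨c, h⟩ | ⟨r, c, hc, h⟩⟩ := hd (.inr (.inl ⟨Q, hQ⟩)) z
    · have h' : κ n p - f c ∈ ext f Q := by simpa [hL.const] using hL.up n h
      by_cases hc : c ∈ Q
      · exact .inl (RI.of_sub h' (ext_of f hc))
      · exact .inr ⟨1, c, hc, by simpa using h'⟩
    · exact .inr ⟨κ n r, c, hc, by simpa [hL.const] using hL.up n h⟩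
  have simple : SimpleF F (ext f I) := simpleF_ext G.reg hf hI fun z => by
    obtain ⟨n, p, rfl, h⟩ := hd (.inl false) z
    rcases h with ⟨c, h⟩ | ⟨r, hr, c, hc, h⟩
    · exact .inl ⟨c, by simpa [hL.const] using hL.up n h⟩
    · exact .inr ⟨κ n r, hL.up n hr, c, hc, by simpa [hL.const] using hL.up n h⟩
  have reg : Reg T := fun z => by
    obtain ⟨n, p, rfl, q, h⟩ := hd (.inl true) z
    exact ⟨κ n q, by rw [← map_mul, ← map_mul, h]⟩
  exact ⟨T, inferInstance, inferInstance, inferInstance, f, st, κ,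
    ⟨hf, good_ext G hf simple reg (less ⊥ (Set.mem_insert _ _)), simple, ess,
      fun Q hQ => NU.of_ess G hf (hNU Q hQ) (ess Q hQ),
      fun L hL' => less L (Set.mem_insert_of_mem _ hL')⟩, hL, h0,
    fun i z => hd (.inr (.inr (.inr i))) z⟩

/-- the gluing step -/
def St_G (F : Type) [Field F] : Prop :=
  ∀ (R : Type) [Ring R] [Algebra F R] [Countable R], Good F R →
    ∀ I : RI R, SimpleF F I → ∀ QQ : Set (RI R), QQ.Countable → (∀ Q ∈ QQ, NU Q) →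
    ∀ LL : Set (Ideal R), LL.Countable → ∀ J : RI R, SimpleF F J →
    (∀ c, (∀ j ∈ J, c * j ∈ I) → c ∈ I) → (∀ c, (∀ i ∈ I, c * i ∈ J) → c ∈ J) →
    ∃ (T : Type) (_ : Ring T) (_ : Algebra F T) (_ : Countable T) (f : R →ₐ[F] T),
      Extn F f I QQ LL ∧ IsoIJ f I J

/-- the sealing step -/
def St_U (F : Type) [Field F] : Prop :=
  ∀ (R : Type) [Ring R] [Algebra F R] [Countable R], Good F R →
    ∀ I : RI R, SimpleF F I → ∀ QQ : Set (RI R), QQ.Countable → (∀ Q ∈ QQ, NU Q) →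
    ∀ LL : Set (Ideal R), LL.Countable → ∀ J : RI R,
    ((Unif J ∧ SocFree J) ∨ (MaxR J ∧ ¬ EndF F J)) →
    ∃ (T : Type) (_ : Ring T) (_ : Algebra F T) (_ : Countable T) (f : R →ₐ[F] T),
      Extn F f I QQ LL ∧ KeptS f J ∧ NU (ext f J)

theorem step_of (hG : St_G F) (hU : St_U F) : St_STEP F := by
  intro R _ _ _ G I hI QQ hQQ hNU LL hLL J hJ
  by_cases h : (Unif J ∧ SocFree J) ∨ (MaxR J ∧ ¬ EndF F J)
  · obtain ⟨T, _, _, _, f, h1, h2⟩ := hU R G I hI QQ hQQ hNU LL hLL J h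
    exact ⟨T, inferInstance, inferInstance, inferInstance, f, h1, .inr h2⟩
  have hm : MaxR J := hJ.resolve_right fun e => h (.inl e)
  have hS : SimpleF F J := ⟨hm, by_contra fun e => h (.inr ⟨hm, e⟩)⟩
  have iso : ∀ I J : RI R, MaxR I → MaxR J → ∀ c, (∀ j ∈ J, c * j ∈ I) → c ∉ I →
      ∃ d, (∀ i ∈ I, d * i ∈ J) ∧ c * d - 1 ∈ I ∧ d * c - 1 ∈ J := by
    intro I J hI hJ c hc hc'
    obtain ⟨d, hd⟩ := hI.2 c hc'
    have inj : ∀ z, c * z ∈ I → z ∈ J := fun z hz => by_contra fun hz' => by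
      obtain ⟨y, hy⟩ := hJ.2 z hz'
      exact hc' (RI.cast (I.sub_mem (RI.mul hz y) (hc _ hy)) (by noncomm_ring))
    exact ⟨d, fun i hi => inj _ (RI.cast (I.add_mem (RI.mul hd i) hi) (by noncomm_ring)), hd,
      inj _ (RI.cast (RI.mul hd c) (by noncomm_ring))⟩
  have triv : Extn F (AlgHom.id F R) I QQ LL ∧ ∀ K : RI R, ext (AlgHom.id F R) K = K := by
    have e : ∀ K : RI R, ext (AlgHom.id F R) K = K := fun K => by simp [ext]
    have e' : ∀ K : Ideal R, lext (AlgHom.id F R) K = K := fun K => by simp [lext]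
    refine ⟨⟨fun _ _ h => h, G, by rwa [e], fun Q _ x => ?_, fun Q hQ => by rw [e]; exact hNU Q hQ,
      fun L _ x => ?_⟩, e⟩
    · rw [e]; exact (em _).imp id fun hx => ⟨1, x, hx, by simp⟩
    · rw [e']; exact (em _).imp id fun hx => ⟨1, x, hx, by simp⟩
  by_cases h1 : ∀ c, (∀ j ∈ J, c * j ∈ I) → c ∈ I
  · by_cases h2 : ∀ c, (∀ i ∈ I, c * i ∈ J) → c ∈ J
    · obtain ⟨T, _, _, _, f, h1, h2⟩ := hG R G I hI QQ hQQ hNU LL hLL J hS h1 h2
      exact ⟨T, inferInstance, inferInstance, inferInstance, f, h1, .inl h2⟩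
    · push Not at h2
      obtain ⟨c, hc, hc'⟩ := h2
      obtain ⟨d, g1, g2, g3⟩ := iso J I hm hI.1 c hc hc'
      exact ⟨R, inferInstance, inferInstance, inferInstance, AlgHom.id F R, triv.1,
        .inl ⟨c, d, by rw [triv.2]; exact hc, by rw [triv.2]; exact g1,
          by rw [triv.2]; exact g2, by rw [triv.2]; exact g3⟩⟩
  · push Not at h1
    obtain ⟨c, hc, hc'⟩ := h1
    obtain ⟨d, g1, g2, g3⟩ := iso I J hI.1 hm c hc hc'
    exact ⟨R, inferInstance, inferInstance, inferInstance, AlgHom.id F R, triv.1,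
      .inl ⟨d, c, by rw [triv.2]; exact g1, by rw [triv.2]; exact hc,
        by rw [triv.2]; exact g3, by rw [triv.2]; exact g2⟩⟩

end Z87
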