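import Pool.Agent.Lib.MP_1e63be_al.Z87.Rep
import Pool.Agent.Lib.MP_1e63be_al.Z87.Game

/-! Every polynomial becomes regular after a move. -/

namespace Z87

/-- preimage of a right ideal -/
def comap {A B Φ : Type} [Ring A] [Ring B] [FunLike Φ A B] [RingHomClass Φ A B] (φ : Φ)
    (N : RI B) : RI A where
  carrier := {u | φ u ∈ N}
  add_mem' := fun {a b} ha hb => by
    change φ (a + b) ∈ N; rw [map_add]; exact N.add_mem ha hb
  zero_mem' := by change φ 0 ∈ N; rw [map_zero]; exact N.zero_mem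
  smul_mem' := fun a x hx => by
    change φ (x * a.unop) ∈ N; rw [map_mul]; exact RI.mul hx _

@[simp] theorem mem_comap {A B Φ : Type} [Ring A] [Ring B] [FunLike Φ A B] [RingHomClass Φ A B]
    {φ : Φ} {N : RI B} {u : A} : u ∈ comap φ N ↔ φ u ∈ N := Iff.rfl

/-- principal right ideal -/
def prin {A : Type} [Ring A] (p : A) : RI A where
  carrier := {u | ∃ q, u = p * q}
  add_mem' := by rintro _ _ ⟨a, rfl⟩ ⟨b, rfl⟩; exact ⟨a + b, by rw [mul_add]⟩
  zero_mem' := ⟨0, by simp⟩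
  smul_mem' := by rintro a _ ⟨b, rfl⟩; exact ⟨b * a.unop, by simp [mul_assoc]⟩

variable {F R P : Type} [Field F] [Ring R] [Algebra F R] [Ring P] [Algebra F P]

theorem RI.fsmul {N : RI P} {z : P} (h : z ∈ N) (l : F) : l • z ∈ N := by
  rw [Algebra.smul_def, Algebra.commutes]; exact RI.mul h _

theorem fix_iff {ε z : P} : z ∈ pre (1 - ε) (⊥ : RI P) ↔ ε * z = z := by
  rw [mem_pre, Submodule.mem_bot, sub_mul, one_mul, sub_eq_zero, eq_comm]

theorem lock_abs (hr : Reg R) {C : R →ₐ[F] P} (Γ : Game C) (g : Γ.St → P)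
    (hid : ∀ s, ∃ φ s', Γ.Mv s φ s')
    (hstep : ∀ s (e : R) (Λ : Finset ℕ) (l' l : ℕ → R), Λ.Nonempty →
      ∃ φ s' δ, Γ.Mv s φ s' ∧ φ (g s) = C δ + g s' ∧ ∃ i0 ∈ Λ, ∃ (π : P) (c : R),
        π * π = π ∧ π * C e = 0 ∧ π * C c = 0 ∧
        (∀ i ∈ Λ.erase i0, π * (C (l' i) * φ (g s) - C (l i)) = 0) ∧
        (∀ N : RI P, C e ∈ N → (∀ i ∈ Λ, C (l' i) * φ (g s) - C (l i) ∈ N) → π ∈ N ∧ C c ∈ N) ∧
        ∀ N : RI P, π ∈ N → C e ∈ N → C c ∈ N →
          (∀ i ∈ Λ.erase i0, C (l' i) * φ (g s) - C (l i) ∈ N) →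
          C (l' i0) * φ (g s) - C (l i0) ∈ N)
    (s : Γ.St) (e : R) (Λ : Finset ℕ) (l' l : ℕ → R) :
    ∃ φ s', Γ.Mv s φ s' ∧ ∃ ε, ε * C e = C e ∧
      (∀ i ∈ Λ, ε * (C (l' i) * φ (g s) - C (l i)) = C (l' i) * φ (g s) - C (l i)) ∧
      ∀ N : RI P, C e ∈ N → (∀ i ∈ Λ, C (l' i) * φ (g s) - C (l i) ∈ N) → ε ∈ N := by
  induction' hn : Λ.card using Nat.strong_induction_on with n ih generalizing s e Λ l
  rcases Λ.eq_empty_or_nonempty with rfl | hΛ
  · obtain ⟨φ, s', h⟩ := hid s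
    obtain ⟨c, -, hc⟩ := hr.idem e
    exact ⟨φ, s', h, C (e * c), by rw [← map_mul, hc], by simp,
      fun N hN _ => by rw [map_mul]; exact RI.mul hN _⟩
  obtain ⟨φ, s', δ, hm, hδ, i0, hi0, π, c, p1, p2, p3, p4, p5, p6⟩ := hstep s e Λ l' l hΛ
  obtain ⟨k, -, k1, k2, c1, c2, k3⟩ := join2 hr e c
  obtain ⟨ψ, s'', hm', ε, q1, q2, q3⟩ := ih _ (hn ▸ Finset.card_erase_lt_of_mem hi0) s' k
    (Λ.erase i0) (fun i => l i - l' i * δ) rfl
  have eG : ∀ i, C (l' i) * ψ (g s') - C (l i - l' i * δ) = ψ (C (l' i) * φ (g s) - C (l i)) := by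
    intro i
    rw [hδ]
    simp only [map_sub, map_mul, map_add, Γ.fix hm']
    noncomm_ring
  have eG' : ∀ i, C (l' i) * (ψ.comp φ) (g s) - C (l i) = ψ (C (l' i) * φ (g s) - C (l i)) := by
    intro i
    simp only [map_sub, map_mul, Γ.fix hm', AlgHom.comp_apply]
  simp only [eG] at q2 q3
  have hπ : ψ π * ε = 0 := by
    refine q3 (pre (ψ π) ⊥) ?_ fun i hi => ?_
    · rw [mem_pre, Submodule.mem_bot, ← Γ.fix hm', ← map_mul, k3]
      simp [mul_add, ra p2, ra p3]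
    · rw [mem_pre, Submodule.mem_bot, ← map_mul, p4 i hi, map_zero]
  have f1 : (ψ π + ε - ε * ψ π) * ψ π = ψ π := by
    rw [sub_mul, add_mul, mul_assoc, ← map_mul, p1]; simp
  have f2 : ∀ z, ε * z = z → (ψ π + ε - ε * ψ π) * z = z := fun z hz => by
    have : ψ π * z = 0 := by rw [← hz, ra hπ, zero_mul]
    rw [sub_mul, add_mul, mul_assoc, this, hz]; simp
  have fe : (ψ π + ε - ε * ψ π) * C e = C e := f2 _ (by rw [← k1, map_mul, ra q1])
  refine ⟨ψ.comp φ, s'', Γ.comp hm hm', ψ π + ε - ε * ψ π, fe, fun i hi => ?_, fun N h1 h2 => ?_⟩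
  · rw [eG']
    by_cases h : i = i0
    · subst h
      refine fix_iff.1 (p6 (comap ψ (pre (1 - (ψ π + ε - ε * ψ π)) ⊥)) ?_ ?_ ?_ fun i hi => ?_)
      · exact fix_iff.2 f1
      · rw [mem_comap, Γ.fix hm']; exact fix_iff.2 fe
      · rw [mem_comap, Γ.fix hm']; exact fix_iff.2 (f2 _ (by rw [← k2, map_mul, ra q1]))
      · exact fix_iff.2 (f2 _ (q2 i hi))
    · exact f2 _ (q2 i (Finset.mem_erase.2 ⟨h, hi⟩))
  · simp only [eG'] at h2
    obtain ⟨r1, r2⟩ := p5 (comap ψ N) (by rwa [mem_comap, Γ.fix hm']) h2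
    rw [mem_comap, Γ.fix hm'] at r2
    have : ε ∈ N := q3 N (by
      rw [k3, map_add, map_mul, map_mul]; exact N.add_mem (RI.mul h1 _) (RI.mul r2 _))
      fun i hi => h2 i (Finset.mem_of_mem_erase hi)
    exact N.sub_mem (N.add_mem r1 this) (RI.mul this _)

/-- REP + HIGMAN + LOCK.  `g s` is the letter, `g' s` its inverse when `Inv` holds. -/
theorem Game.reg (G : Good F R) {C : R →ₐ[F] P} (Γ : Game C) (g g' : Γ.St → P) (a b : Γ.St → R)
    (hag : ∀ s, C (a s) * g s = g s) (hgb : ∀ s, g s * C (b s) = g s) (hb : ∀ s, b s * b s = b s)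
    (Inv : Prop) (hinv : Inv → ∀ s, g s * g' s = C (a s) ∧ g' s * g s = C (b s) ∧
      g' s * C (a s) = g' s)
    (hid : ∀ s, ∃ φ s', Γ.Mv s φ s' ∧ ∃ δ, φ (g s) = C δ + g s')
    (hstep : ∀ s (e : R) (Λ : Finset ℕ) (l' l : ℕ → R), e * e = e → Λ.Nonempty →
      (∀ i ∈ Λ, l i * b s = l i) → Ind F Λ (fun i => (1 - e) * l' i * a s) →
      (Inv → Ind F Λ (fun i => (1 - e) * l i)) →
      ∃ φ s', Γ.Mv s φ s' ∧ (∃ δ, φ (g s) = C δ + g s') ∧ ∃ i0 ∈ Λ, ∃ ω v w c : R,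
        ω * e = 0 ∧ (∀ i ∈ Λ, i ≠ i0 → C ω * (C (l' i) * φ (g s) - C (l i)) = 0) ∧
        C ω * (C (l' i0) * φ (g s) - C (l i0)) = C w ∧ v * w * v = v ∧
        (C (l' i0) * φ (g s) - C (l i0)) * C (1 - v * w) = C c)
    (s : Γ.St) (p : P)
    (hp : p ∈ Subring.closure (Set.range C ∪ {z | z = g s ∨ (Inv ∧ z = g' s)})) :
    ∃ φ s', Γ.Mv s φ s' ∧ ∃ q, φ p * q * φ p = φ p := by
  classical
  have lock := lock_abs G.reg Γ g (fun s => by
      obtain ⟨φ, s', h, -⟩ := hid s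
      exact ⟨φ, s', h⟩) (by
    intro s e Λ l' l hΛ
    obtain ⟨k0, -, k1, k2⟩ := join G.reg Λ fun i => l i * (1 - b s)
    obtain ⟨e1, he1, k3, k4, c1, c2, k5⟩ := join2 G.reg e k0
    have k6 : ∀ i ∈ Λ, e1 * (l i * (1 - b s)) = l i * (1 - b s) := fun i hi => by
      rw [← k1 i hi, ra k4]
    have memE : ∀ φ s', Γ.Mv s φ s' → ∀ N : RI P, C e ∈ N →
        (∀ i ∈ Λ, C (l' i) * φ (g s) - C (l i) ∈ N) → C e1 ∈ N := by
      intro φ s' hm N h1 h2
      have : C k0 ∈ N := k2 (comap C N) fun i hi => by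
        have e : φ (g s) * C (b s) = φ (g s) := by rw [← Γ.fix hm, ← map_mul, hgb]
        rw [mem_comap]
        refine RI.cast (RI.mul (h2 i hi) (C (b s) - 1)) ?_
        simp only [map_mul, map_sub, map_one, sub_mul, mul_sub, mul_assoc, e]
        noncomm_ring
      rw [k5, map_add, map_mul, map_mul]; exact N.add_mem (RI.mul h1 _) (RI.mul this _)
    have dep : ∀ φ s' δ, Γ.Mv s φ s' → φ (g s) = C δ + g s' → ∀ i0 ∈ Λ, ∀ (m : ℕ → F) (c0 : R),
        (∀ N : RI P, C e1 ∈ N → (C (l' i0 - ∑ i ∈ Λ.erase i0, m i • l' i) * φ (g s) -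
          C (l i0 - ∑ i ∈ Λ.erase i0, m i • l i) ∈ N ↔ C c0 ∈ N)) →
        ∃ φ s' δ, Γ.Mv s φ s' ∧ φ (g s) = C δ + g s' ∧ ∃ i0 ∈ Λ, ∃ (π : P) (c : R),
        π * π = π ∧ π * C e = 0 ∧ π * C c = 0 ∧
        (∀ i ∈ Λ.erase i0, π * (C (l' i) * φ (g s) - C (l i)) = 0) ∧
        (∀ N : RI P, C e ∈ N → (∀ i ∈ Λ, C (l' i) * φ (g s) - C (l i) ∈ N) → π ∈ N ∧ C c ∈ N) ∧
        ∀ N : RI P, π ∈ N → C e ∈ N → C c ∈ N →
          (∀ i ∈ Λ.erase i0, C (l' i) * φ (g s) - C (l i) ∈ N) →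
          C (l' i0) * φ (g s) - C (l i0) ∈ N := by
      intro φ s' δ hm hδ i0 hi0 m c0 hN
      obtain ⟨c, -, j1, j2, d1, d2, j3⟩ := join2 G.reg e1 c0
      have eq : C (l' i0 - ∑ i ∈ Λ.erase i0, m i • l' i) * φ (g s) -
          C (l i0 - ∑ i ∈ Λ.erase i0, m i • l i) = (C (l' i0) * φ (g s) - C (l i0)) -
          ∑ i ∈ Λ.erase i0, m i • (C (l' i) * φ (g s) - C (l i)) := by
        simp only [map_sub, map_sum, map_smul, sub_mul, Finset.sum_mul, smul_sub,
          Finset.sum_sub_distrib, smul_mul_assoc]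
        abel
      refine ⟨φ, s', δ, hm, hδ, i0, hi0, 0, c, by simp, by simp, by simp, by simp,
        fun N h1 h2 => ⟨N.zero_mem, ?_⟩, fun N _ h1 h2 h3 => ?_⟩
      · have h3 := memE φ s' hm N h1 h2
        have h4 := (hN N h3).1 (eq ▸ N.sub_mem (h2 i0 hi0) (N.sum_mem fun i hi =>
          RI.fsmul (h2 i (Finset.mem_of_mem_erase hi)) _))
        rw [j3, map_add, map_mul, map_mul]; exact N.add_mem (RI.mul h3 _) (RI.mul h4 _)
      · have h4 := (hN N (by rw [← j1, map_mul]; exact RI.mul h2 _)).2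
          (by rw [← j2, map_mul]; exact RI.mul h2 _)
        exact RI.of_sub (eq ▸ h4) (N.sum_mem fun i hi => RI.fsmul (h3 i hi) _)
    by_cases d1 : Ind F Λ (fun i => (1 - e1) * l' i * a s)
    swap
    · obtain ⟨i0, hi0, m, hm0⟩ := not_ind d1
      obtain ⟨φ, s', hm, δ, hδ⟩ := hid s
      refine dep φ s' δ hm hδ i0 hi0 m (l i0 - ∑ i ∈ Λ.erase i0, m i • l i) fun N hN => ?_
      obtain ⟨L', hL'⟩ : ∃ L', L' = l' i0 - ∑ i ∈ Λ.erase i0, m i • l' i := ⟨_, rfl⟩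
      have e0 : (1 - e1) * L' * a s = 0 := by
        rw [hL', mul_sub, sub_mul, hm0]; simp [Finset.mul_sum, Finset.sum_mul]
      have e2 : C L' * φ (g s) ∈ N := by
        have e : C (a s) * φ (g s) = φ (g s) := by rw [← Γ.fix hm, ← map_mul, hag]
        have e3 : L' * a s = e1 * (L' * a s) := by
          rw [mul_assoc, sub_mul, one_mul, sub_eq_zero] at e0; exact e0
        rw [← e, ← mul_assoc, ← map_mul, e3, map_mul, mul_assoc]; exact RI.mul hN _
      rw [← hL']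
      exact ⟨fun h => RI.of_sub' h e2, fun h => N.sub_mem e2 h⟩
    by_cases d2 : Inv → Ind F Λ (fun i => (1 - e1) * (l i * b s))
    swap
    · obtain ⟨hI, d2⟩ := Classical.not_imp.1 d2
      obtain ⟨i0, hi0, m, hm0⟩ := not_ind d2
      obtain ⟨φ, s', hm, δ, hδ⟩ := hid s
      obtain ⟨v1, -, -⟩ := hinv hI s
      refine dep φ s' δ hm hδ i0 hi0 m ((l' i0 - ∑ i ∈ Λ.erase i0, m i • l' i) * a s)
        fun N hN => ?_
      obtain ⟨L', hL'⟩ : ∃ L', L' = l' i0 - ∑ i ∈ Λ.erase i0, m i • l' i := ⟨_, rfl⟩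
      obtain ⟨L, hL⟩ : ∃ L, L = l i0 - ∑ i ∈ Λ.erase i0, m i • l i := ⟨_, rfl⟩
      have e0 : (1 - e1) * (L * b s) = 0 := by
        rw [hL, sub_mul (l i0), mul_sub, hm0]; simp [Finset.mul_sum, Finset.sum_mul]
      have e2 : e1 * (L * (1 - b s)) = L * (1 - b s) := by
        rw [hL, sub_mul, mul_sub, k6 i0 hi0, Finset.sum_mul, Finset.mul_sum]
        congr 1
        exact Finset.sum_congr rfl fun i hi => by
          rw [smul_mul_assoc, mul_smul_comm, k6 i (Finset.mem_of_mem_erase hi)]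
      have e3 : C L ∈ N := by
        have : L = e1 * L := by
          have : L - e1 * L = (1 - e1) * (L * b s) + (L * (1 - b s) - e1 * (L * (1 - b s))) := by
            noncomm_ring
          rw [e0, e2] at this; exact sub_eq_zero.1 (by simpa using this)
        rw [this, map_mul]; exact RI.mul hN _
      have e : C (a s) * φ (g s) = φ (g s) := by rw [← Γ.fix hm, ← map_mul, hag]
      have e' : φ (g s) * φ (g' s) = C (a s) := by rw [← map_mul, v1, Γ.fix hm]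
      rw [← hL', ← hL]
      refine ⟨fun h => ?_, fun h => N.sub_mem ?_ e3⟩
      · rw [map_mul, ← e', ← mul_assoc]; exact RI.mul (RI.of_sub h e3) _
      · rw [← e, ← mul_assoc, ← map_mul]; exact RI.mul h _
    obtain ⟨φ, s', hm, ⟨δ, hδ⟩, i0, hi0, ω, v, w, c0, p1, p2, p3, p4, p5⟩ :=
      hstep s e1 Λ l' (fun i => l i * b s) he1 hΛ (fun i _ => by rw [mul_assoc, hb]) d1 d2
    obtain ⟨c, -, j1, j2, d1, d2, j3⟩ := join2 G.reg e1 c0
    have eq : ∀ i, C (l' i) * φ (g s) - C (l i) =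
        C (l' i) * φ (g s) - C (l i * b s) - C (l i * (1 - b s)) := fun i => by
      simp only [mul_sub, map_sub, mul_one]; abel
    obtain ⟨H, hH⟩ : ∃ H, H = C (l' i0) * φ (g s) - C (l i0 * b s) := ⟨_, rfl⟩
    rw [← hH] at p3 p5
    have z1 : ∀ y, e1 * y = y → H * C (v * ω) * C y = 0 := fun y hy => by
      rw [mul_assoc, ← map_mul, ← hy, mul_assoc, ra p1]; simp
    have z2 : H * C (v * ω) * H = H * C (v * w) := by
      rw [map_mul, map_mul, mul_assoc, mul_assoc, p3]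
    refine ⟨φ, s', δ, hm, hδ, i0, hi0, H * C (v * ω), c, ?_, z1 e k3, ?_, fun i hi => ?_,
      fun N h1 h2 => ?_, fun N h0 h1 h2 h3 => ?_⟩
    · rw [← mul_assoc, z2, mul_assoc, ← map_mul, ← mul_assoc, p4]
    · rw [j3, map_add, map_mul C e1, map_mul C c0, mul_add, ra (z1 e1 he1), ← p5, ← mul_assoc,
        ← mul_assoc, z2, mul_assoc H, ← map_mul, mul_sub, ← mul_assoc, p4]
      simp
    · rw [eq, mul_sub, z1 _ (k6 i (Finset.mem_of_mem_erase hi)), map_mul, mul_assoc, mul_assoc,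
        p2 i (Finset.mem_of_mem_erase hi) (Finset.ne_of_mem_erase hi)]
      simp
    · have h3 := memE φ s' hm N h1 h2
      have h4 : H ∈ N := by
        refine RI.of_sub (y := C (l i0 * (1 - b s))) (by rw [hH, ← eq]; exact h2 i0 hi0) ?_
        rw [← k6 i0 hi0, map_mul]; exact RI.mul h3 _
      refine ⟨RI.mul h4 _, ?_⟩
      rw [j3, map_add, map_mul, map_mul, ← p5]
      exact N.add_mem (RI.mul h3 _) (RI.mul (RI.mul h4 _) _)
    · rw [eq, ← hH]
      refine N.sub_mem ?_ (by rw [← k6 i0 hi0, ← j1, mul_assoc, map_mul]; exact RI.mul h2 _)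
      have : H = H * C (v * ω) * H + C c * C c0 := by
        rw [← map_mul, j2, z2, ← p5, ← mul_add, ← map_add]; simp
      rw [this]; exact N.add_mem (RI.mul h0 _) (RI.mul h2 _))
  obtain ⟨ι⟩ := G.famN
  obtain ⟨Λ, xl, row, σ, n, hR, hX, rfl⟩ := rep ι C _ hp
  obtain ⟨A, κ, k, k', Ξ, q, y, h1, h2, h3, h4⟩ := higman G hR n
  obtain ⟨k0, -, k1, k2⟩ := join G.reg Λ fun i => if xl i = g s then 0 else k i * (1 - a s)
  obtain ⟨e, -, k3, k4, c1, c2, k5⟩ := join2 G.reg A k0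
  obtain ⟨φ, s', hm, ε, q1, q2, q3⟩ := lock s e Λ (fun i => if xl i = g s then k' i else k i)
    (fun i => if xl i = g s then k i else k' i * b s)
  have eG : ∀ c d, C c * φ (g s) - C d = φ (C c * g s - C d) := fun c d => by
    simp only [map_sub, map_mul, Γ.fix hm]
  simp only [eG] at q2 q3
  have hX' : ∀ i ∈ Λ, xl i ≠ g s → xl i = g' s ∧ g s * g' s = C (a s) ∧ g' s * g s = C (b s) ∧
      g' s * C (a s) = g' s := fun i hi hne => by
    obtain ⟨hI, e⟩ := (hX i hi).resolve_left hne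
    exact ⟨e, hinv hI s⟩
  obtain ⟨q', hq'⟩ : φ Ξ * ε ∈ prin (φ (C n * σ)) := by
    refine q3 (pre (φ Ξ) (prin _)) ?_ fun i hi => ⟨0, ?_⟩
    · obtain ⟨q', hq'⟩ : Ξ * C k0 ∈ prin (C n * σ) := k2 (comap C (pre Ξ (prin _))) fun i hi => by
        by_cases h : xl i = g s
        · simp [h]
        · obtain ⟨e1, -, -, e2⟩ := hX' i hi h
          refine ⟨0, ?_⟩
          have := congrArg (· * (C (a s) - 1)) (h3 i hi)
          simp only [e1, mul_assoc, sub_mul, mul_sub, e2, mul_one, zero_mul] at this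
          simp only [if_neg h, map_mul, map_sub, mul_sub, mul_one, mul_zero]
          rw [← sub_self (0 : P), ← this]; abel
      refine ⟨φ (q * C c1 + q' * C c2), ?_⟩
      rw [← Γ.fix hm e, ← map_mul φ, ← map_mul φ, k5, map_add C, map_mul C A, map_mul C k0, mul_add,
        ra h2, ra hq']
      simp only [mul_add, mul_assoc]
    · rw [← map_mul, mul_zero]
      by_cases h : xl i = g s
      · simp only [if_pos h]; rw [← h, h3 i hi, map_zero]
      · obtain ⟨e1, -, e2, -⟩ := hX' i hi h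
        have := congrArg (· * (-g s)) (h3 i hi)
        simp only [e1, mul_assoc, sub_mul, mul_neg, e2, zero_mul] at this
        simp only [if_neg h, map_mul C]
        rw [← map_zero φ, ← neg_zero, ← this]
        congr 1; noncomm_ring
  have hfix : ε * φ (C κ * (C n * σ)) = φ (C κ * (C n * σ)) := by
    have he : C e ∈ comap φ (pre (1 - ε) ⊥) := by
      rw [mem_comap, Γ.fix hm]; exact fix_iff.2 q1
    refine fix_iff.1 (show _ ∈ comap φ (pre (1 - ε) ⊥) from ?_)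
    rw [h4]
    refine Submodule.add_mem _ (RI.mul (by rw [← k3, map_mul]; exact RI.mul he _) _)
      (Submodule.sum_mem _ fun i hi => RI.mul ?_ _)
    have hG := fix_iff.2 (q2 i hi)
    by_cases h : xl i = g s
    · simp only [if_pos h] at hG; rw [h]; exact hG
    · obtain ⟨e1, e2, e3, e4⟩ := hX' i hi h
      have k6 := k1 i hi
      simp only [if_neg h] at hG k6
      have h5 : C (k i * (1 - a s)) ∈ comap φ (pre (1 - ε) ⊥) := by
        rw [← k6, ← k4, mul_assoc, map_mul]; exact RI.mul he _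
      have e5 : C (b s) * g' s = g' s := by rw [← e3, mul_assoc, e2, e4]
      refine RI.cast (Submodule.sub_mem _ (RI.mul (J := comap φ _) hG (-g' s)) h5) ?_
      simp only [e1, map_mul, map_sub, map_one, mul_neg, sub_mul, mul_assoc, e2, e5]
      noncomm_ring
  refine ⟨φ, s', hm, q' * C κ, ?_⟩
  rw [← mul_assoc, ← hq', mul_assoc, mul_assoc, ← Γ.fix hm κ, ← map_mul, hfix, ← map_mul, ra h1,
    one_mul]

end Z87
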