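import Pool.Agent.Lib.MP_1e63be_al.Z87.Defs

/-! Regular rings: joins, extended ideals, flatness; dual families. -/

namespace Z87
open MulOpposite

section ring
variable {R T : Type} [Ring R] [Ring T]

theorem ra {a b c : R} (h : a * b = c) (z : R) : a * (b * z) = c * z := by rw [← mul_assoc, h]

theorem RI.mul {J : RI R} {x : R} (h : x ∈ J) (r : R) : x * r ∈ J := J.smul_mem (op r) h

theorem RI.of_sub {J : RI R} {x y : R} (h : x - y ∈ J) (hy : y ∈ J) : x ∈ J := by
  have := J.add_mem h hy; simpa using this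

theorem RI.of_sub' {J : RI R} {x y : R} (h : x - y ∈ J) (hx : x ∈ J) : y ∈ J := by
  have := J.sub_mem hx h; simpa using this

theorem RI.symm {J : RI R} {x y : R} (h : x - y ∈ J) : y - x ∈ J := by
  have := J.neg_mem h; simpa using this

theorem RI.trans {J : RI R} {x y z : R} (h : x - y ∈ J) (h' : y - z ∈ J) : x - z ∈ J := by
  have := J.add_mem h h'; simpa using this

theorem RI.cast {J : RI R} {x y : R} (h : x ∈ J) (e : y = x) : y ∈ J := e ▸ h

theorem Reg.opp (hr : Reg R) : Reg Rᵐᵒᵖ := fun y => by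
  obtain ⟨z, hz⟩ := hr y.unop
  exact ⟨op z, unop_injective (by simpa [mul_assoc] using hz)⟩

theorem Reg.idem (hr : Reg R) (y : R) : ∃ c, y * c * (y * c) = y * c ∧ y * c * y = y := by
  obtain ⟨c, hc⟩ := hr y
  exact ⟨c, by rw [← mul_assoc, hc], hc⟩

theorem Reg.lidem (hr : Reg R) (y : R) : ∃ c, c * y * (c * y) = c * y ∧ y * (c * y) = y := by
  obtain ⟨c, hc⟩ := hr y
  exact ⟨c, by rw [mul_assoc, ← mul_assoc y, hc], by rw [← mul_assoc, hc]⟩

theorem join2 (hr : Reg R) (y z : R) :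
    ∃ k, k * k = k ∧ k * y = y ∧ k * z = z ∧ ∃ c d, k = y * c + z * d := by
  obtain ⟨c, -, hc⟩ := hr.idem y
  obtain ⟨u, hu⟩ := hr ((1 - y * c) * z)
  have h1 : (y * c + (1 - y * c) * z * u * (1 - y * c)) * y = y := by
    have : (1 - y * c) * y = 0 := by rw [sub_mul, hc]; simp
    rw [add_mul, hc, mul_assoc _ (1 - y * c), this]; simp
  have h2 : (y * c + (1 - y * c) * z * u * (1 - y * c)) * z = z := by
    rw [add_mul, mul_assoc _ (1 - y * c) z, hu]; noncomm_ring
  have h3 : y * c + (1 - y * c) * z * u * (1 - y * c)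
      = y * (c - c * z * u * (1 - y * c)) + z * (u * (1 - y * c)) := by noncomm_ring
  refine ⟨_, ?_, h1, h2, _, _, h3⟩
  conv_lhs => rw [h3, mul_add]; rw [← h3, ← mul_assoc, ← mul_assoc, h1, h2]
  exact h3.symm

theorem ljoin2 (hr : Reg R) (y z : R) :
    ∃ k, k * k = k ∧ y * k = y ∧ z * k = z ∧ ∃ c d, k = c * y + d * z := by
  obtain ⟨k, h1, h2, h3, c, d, h4⟩ := join2 hr.opp (op y) (op z)
  exact ⟨k.unop, by simpa using congrArg unop h1, by simpa using congrArg unop h2,
    by simpa using congrArg unop h3, c.unop, d.unop, by simpa using congrArg unop h4⟩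

theorem join (hr : Reg R) {κ : Type} (s : Finset κ) (y : κ → R) :
    ∃ k, k * k = k ∧ (∀ i ∈ s, k * y i = y i) ∧ ∀ J : RI R, (∀ i ∈ s, y i ∈ J) → k ∈ J := by
  classical
  induction s using Finset.induction_on with
  | empty => exact ⟨0, by simp, by simp, fun J _ => J.zero_mem⟩
  | insert a s ha ih =>
    obtain ⟨k, -, h2, h3⟩ := ih
    obtain ⟨k', g1, g2, g3, c, d, g4⟩ := join2 hr k (y a)
    refine ⟨k', g1, fun i hi => ?_, fun J hJ => ?_⟩
    · rcases Finset.mem_insert.1 hi with rfl | hi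
      · exact g3
      · rw [← h2 i hi, ← mul_assoc, g2]
    · rw [g4]
      exact J.add_mem (RI.mul (h3 J fun i hi => hJ i (Finset.mem_insert_of_mem hi)) _)
        (RI.mul (hJ a (Finset.mem_insert_self _ _)) _)

theorem ljoin (hr : Reg R) {κ : Type} (s : Finset κ) (y : κ → R) :
    ∃ k, k * k = k ∧ (∀ i ∈ s, y i * k = y i) ∧ ∃ c : κ → R, k = ∑ i ∈ s, c i * y i := by
  classical
  induction s using Finset.induction_on with
  | empty => exact ⟨0, by simp, by simp, fun _ => 0, by simp⟩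
  | insert a s ha ih =>
    obtain ⟨k, -, h2, c0, h3⟩ := ih
    obtain ⟨k', g1, g2, g3, c, d, g4⟩ := ljoin2 hr k (y a)
    refine ⟨k', g1, fun i hi => ?_, fun i => if i = a then d else c * c0 i, ?_⟩
    · rcases Finset.mem_insert.1 hi with rfl | hi
      · exact g3
      · rw [← h2 i hi, mul_assoc, g2]
    · rw [Finset.sum_insert ha, g4, h3, Finset.mul_sum, add_comm]
      simp only [if_true]
      congr 1
      refine Finset.sum_congr rfl fun i hi => ?_
      rw [if_neg (by rintro rfl; exact ha hi), mul_assoc]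

variable {Φ : Type} [FunLike Φ R T] [RingHomClass Φ R T]

theorem ext_of (f : R → T) {J : RI R} {j : R} (h : j ∈ J) : f j ∈ ext f J :=
  Submodule.subset_span ⟨j, h, rfl⟩

theorem ext_mul (f : R → T) {J : RI R} {j : R} (h : j ∈ J) (z : T) : f j * z ∈ ext f J :=
  RI.mul (ext_of f h) z

theorem lext_of (f : R → T) {L : Ideal R} {j : R} (h : j ∈ L) : f j ∈ lext f L :=
  Ideal.subset_span ⟨j, h, rfl⟩

theorem lext_mul (f : R → T) {L : Ideal R} {j : R} (h : j ∈ L) (z : T) : z * f j ∈ lext f L :=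
  Ideal.mul_mem_left _ z (lext_of f h)

theorem mem_ext (hr : Reg R) (f : Φ) {J : RI R} {z : T} :
    z ∈ ext f J ↔ ∃ k ∈ J, f k * z = z := by
  constructor
  · intro h
    induction h using Submodule.span_induction with
    | mem x hx =>
      obtain ⟨j, hj, rfl⟩ := hx
      obtain ⟨c, -, hc⟩ := hr.idem j
      exact ⟨j * c, RI.mul hj c, by rw [← map_mul, hc]⟩
    | zero => exact ⟨0, J.zero_mem, by simp⟩
    | add x y _ _ hx hy =>
      obtain ⟨k, hk, e⟩ := hx
      obtain ⟨k', hk', e'⟩ := hy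
      obtain ⟨m, -, h2, h3, c, d, h4⟩ := join2 hr k k'
      refine ⟨m, h4 ▸ J.add_mem (RI.mul hk _) (RI.mul hk' _), ?_⟩
      rw [mul_add, ← e, ← e', ← mul_assoc, ← mul_assoc, ← map_mul, ← map_mul, h2, h3]
    | smul a x _ hx =>
      obtain ⟨k, hk, e⟩ := hx
      refine ⟨k, hk, ?_⟩
      change f k * (x * a.unop) = x * a.unop
      rw [← mul_assoc, e]
  · rintro ⟨k, hk, e⟩
    rw [← e]; exact ext_mul f hk z

theorem mem_lext (hr : Reg R) (f : Φ) {L : Ideal R} {z : T} :
    z ∈ lext f L ↔ ∃ k ∈ L, z * f k = z := by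
  constructor
  · intro h
    induction h using Submodule.span_induction with
    | mem x hx =>
      obtain ⟨j, hj, rfl⟩ := hx
      obtain ⟨c, -, hc⟩ := hr.lidem j
      exact ⟨c * j, L.mul_mem_left c hj, by rw [← map_mul, hc]⟩
    | zero => exact ⟨0, L.zero_mem, by simp⟩
    | add x y _ _ hx hy =>
      obtain ⟨k, hk, e⟩ := hx
      obtain ⟨k', hk', e'⟩ := hy
      obtain ⟨m, -, h2, h3, c, d, h4⟩ := ljoin2 hr k k'
      refine ⟨m, h4 ▸ L.add_mem (L.mul_mem_left _ hk) (L.mul_mem_left _ hk'), ?_⟩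
      rw [add_mul, ← e, ← e', mul_assoc, mul_assoc, ← map_mul, ← map_mul, h2, h3]
    | smul a x _ hx =>
      obtain ⟨k, hk, e⟩ := hx
      refine ⟨k, hk, ?_⟩
      change a * x * f k = a * x
      rw [mul_assoc, e]
  · rintro ⟨k, hk, e⟩
    rw [← e]; exact lext_mul f hk z

theorem ext_const (hr : Reg R) (f : Φ) (hf : Function.Injective f) {J : RI R} {c : R}
    (h : f c ∈ ext f J) : c ∈ J := by
  obtain ⟨k, hk, e⟩ := (mem_ext hr f).1 h
  rw [← map_mul] at e
  rw [← hf e]; exact RI.mul hk c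

theorem lext_const (hr : Reg R) (f : Φ) (hf : Function.Injective f) {L : Ideal R} {c : R}
    (h : f c ∈ lext f L) : c ∈ L := by
  obtain ⟨k, hk, e⟩ := (mem_lext hr f).1 h
  rw [← map_mul] at e
  rw [← hf e]; exact L.mul_mem_left c hk

theorem flat (hr : Reg R) (f : Φ) {J J' : RI R} {c d : R} (h : ∀ z, c * z ∈ J → d * z ∈ J')
    {z : T} (hz : f c * z ∈ ext f J) : f d * z ∈ ext f J' := by
  obtain ⟨k, hk, e⟩ := (mem_ext hr f).1 hz
  obtain ⟨u, -, hu⟩ := hr.lidem ((1 - k) * c)
  have h1 : c * (1 - u * ((1 - k) * c)) ∈ J := by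
    have : c * (1 - u * ((1 - k) * c)) = k * (c * (1 - u * ((1 - k) * c))) := by
      have h0 : (1 - k) * c * (1 - u * ((1 - k) * c)) = 0 := by rw [mul_sub, hu]; simp
      have : c * (1 - u * ((1 - k) * c)) - k * (c * (1 - u * ((1 - k) * c)))
        = (1 - k) * c * (1 - u * ((1 - k) * c)) := by noncomm_ring
      rw [h0] at this; exact sub_eq_zero.1 this
    rw [this]; exact RI.mul hk _
  have h2 : f (1 - u * ((1 - k) * c)) * z = z := by
    have : f ((1 - k) * c) * z = 0 := by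
      rw [map_mul, map_sub, map_one, mul_assoc, sub_mul, one_mul, e, sub_self]
    rw [map_sub, map_one, map_mul, sub_mul, mul_assoc, this]; simp
  rw [← h2, ← mul_assoc, ← map_mul]
  exact ext_mul f (h _ h1) z

theorem Idz.ext (hr : Reg R) (f : Φ) {J : RI R} {r : R} (h : Idz J r) {z : T}
    (hz : z ∈ ext f J) : f r * z ∈ ext f J :=
  flat hr f (c := 1) (fun z hz => h z (by simpa using hz)) (by simpa using hz)

/-- homs over `R` preserve extended ideals -/
theorem ext_map {T' : Type} [Ring T'] {Ψ : Type} [FunLike Ψ T T'] [RingHomClass Ψ T T']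
    (f : R → T) (f' : R → T') (φ : Ψ) (h : ∀ c, φ (f c) = f' c) {J : RI R} {z : T}
    (hz : z ∈ ext f J) : φ z ∈ ext f' J := by
  induction hz using Submodule.span_induction with
  | mem x hx => obtain ⟨j, hj, rfl⟩ := hx; rw [h]; exact ext_of f' hj
  | zero => rw [map_zero]; exact Submodule.zero_mem _
  | add x y _ _ hx hy => rw [map_add]; exact Submodule.add_mem _ hx hy
  | smul a x _ hx =>
    change φ (x * a.unop) ∈ _
    rw [map_mul]; exact RI.mul hx _

theorem lext_map {T' : Type} [Ring T'] {Ψ : Type} [FunLike Ψ T T'] [RingHomClass Ψ T T']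
    (f : R → T) (f' : R → T') (φ : Ψ) (h : ∀ c, φ (f c) = f' c) {L : Ideal R} {z : T}
    (hz : z ∈ lext f L) : φ z ∈ lext f' L := by
  induction hz using Submodule.span_induction with
  | mem x hx => obtain ⟨j, hj, rfl⟩ := hx; rw [h]; exact lext_of f' hj
  | zero => rw [map_zero]; exact Submodule.zero_mem _
  | add x y _ _ hx hy => rw [map_add]; exact Submodule.add_mem _ hx hy
  | smul a x _ hx =>
    change φ (a * x) ∈ _
    rw [map_mul]; exact Ideal.mul_mem_left _ _ hx

theorem ext_id {J : RI R} {z : R} (hz : z ∈ ext (fun x : R => x) J) : z ∈ J := by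
  unfold ext at hz
  simpa using hz

theorem lext_id {L : Ideal R} {z : R} (hz : z ∈ lext (fun x : R => x) L) : z ∈ L := by
  unfold lext at hz
  simpa using hz

/-- `{u | c u ∈ K}` -/
def pre (c : R) (K : RI R) : RI R where
  carrier := {u | c * u ∈ K}
  add_mem' := fun {a b} ha hb => by
    change c * (a + b) ∈ K; rw [mul_add]; exact K.add_mem ha hb
  zero_mem' := by change c * 0 ∈ K; rw [mul_zero]; exact K.zero_mem
  smul_mem' := fun a x hx => by
    change c * (x * a.unop) ∈ K; rw [← mul_assoc]; exact RI.mul hx _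

@[simp] theorem mem_pre {c u : R} {K : RI R} : u ∈ pre c K ↔ c * u ∈ K := Iff.rfl

/-- essential right ideal -/
def Essn (K : RI R) : Prop := ∀ v : R, v ≠ 0 → ∃ c, v * c ≠ 0 ∧ v * c ∈ K

theorem Essn.top : Essn (⊤ : RI R) := fun v hv => ⟨1, by simpa using hv, trivial⟩

theorem Essn.inf {K K' : RI R} (h : Essn K) (h' : Essn K') : Essn (K ⊓ K') := fun v hv => by
  obtain ⟨c, h1, h2⟩ := h v hv
  obtain ⟨d, h3, h4⟩ := h' _ h1
  exact ⟨c * d, by rwa [← mul_assoc], by rw [← mul_assoc]; exact ⟨RI.mul h2 d, h4⟩⟩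

theorem Essn.pre {K : RI R} (h : Essn K) (c : R) : Essn (pre c K) := fun v hv => by
  by_cases h0 : c * v = 0
  · exact ⟨1, by simpa using hv, by simp [h0]⟩
  · obtain ⟨d, h1, h2⟩ := h _ h0
    refine ⟨d, fun e => h1 (by rw [mul_assoc, e, mul_zero]), ?_⟩
    rwa [mem_pre, ← mul_assoc]

theorem Essn.all {κ : Type} (s : Finset κ) (K : κ → RI R) (h : ∀ i ∈ s, Essn (K i)) :
    ∃ K0 : RI R, Essn K0 ∧ ∀ u, u ∈ K0 ↔ ∀ i ∈ s, u ∈ K i := by
  classical
  induction s using Finset.induction_on with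
  | empty => exact ⟨⊤, Essn.top, by simp⟩
  | insert a s ha ih =>
    obtain ⟨K0, h1, h2⟩ := ih fun i hi => h i (Finset.mem_insert_of_mem hi)
    refine ⟨K a ⊓ K0, (h a (Finset.mem_insert_self _ _)).inf h1, fun u => ?_⟩
    simp [h2]

theorem MaxR.unif {J : RI R} (h : MaxR J) : Unif J := by
  refine ⟨h.1, fun a ha b hb => ?_⟩
  obtain ⟨c, hc⟩ := h.2 a ha
  obtain ⟨d, hd⟩ := h.2 b hb
  exact ⟨c, d, RI.trans hc (RI.symm hd), fun e => h.1 (RI.of_sub' hc e)⟩

/-- `W a * y b = δ` on `s` -/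
def DualOn {κ : Type} (s : Finset κ) (W y : κ → R) : Prop :=
  (∀ a ∈ s, W a * y a = 1) ∧ ∀ a ∈ s, ∀ b ∈ s, a ≠ b → W a * y b = 0

section dual
variable {κ : Type} {s : Finset κ} {W y : κ → R}

theorem DualOn.mul_sum (h : DualOn s W y) (c : κ → R) {a : κ} (ha : a ∈ s) :
    W a * ∑ b ∈ s, y b * c b = c a := by
  rw [Finset.mul_sum, Finset.sum_eq_single a]
  · rw [← mul_assoc, h.1 a ha, one_mul]
  · intro b hb hba; rw [← mul_assoc, h.2 a ha b hb (Ne.symm hba), zero_mul]
  · intro h'; exact absurd ha h'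

theorem DualOn.sum_mul (h : DualOn s W y) (c : κ → R) {a : κ} (ha : a ∈ s) :
    (∑ b ∈ s, c b * W b) * y a = c a := by
  rw [Finset.sum_mul, Finset.sum_eq_single a]
  · rw [mul_assoc, h.1 a ha, mul_one]
  · intro b hb hba; rw [mul_assoc, h.2 b hb a ha hba, mul_zero]
  · intro h'; exact absurd ha h'

theorem DualOn.mono (h : DualOn s W y) {s' : Finset κ} (hs : s' ⊆ s) : DualOn s' W y :=
  ⟨fun a ha => h.1 a (hs ha), fun a ha b hb => h.2 a (hs ha) b (hs hb)⟩

theorem DualOn.map (h : DualOn s W y) (f : Φ) :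
    DualOn s (fun a => f (W a)) (fun a => f (y a)) :=
  ⟨fun a ha => by rw [← map_mul, h.1 a ha, map_one],
    fun a ha b hb hab => by rw [← map_mul, h.2 a ha b hb hab, map_zero]⟩

theorem DualOn.congr (h : DualOn s W y) {W' y' : κ → R}
    (e : ∀ a ∈ s, ∀ b ∈ s, W' a * y' b = W a * y b) : DualOn s W' y' :=
  ⟨fun a ha => by rw [e a ha a ha, h.1 a ha],
    fun a ha b hb hab => by rw [e a ha b hb, h.2 a ha b hb hab]⟩

/-- shrinking a free family -/
theorem DualOn.shrink (h : DualOn s W y) {t t' : R} (ht : t' * t = 1) :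
    DualOn s (fun a => t' * W a) (fun a => y a * t) :=
  ⟨fun a ha => by rw [mul_assoc, ← mul_assoc (W a), h.1 a ha, one_mul, ht],
    fun a ha b hb hab => by
      rw [mul_assoc, ← mul_assoc (W a), h.2 a ha b hb hab, zero_mul, mul_zero]⟩

theorem DualOn.insert [DecidableEq κ] (h : DualOn s W y) {a : κ} (ha : a ∉ s) {W0 : R}
    (h1 : W0 * y a = 1) (h0 : ∀ b ∈ s, W0 * y b = 0) :
    ∃ W', DualOn (insert a s) W' y := by
  refine ⟨fun b => if b = a then W0 else W b - W b * y a * W0, fun b hb => ?_,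
    fun b hb c hc hbc => ?_⟩
  · rcases Finset.mem_insert.1 hb with rfl | hb'
    · simpa using h1
    · have : b ≠ a := fun e => ha (e ▸ hb')
      simp only [if_neg this]
      rw [sub_mul, h.1 b hb', mul_assoc, h0 b hb']; simp
  · rcases Finset.mem_insert.1 hb with rfl | hb'
    · rcases Finset.mem_insert.1 hc with rfl | hc'
      · exact absurd rfl hbc
      · simpa using h0 c hc'
    · have : b ≠ a := fun e => ha (e ▸ hb')
      simp only [if_neg this]
      rcases Finset.mem_insert.1 hc with rfl | hc'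
      · rw [sub_mul, mul_assoc, h1]; simp
      · rw [sub_mul, h.2 b hb' c hc' hbc, mul_assoc, h0 c hc']; simp

end dual
end ring
end Z87
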