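import Mathlib

/-! Part A of the consistent counterexample: definitions and the two statements used by the frame. -/

namespace Z87

/-- right ideals -/
abbrev RI (R : Type) [Ring R] := Submodule Rᵐᵒᵖ R

/-- von Neumann regular -/
def Reg (R : Type) [Ring R] : Prop := ∀ y : R, ∃ z, y * z * y = y

structure Good (F R : Type) [Field F] [Ring R] [Algebra F R] : Prop where
  nt : (1 : R) ≠ 0
  reg : Reg R
  pi : ∀ y : R, y ≠ 0 → ∃ s t, s * y * t = 1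
  lea : ∃ i0 i1 j0 j1 : R, j0 * i0 = 1 ∧ j1 * i1 = 1 ∧ j0 * i1 = 0 ∧ j1 * i0 = 0 ∧
    i0 * j0 + i1 * j1 = 1
  cen : ∀ c : R, (∀ y, c * y = y * c) → ∃ l : F, c = algebraMap F R l

section
variable {R T : Type} [Ring R] [Ring T]

/-- the right ideal `J T` -/
def ext (f : R → T) (J : RI R) : RI T := Submodule.span Tᵐᵒᵖ (f '' J)

/-- the left ideal `T L` -/
def lext (f : R → T) (L : Ideal R) : Ideal T := Ideal.span (f '' L)

/-- `R/J` is simple -/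
def MaxR (J : RI R) : Prop := (1 : R) ∉ J ∧ ∀ x, x ∉ J → ∃ c, x * c - 1 ∈ J

/-- `R/L` is simple (left) -/
def MaxL (L : Ideal R) : Prop := (1 : R) ∉ L ∧ ∀ x, x ∉ L → ∃ c, c * x - 1 ∈ L

/-- `r` induces an endomorphism of `R/J` -/
def Idz (J : RI R) (r : R) : Prop := ∀ j ∈ J, r * j ∈ J

/-- every endomorphism of `R/J` is a scalar -/
def EndF (F : Type) [Field F] [Algebra F R] (J : RI R) : Prop :=
  ∀ r, Idz J r → ∃ l : F, r - algebraMap F R l ∈ J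

def SimpleF (F : Type) [Field F] [Algebra F R] (J : RI R) : Prop := MaxR J ∧ EndF F J

/-- no nonzero element of `R/Q` generates a uniform module -/
def NU (Q : RI R) : Prop := ∀ x, x ∉ Q → ∃ c1 c2, x * c1 ∉ Q ∧ x * c2 ∉ Q ∧
  ∀ d1 d2, x * c1 * d1 - x * c2 * d2 ∈ Q → x * c1 * d1 ∈ Q

/-- `R/J` is nonzero and uniform -/
def Unif (J : RI R) : Prop :=
  (1 : R) ∉ J ∧ ∀ a, a ∉ J → ∀ b, b ∉ J → ∃ r s, a * r - b * s ∈ J ∧ a * r ∉ J

/-- `R/J` has zero socle -/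
def SocFree (J : RI R) : Prop := ∀ a, a ∉ J → ∃ r, a * r ∉ J ∧ ∀ s, a - a * r * s ∉ J

/-- every nonzero element of `T/QT` has a nonzero multiple in `R/Q` -/
def EssExt (f : R → T) (Q : RI R) : Prop :=
  ∀ x, x ∈ ext f Q ∨ ∃ r c, c ∉ Q ∧ x * r - f c ∈ ext f Q

def LEssExt (f : R → T) (L : Ideal R) : Prop :=
  ∀ x, x ∈ lext f L ∨ ∃ r c, c ∉ L ∧ r * x - f c ∈ lext f L

/-- the seal -/
def KeptS (f : R → T) (J : RI R) : Prop :=
  ∀ x, x ∉ ext f J → ∃ a b r1 r2 : R, Idz J r1 ∧ Idz J r2 ∧ (∀ s, b - a * s ∉ J) ∧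
    ∃ y1 y2 y3, f b - (f r1 * x * y1 + f r2 * x * y2 + f a * y3) ∈ ext f J

/-- `T/IT` and `T/JT` are isomorphic through left multiplication by `X`, `X'` -/
def IsoIJ (f : R → T) (I J : RI R) : Prop :=
  ∃ X X' : T, (∀ i ∈ I, X * f i ∈ ext f J) ∧ (∀ j ∈ J, X' * f j ∈ ext f I) ∧
    X * X' - 1 ∈ ext f J ∧ X' * X - 1 ∈ ext f I

end

/-- the common part of the conclusion of a step -/
structure Extn (F : Type) [Field F] {R T : Type} [Ring R] [Ring T] [Algebra F R] [Algebra F T]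
    (f : R →ₐ[F] T) (I : RI R) (QQ : Set (RI R)) (LL : Set (Ideal R)) : Prop where
  inj : Function.Injective f
  good : Good F T
  simple : SimpleF F (ext f I)
  ess : ∀ Q ∈ QQ, EssExt f Q
  nu : ∀ Q ∈ QQ, NU (ext f Q)
  less : ∀ L ∈ LL, LEssExt f L

def St_STEP (F : Type) [Field F] : Prop :=
  ∀ (R : Type) [Ring R] [Algebra F R] [Countable R], Good F R →
    ∀ I : RI R, SimpleF F I → ∀ QQ : Set (RI R), QQ.Countable → (∀ Q ∈ QQ, NU Q) →
    ∀ LL : Set (Ideal R), LL.Countable → ∀ J : RI R, (MaxR J ∨ (Unif J ∧ SocFree J)) →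
    ∃ (T : Type) (_ : Ring T) (_ : Algebra F T) (_ : Countable T) (f : R →ₐ[F] T),
      Extn F f I QQ LL ∧ (IsoIJ f I J ∨ (KeptS f J ∧ NU (ext f J)))

def St_STEP0 (F : Type) [Field F] : Prop :=
  ∃ (R : Type) (_ : Ring R) (_ : Algebra F R) (_ : Countable R), Good F R ∧
    ∃ I : RI R, SimpleF F I ∧ ∃ L1 L2 : Ideal R, MaxL L1 ∧ MaxL L2 ∧
      ∀ c, (∀ y ∈ L2, y * c ∈ L1) → c ∈ L1

end Z87
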