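import Pool.Agent.Lib.MP_1e63be_al.Z87.Basic

/-! Smallness and independence lemmas in a good ring. -/

namespace Z87
open MulOpposite

variable {F R : Type} [Field F] [Ring R] [Algebra F R]

theorem Good.opp (G : Good F R) : Good F Rᵐᵒᵖ where
  nt := fun h => G.nt (by simpa using congrArg unop h)
  reg := G.reg.opp
  pi := fun y hy => by
    obtain ⟨s, t, h⟩ := G.pi y.unop (by simpa using hy)
    exact ⟨op t, op s, unop_injective (by simpa [mul_assoc] using h)⟩
  lea := by
    obtain ⟨i0, i1, j0, j1, h1, h2, h3, h4, h5⟩ := G.lea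
    refine ⟨op j0, op j1, op i0, op i1, ?_, ?_, ?_, ?_, ?_⟩ <;> apply unop_injective <;> simpa
  cen := fun c hc => by
    obtain ⟨l, hl⟩ := G.cen c.unop fun y => by simpa using (congrArg unop (hc (op y))).symm
    exact ⟨l, unop_injective (by simpa using hl)⟩

/-- infinite family -/
structure Fam (R : Type) [Ring R] where
  i : ℕ → R
  j : ℕ → R
  h : ∀ a b, j a * i b = if a = b then 1 else 0

theorem Good.famN (G : Good F R) : Nonempty (Fam R) := by
  obtain ⟨i0, i1, j0, j1, h1, h2, h3, h4, -⟩ := G.lea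
  refine ⟨⟨fun n => i1 ^ n * i0, fun n => j0 * j1 ^ n, fun a => ?_⟩⟩
  induction a with
  | zero =>
    intro b
    cases b with
    | zero => simpa using h1
    | succ b => simp [pow_succ', mul_assoc, ra h3]
  | succ a ih =>
    intro b
    cases b with
    | zero => simp [pow_succ, mul_assoc, h4]
    | succ b =>
      have := ih b
      simp only [pow_succ' i1, pow_succ j1, mul_assoc, ra h2, one_mul, Nat.add_right_cancel_iff]
      simpa only [mul_assoc] using this

theorem Good.fam (G : Good F R) {κ : Type} (s : Finset κ) : ∃ i j : κ → R, DualOn s j i := by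
  classical
  obtain ⟨ι⟩ := G.famN
  refine ⟨fun a => if h : a ∈ s then ι.i (s.equivFin ⟨a, h⟩) else 0,
    fun a => if h : a ∈ s then ι.j (s.equivFin ⟨a, h⟩) else 0, fun a ha => ?_,
    fun a ha b hb hab => ?_⟩
  · simp [ha, ι.h]
  · simp only [ha, hb, dif_pos, ι.h]
    rw [if_neg]
    intro e
    exact hab (by simpa using s.equivFin.injective (Fin.ext e))

theorem Good.li (G : Good F R) {V : RI R} {v c : R} (h : v * c ∉ V) :
    ∃ d d', d' * (c * d) = 1 ∧ v * (c * d) ∉ V := by
  have hc : c ≠ 0 := by rintro rfl; exact h (by simp)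
  obtain ⟨s, t, hst⟩ := G.pi c hc
  rw [mul_assoc] at hst
  by_cases h0 : v * (c * t) ∈ V
  · refine ⟨t + (1 - t * s * c), s, ?_, fun h1 => h ?_⟩
    · have : s * (c * (t + (1 - t * s * c))) = s * (c * t) + s * c - s * (c * t) * s * c := by
        noncomm_ring
      rw [this, hst]; noncomm_ring
    · have : v * c = v * (c * (t + (1 - t * s * c))) - v * (c * t) * (1 - s * c) := by
        noncomm_ring
      rw [this]; exact V.sub_mem h1 (RI.mul h0 _)
  · exact ⟨t, s, hst, h0⟩

theorem Good.lil (G : Good F R) {L : Ideal R} {n t : R} (h : t * n ∉ L) :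
    ∃ d d', d * t * d' = 1 ∧ d * t * n ∉ L := by
  have hc : t ≠ 0 := by rintro rfl; exact h (by simp)
  obtain ⟨s, u, hst⟩ := G.pi t hc
  by_cases h0 : s * t * n ∈ L
  · refine ⟨s + (1 - t * u * s), u, ?_, fun h1 => h ?_⟩
    · have : (s + (1 - t * u * s)) * t * u = s * t * u + t * u - t * u * (s * t * u) := by
        noncomm_ring
      rw [this, hst]; noncomm_ring
    · have : t * n = (s + (1 - t * u * s)) * t * n - (1 - t * u) * (s * t * n) := by
        noncomm_ring
      rw [this]; exact L.sub_mem h1 (L.mul_mem_left _ h0)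
  · exact ⟨s, u, hst, h0⟩

theorem Good.sub (G : Good F R) {f : R} (hf : f * f = f) (hc : f ≠ 0) :
    ∃ q q', q' * q = 1 ∧ f * q = q ∧ q' * f = q' := by
  obtain ⟨s, t, hst⟩ := G.pi f hc
  exact ⟨f * t, s * f, by rw [mul_assoc, ra hf, ← mul_assoc, hst], by rw [ra hf],
    by rw [mul_assoc, hf]⟩

theorem Good.split (G : Good F R) {V : RI R} {v f : R} (hf : f * f = f) (h : v * f ∉ V) :
    ∃ u1 u2 k, f * u1 = u1 ∧ f * u2 = u2 ∧ k * u1 = 0 ∧ k * u2 = 1 ∧ v * u1 ∉ V ∧ v * u2 ∉ V := by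
  obtain ⟨i0, i1, j0, j1, h1, h2, h3, h4, -⟩ := G.lea
  have hc : f ≠ 0 := by rintro rfl; exact h (by simp)
  obtain ⟨q, q', hq, e1, e2⟩ := G.sub hf hc
  have key : ∀ u1 w k, f * u1 = u1 → f * w = w → k * u1 = 0 → k * w = 1 → v * u1 ∉ V →
      ∃ u1 u2 k, f * u1 = u1 ∧ f * u2 = u2 ∧ k * u1 = 0 ∧ k * u2 = 1 ∧ v * u1 ∉ V ∧
        v * u2 ∉ V := by
    intro u1 w k e1 e2 e3 e4 e5
    by_cases h0 : v * w ∈ V
    · refine ⟨u1, w + u1, k, e1, by rw [mul_add, e1, e2], e3, by rw [mul_add, e3, e4, add_zero],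
        e5, fun h5 => e5 ?_⟩
      have : v * u1 = v * (w + u1) - v * w := by noncomm_ring
      rw [this]; exact V.sub_mem h5 h0
    · exact ⟨u1, w, k, e1, e2, e3, e4, e5, h0⟩
  by_cases h0 : v * (q * i0 * j0 * q') ∈ V
  · refine key (f - q * i0 * j0 * q') (q * i0) (j0 * q') ?_ ?_ ?_ ?_ fun h5 => h ?_
    · simp only [mul_sub, mul_assoc, ra e1, hf]
    · simp only [ra e1]
    · simp only [mul_sub, mul_assoc, e2, ra hq, ra h1, one_mul, sub_self]
    · simp only [mul_assoc, ra hq, h1, one_mul]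
    · have : v * f = v * (f - q * i0 * j0 * q') + v * (q * i0 * j0 * q') := by noncomm_ring
      rw [this]; exact V.add_mem h5 h0
  · refine key (q * i0 * j0 * q') (q * i1) (j1 * q') ?_ ?_ ?_ ?_ h0
    · simp only [mul_assoc, ra e1]
    · simp only [ra e1]
    · simp only [mul_assoc, ra hq, ra h4, one_mul, zero_mul]
    · simp only [mul_assoc, ra hq, h2, one_mul]

theorem Good.sm (G : Good F R) {V : RI R} {L : Ideal R} {v n : R} (hv : v ∉ V) (hn : n ∉ L)
    (y : R) : ∃ t u, t * y * u = 0 ∧ v * u ∉ V ∧ t * n ∉ L := by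
  obtain ⟨y', hf, hy⟩ := G.reg.lidem y
  by_cases h0 : v * (1 - y' * y) ∈ V
  · have h1 : v * (y' * y) ∉ V := fun h1 => hv (by
      have : v = v * (1 - y' * y) + v * (y' * y) := by noncomm_ring
      rw [this]; exact V.add_mem h0 h1)
    obtain ⟨u1, u2, k, e1, e2, e3, e4, e5, e6⟩ := G.split hf h1
    rw [mul_assoc] at e1 e2
    by_cases h2 : y * u2 * k * y' * n ∈ L
    · refine ⟨1 - y * u2 * k * y', u2, ?_, e6, fun h3 => hn ?_⟩
      · simp only [sub_mul, one_mul, mul_assoc, e2, e4, mul_one, sub_self]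
      · have : n = (1 - y * u2 * k * y') * n + y * u2 * k * y' * n := by noncomm_ring
        rw [this]; exact L.add_mem h3 h2
    · exact ⟨y * u2 * k * y', u1, by simp only [mul_assoc, e1, e3, mul_zero], e5, h2⟩
  · refine ⟨1, 1 - y' * y, ?_, h0, by simpa using hn⟩
    rw [one_mul, mul_sub, hy, mul_one, sub_self]

theorem Good.smf (G : Good F R) {V : RI R} {L : Ideal R} {v n : R} (hv : v ∉ V) (hn : n ∉ L)
    {κ : Type} (s : Finset κ) (Y : κ → R) :
    ∃ t u, (∀ a ∈ s, t * Y a * u = 0) ∧ v * u ∉ V ∧ t * n ∉ L := by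
  classical
  induction s using Finset.induction_on with
  | empty => exact ⟨1, 1, by simp, by simpa, by simpa⟩
  | insert a s ha ih =>
    obtain ⟨t, u, h1, h2, h3⟩ := ih
    obtain ⟨t', u', g1, g2, g3⟩ := G.sm h2 h3 (t * Y a * u)
    refine ⟨t' * t, u * u', fun b hb => ?_, by rwa [← mul_assoc], by rwa [mul_assoc]⟩
    rcases Finset.mem_insert.1 hb with rfl | hb
    · simpa only [mul_assoc] using g1
    · have : t' * t * Y b * (u * u') = t' * (t * Y b * u) * u' := by noncomm_ring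
      rw [this, h1 b hb]; simp

theorem Good.shl (G : Good F R) {V : RI R} {L : Ideal R} {v n : R} (hv : v ∉ V) (hn : n ∉ L)
    {κ : Type} (s : Finset κ) (Y : κ → R) :
    ∃ t t1 w, t * t1 = 1 ∧ t * n ∉ L ∧ (∀ a ∈ s, t * Y a * (v * w) = 0) ∧ v * w ∉ V := by
  obtain ⟨t, u, h1, h2, h3⟩ := G.smf hv hn s fun a => Y a * v
  obtain ⟨d, d', g1, g2⟩ := G.lil h3
  refine ⟨d * t, d', u, g1, g2, fun a ha => ?_, h2⟩
  have : d * t * Y a * (v * u) = d * (t * (Y a * v) * u) := by noncomm_ring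
  rw [this, h1 a ha, mul_zero]

theorem Good.sc (G : Good F R) {c : R} (hc : ∀ l : F, c ≠ algebraMap F R l) :
    ∃ t t', t' * t = 1 ∧ ∀ z, c * t ≠ t * z := by
  by_cases h : ∃ e, e * e = e ∧ (1 - e) * c * e ≠ 0
  · obtain ⟨e, he, h⟩ := h
    obtain ⟨s, t, hst⟩ := G.pi _ h
    refine ⟨e * t, s * (1 - e) * c, by simpa only [mul_assoc] using hst, fun z hz => G.nt ?_⟩
    rw [← hst]
    have : s * ((1 - e) * c * e) * t = s * (1 - e) * (c * (e * t)) := by noncomm_ring
    rw [this, hz]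
    simp only [mul_assoc, sub_mul, one_mul, ra he, sub_self, mul_zero]
  · exfalso
    push Not at h
    have com : ∀ e, e * e = e → c * e = e * c := fun e he => by
      have h1 := h e he
      have h2 := h (1 - e) (by simp only [mul_sub, sub_mul, one_mul, mul_one, he]; simp)
      have : c * e - e * c = (1 - e) * c * e - (1 - (1 - e)) * c * (1 - e) := by noncomm_ring
      rw [h1, h2, sub_self] at this; exact sub_eq_zero.1 this
    obtain ⟨i0, i1, j0, j1, h1, h2, h3, h4, h5⟩ := G.lea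
    have e0 := com (i0 * j0) (by simp only [mul_assoc, ra h1, one_mul])
    have e1 := com (i1 * j1) (by simp only [mul_assoc, ra h2, one_mul])
    have ez : ∀ z, c * (i0 * z * j1) = i0 * z * j1 * c := fun z => by
      have := com (i0 * j0 + i0 * z * j1) (by
        simp only [mul_add, add_mul, mul_assoc, ra h1, ra h4, one_mul, zero_mul, mul_zero,
          add_zero])
      rw [mul_add, add_mul, e0] at this; exact add_left_cancel this
    have a0 : c * i0 = i0 * (j0 * c * i0) := by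
      have := congrArg (· * i0) e0
      simpa only [mul_assoc, h1, mul_one] using this
    have a1 : c * i1 = i1 * (j1 * c * i1) := by
      have := congrArg (· * i1) e1
      simpa only [mul_assoc, h2, mul_one] using this
    have az : ∀ z, j0 * c * i0 * z = z * (j1 * c * i1) := fun z => by
      have := congrArg (fun w => j0 * w * i1) (ez z)
      simpa only [mul_assoc, h2, mul_one, ra h1, one_mul] using this
    have a2 : j0 * c * i0 = j1 * c * i1 := by simpa using az 1
    obtain ⟨l, hl⟩ := G.cen (j0 * c * i0) fun z => by rw [az z, a2]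
    apply hc l
    calc c = c * (i0 * j0 + i1 * j1) := by rw [h5, mul_one]
      _ = c * i0 * j0 + c * i1 * j1 := by noncomm_ring
      _ = algebraMap F R l * (i0 * j0 + i1 * j1) := by
        rw [a0, a1, ← a2, hl, ← Algebra.commutes, ← Algebra.commutes]; noncomm_ring
      _ = _ := by rw [h5, mul_one]

def Ind (F : Type) [Field F] [Algebra F R] {κ : Type} (s : Finset κ) (r : κ → R) : Prop :=
  ∀ c : κ → F, ∑ a ∈ s, c a • r a = 0 → ∀ a ∈ s, c a = 0

theorem Ind.mono {κ : Type} {s s' : Finset κ} {r : κ → R} (h : Ind F s r) (hs : s' ⊆ s) :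
    Ind F s' r := by
  classical
  intro c hc a ha
  have := h (fun b => if b ∈ s' then c b else 0) (by
    rw [← hc, ← Finset.sum_subset hs]
    · exact Finset.sum_congr rfl fun b hb => by rw [if_pos hb]
    · intro b _ hb; rw [if_neg hb, zero_smul]) a (hs ha)
  simpa [ha] using this

theorem Ind.congr {κ : Type} {s : Finset κ} {r r' : κ → R} (h : Ind F s r)
    (e : ∀ a ∈ s, r' a = r a) : Ind F s r' := fun c hc =>
  h c (by rw [← hc]; exact Finset.sum_congr rfl fun a ha => by rw [e a ha])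

theorem Ind.of_mul {κ : Type} {s : Finset κ} {r : κ → R} (x y : R)
    (h : Ind F s fun a => x * r a * y) : Ind F s r := fun c hc => h c (by
  have := congrArg (fun w => x * w * y) hc
  simpa [Finset.mul_sum, Finset.sum_mul] using this)

theorem DualOn.ind (G : Good F R) {κ : Type} {s : Finset κ} {W y : κ → R} (h : DualOn s W y) :
    Ind F s y := fun c hc a ha => by
  have h1 := h.mul_sum (fun b => algebraMap F R (c b)) ha
  have h2 : ∑ b ∈ s, y b * algebraMap F R (c b) = 0 := by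
    rw [← hc]; exact Finset.sum_congr rfl fun b _ => by rw [Algebra.smul_def, Algebra.commutes]
  rw [h2, mul_zero] at h1
  by_contra hne
  apply G.nt
  have := congrArg (fun w => algebraMap F R (c a)⁻¹ * w) h1
  simpa [← map_mul, inv_mul_cancel₀ hne] using this.symm

theorem Ind.sumR {κ κ' : Type} {s : Finset κ} {s' : Finset κ'} {r : κ → R} {r' : κ' → R}
    (h : Ind F s r) (h' : Ind F s' r') {i0 i1 j0 j1 : R} (h00 : j0 * i0 = 1) (h11 : j1 * i1 = 1)
    (h01 : j0 * i1 = 0) (h10 : j1 * i0 = 0) :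
    Ind F (s.disjSum s') (Sum.elim (fun a => r a * j0) (fun a => r' a * j1)) := by
  intro c hc
  rw [Finset.sum_disjSum] at hc
  have e0 := congrArg (· * i0) hc
  have e1 := congrArg (· * i1) hc
  simp [add_mul, Finset.sum_mul, mul_assoc, h00, h11, h01, h10] at e0 e1
  rintro (a | a) ha
  · exact h _ e0 a (by simpa using ha)
  · exact h' _ e1 a (by simpa using ha)

theorem Ind.sumL {κ κ' : Type} {s : Finset κ} {s' : Finset κ'} {r : κ → R} {r' : κ' → R}
    (h : Ind F s r) (h' : Ind F s' r') {i0 i1 j0 j1 : R} (h00 : j0 * i0 = 1) (h11 : j1 * i1 = 1)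
    (h01 : j0 * i1 = 0) (h10 : j1 * i0 = 0) :
    Ind F (s.disjSum s') (Sum.elim (fun a => i0 * r a) (fun a => i1 * r' a)) := by
  intro c hc
  rw [Finset.sum_disjSum] at hc
  have e0 := congrArg (j0 * ·) hc
  have e1 := congrArg (j1 * ·) hc
  simp [mul_add, Finset.mul_sum, ra h00, ra h11, ra h01, ra h10] at e0 e1
  rintro (a | a) ha
  · exact h _ e0 a (by simpa using ha)
  · exact h' _ e1 a (by simpa using ha)

theorem Ind.insert_ne {κ : Type} [DecidableEq κ] {s : Finset κ} {r : κ → R} {a : κ} (ha : a ∉ s)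
    (h : Ind F (insert a s) r) (l : κ → F) : r a - ∑ b ∈ s, l b • r b ≠ 0 := fun e => by
  have := h (fun b => if b = a then 1 else -l b) (by
    rw [Finset.sum_insert ha, ← e, sub_eq_add_neg, ← Finset.sum_neg_distrib]
    simp only [if_true, one_smul]
    congr 1
    exact Finset.sum_congr rfl fun b hb => by
      rw [if_neg (fun e : b = a => ha (e ▸ hb)), neg_smul]) a (Finset.mem_insert_self _ _)
  simp at this

theorem DualOn.shrink' {κ : Type} {s : Finset κ} {W r : κ → R} {u t t' : R}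
    (h : DualOn s W fun a => r a * u) (ht : t' * t = 1) :
    DualOn s (fun a => t' * W a) (fun a => r a * (u * t)) :=
  (h.shrink ht).congr fun _ _ _ _ => by simp only [mul_assoc]

theorem Good.ind (G : Good F R) {κ : Type} {s : Finset κ} {r : κ → R} (hr : Ind F s r) :
    ∃ u W, DualOn s W (fun a => r a * u) := by
  classical
  induction s using Finset.induction_on with
  | empty => exact ⟨1, fun _ => 0, by simp [DualOn]⟩
  | insert a s ha ih =>
    have caseA : ∀ u W, DualOn s W (fun b => r b * u) →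
        r a * u ≠ ∑ b ∈ s, r b * u * (W b * (r a * u)) →
        ∃ u W, DualOn (insert a s) W (fun a => r a * u) := by
      intro u W hW hne
      obtain ⟨x, t, hxt⟩ := G.pi _ (sub_ne_zero.2 hne)
      have e : x * (1 - ∑ b ∈ s, r b * u * W b) * (r a * (u * t)) = 1 := by
        refine Eq.trans ?_ hxt
        simp only [mul_assoc, sub_mul, one_mul, Finset.sum_mul]
      have hW' := hW.shrink' (t := t) (t' := x * (1 - ∑ b ∈ s, r b * u * W b) * (r a * u))
        (by refine Eq.trans ?_ e; simp only [mul_assoc])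
      refine ⟨u * t, DualOn.insert hW' ha e fun b hb => ?_⟩
      rw [← mul_assoc (r b), ← mul_assoc, mul_assoc x, sub_mul, hW.sum_mul _ hb]; simp
    obtain ⟨u, W, hW⟩ := ih (hr.mono (Finset.subset_insert _ _))
    by_cases h1 : r a * u = ∑ b ∈ s, r b * u * (W b * (r a * u))
    swap
    · exact caseA u W hW h1
    by_cases h2 : ∀ b ∈ s, ∃ l : F, W b * (r a * u) = algebraMap F R l
    swap
    · push Not at h2
      obtain ⟨b, hb, h2⟩ := h2
      obtain ⟨t, t', ht, hz⟩ := G.sc h2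
      refine caseA (u * t) (fun b => t' * W b) (hW.shrink' ht) fun e => ?_
      apply hz (t' * W b * (r a * (u * t)))
      have := hW.mul_sum (fun b => t * (t' * W b * (r a * (u * t)))) hb
      rw [← this]
      conv_lhs => rw [mul_assoc, mul_assoc, e]
      simp only [mul_assoc]
    choose! l hl using h2
    obtain ⟨r', hr'⟩ : ∃ r', r' = r a - ∑ b ∈ s, l b • r b := ⟨_, rfl⟩
    have n0 : r' ≠ 0 := hr' ▸ Ind.insert_ne ha hr l
    have z0 : r' * u = 0 := by
      rw [hr', sub_mul, h1, sub_eq_zero, Finset.sum_mul]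
      exact Finset.sum_congr rfl fun b hb => by
        rw [hl b hb, ← Algebra.commutes, Algebra.smul_def, mul_assoc]
    obtain ⟨s0, c0, h0⟩ := G.pi r' n0
    obtain ⟨t, t1, w, g1, -, g3, g4⟩ := G.shl (V := ⊥) (L := ⊥) (v := 1) (n := 1)
      (by simpa using G.nt) (by simpa using G.nt) (s ×ˢ (insert a s))
      (fun p => W p.1 * r p.2 * c0)
    have g5 : ∀ b ∈ s, ∀ b' ∈ insert a s, t * W b * (r b' * (u * t1 + c0 * w))
        = t * (W b * (r b' * u)) * t1 := fun b hb b' hb' => by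
      have := g3 (b, b') (Finset.mem_product.2 ⟨hb, hb'⟩)
      simp only [mul_assoc, one_mul] at this
      simp only [mul_add, mul_assoc, this, add_zero]
    refine caseA (u * t1 + c0 * w) (fun b => t * W b)
      ((hW.shrink g1).congr fun b hb b' hb' => ?_) fun e => g4 ?_
    · rw [g5 b hb b' (Finset.mem_insert_of_mem hb')]; simp only [mul_assoc]
    · have e1 : r' * (u * t1 + c0 * w) = 0 := by
        rw [hr', sub_mul, e, sub_eq_zero, Finset.sum_mul]
        refine Finset.sum_congr rfl fun b hb => ?_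
        rw [g5 b hb a (Finset.mem_insert_self _ _), hl b hb, ← Algebra.commutes, mul_assoc _ t,
          g1, mul_one, ← Algebra.commutes, Algebra.smul_def, mul_assoc]
      rw [mul_add, ra z0, zero_mul, zero_add] at e1
      have : w = s0 * (r' * (c0 * w)) := by rw [← mul_assoc, ← mul_assoc, h0, one_mul]
      rw [this, e1]; simp

theorem avoid [Infinite F] (K : RI R) (VV : List (RI R)) (hV : ∀ V ∈ VV, ∃ k ∈ K, k ∉ V) (u : R) :
    ∃ ρ ∈ K, ∀ V ∈ VV, u + ρ ∉ V := by
  classical
  induction VV with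
  | nil => exact ⟨0, K.zero_mem, by simp⟩
  | cons V0 VV ih =>
    obtain ⟨ρ, hρ, h⟩ := ih fun V hV' => hV V (List.mem_cons_of_mem _ hV')
    obtain ⟨k, hk, hk'⟩ := hV V0 List.mem_cons_self
    have fin : ∀ V ∈ V0 :: VV, {l : F | u + ρ + k * algebraMap F R l ∈ V}.Finite := by
      intro V hV'
      refine Set.Subsingleton.finite fun l hl l' hl' => ?_
      by_contra hne
      have h1 : k ∈ V := by
        have := RI.mul (V.sub_mem hl hl') (algebraMap F R (l - l')⁻¹)
        rwa [add_sub_add_left_eq_sub, ← mul_sub, ← map_sub, mul_assoc, ← map_mul,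
          mul_inv_cancel₀ (sub_ne_zero.2 hne), map_one, mul_one] at this
      rcases List.mem_cons.1 hV' with rfl | hV'
      · exact hk' h1
      · exact h V hV' (by simpa using V.sub_mem hl (RI.mul h1 (algebraMap F R l)))
    have fin2 : (⋃ V ∈ {V | V ∈ V0 :: VV}, {l : F | u + ρ + k * algebraMap F R l ∈ V}).Finite :=
      (List.finite_toSet _).biUnion fin
    obtain ⟨l, hl⟩ := fin2.exists_notMem
    refine ⟨ρ + k * algebraMap F R l, K.add_mem hρ (RI.mul hk _), fun V hV' e => hl ?_⟩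
    simp only [Set.mem_iUnion]
    exact ⟨V, hV', by rwa [← add_assoc] at e⟩

theorem Good.indK [Infinite F] (G : Good F R) {κ : Type} {s : Finset κ} {r : κ → R}
    (hr : Ind F s r) {K : RI R} (hK : Essn K) (VV : List (RI R))
    (hV : ∀ V ∈ VV, ∃ k ∈ K, k ∉ V) :
    ∃ u ∈ K, (∀ V ∈ VV, u ∉ V) ∧ ∃ W, DualOn s W (fun a => r a * u) := by
  obtain ⟨u, hu, W, hW⟩ : ∃ u ∈ K, ∃ W, DualOn s W (fun a => r a * u) := by
    obtain ⟨u, W, hW⟩ := G.ind hr
    by_cases h0 : u = 0
    · exact ⟨u, h0 ▸ K.zero_mem, W, hW⟩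
    obtain ⟨c, h1, h2⟩ := hK u h0
    obtain ⟨x, t, h3⟩ := G.pi c (by rintro rfl; simp at h1)
    exact ⟨u * (c * t), by rw [← mul_assoc]; exact RI.mul h2 t, _,
      hW.shrink' (t := c * t) (t' := x) (by rwa [← mul_assoc])⟩
  obtain ⟨τ, t1, h1, h2⟩ : ∃ τ t1 : R, τ * t1 = 1 ∧ ∀ V ∈ VV, ∃ ρ ∈ K, ρ ∉ V ∧
      ∀ p ∈ s ×ˢ s, τ * (W p.1 * r p.2) * ρ = 0 := by
    induction VV with
    | nil => exact ⟨1, 1, by simp, by simp⟩
    | cons V0 VV ih =>
      obtain ⟨τ, t1, h1, h2⟩ := ih fun V hV' => hV V (List.mem_cons_of_mem _ hV')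
      obtain ⟨k, hk, hk'⟩ := hV V0 List.mem_cons_self
      obtain ⟨t, t2, w, g1, -, g3, g4⟩ := G.shl (L := ⊥) (n := 1) hk' (by simpa using G.nt)
        (s ×ˢ s) (fun p => τ * (W p.1 * r p.2))
      refine ⟨t * τ, t1 * t2, by rw [mul_assoc, ra h1, one_mul, g1], fun V hV' => ?_⟩
      rcases List.mem_cons.1 hV' with rfl | hV'
      · exact ⟨k * w, RI.mul hk w, g4, fun p hp => by simpa only [mul_assoc] using g3 p hp⟩
      · obtain ⟨ρ, e1, e2, e3⟩ := h2 V hV'
        exact ⟨ρ, e1, e2, fun p hp => by rw [mul_assoc t, mul_assoc t, e3 p hp, mul_zero]⟩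
  obtain ⟨ρ, hρ, h3⟩ := avoid (F := F) (K ⊓ ⨅ p ∈ s ×ˢ s, pre (τ * (W p.1 * r p.2)) ⊥) VV
    (fun V hV' => by
      obtain ⟨ρ, e1, e2, e3⟩ := h2 V hV'
      exact ⟨ρ, ⟨e1, by simpa [Submodule.mem_iInf] using e3⟩, e2⟩) (u * t1)
  refine ⟨u * t1 + ρ, K.add_mem (RI.mul hu _) hρ.1, h3, fun a => τ * W a,
    (hW.shrink h1).congr fun a ha b hb => ?_⟩
  have := hρ.2
  simp only [SetLike.mem_coe, Submodule.mem_iInf, mem_pre, Submodule.mem_bot] at this
  have := this (a, b) (Finset.mem_product.2 ⟨ha, hb⟩)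
  simp only [mul_assoc] at this
  simp only [mul_add, mul_assoc, this, add_zero]

theorem Good.indS [Infinite F] (G : Good F R) {κ : Type} {s : Finset κ} {r : κ → R}
    (hr : Ind F s r) {K : RI R} (hK : Essn K) (VV : List (RI R))
    (hV : ∀ V ∈ VV, ∃ k ∈ K, k ∉ V) (B : Finset R) (hB : ∀ β ∈ B, β ≠ 0) :
    ∃ u ∈ K, (∀ V ∈ VV, u ∉ V) ∧ (∃ W, DualOn s W (fun a => r a * u)) ∧
      ∀ β ∈ B, ∃ ω, ω * β ≠ 0 ∧ ∀ a ∈ s, ω * (r a * u) = 0 := by
  obtain ⟨i0, i1, j0, j1, h1, h2, h3, h4, -⟩ := G.lea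
  obtain ⟨i, j, hij⟩ := G.fam B
  have hB' : Ind F B fun β => β * j β := fun c hc β hβ => by
    have e := congrArg (· * i β) hc
    have : ∑ a ∈ B, c a • (a * j a) = ∑ a ∈ B, (c a • a) * j a := by simp
    simp only [this, hij.sum_mul _ hβ, zero_mul] at e
    exact (smul_eq_zero.1 e).resolve_right (hB β hβ)
  obtain ⟨u, hu, g1, W, hW⟩ := G.indK (hr.sumR hB' h1 h2 h3 h4) (hK.pre j0) (VV.map (pre j0))
    (fun V hV' => by
      obtain ⟨V, hV'', rfl⟩ := List.mem_map.1 hV'
      obtain ⟨k, e1, e2⟩ := hV V hV''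
      exact ⟨i0 * k, by simpa [ra h1], by simpa [ra h1]⟩)
  refine ⟨j0 * u, hu, fun V hV' => g1 _ (List.mem_map_of_mem hV'),
    ⟨fun a => W (.inl a), fun a ha => ?_, fun a ha b hb hab => ?_⟩, fun β hβ => ⟨W (.inr β), ?_, ?_⟩⟩
  · simpa [mul_assoc] using hW.1 (.inl a) (by simpa)
  · simpa [mul_assoc] using hW.2 (.inl a) (by simpa) (.inl b) (by simpa) (by simpa)
  · intro e
    have := hW.1 (.inr β) (by simpa)
    simp [mul_assoc, ra e] at this
    exact G.nt this.symm
  · intro a ha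
    simpa [mul_assoc] using hW.2 (.inr β) (by simpa) (.inl a) (by simpa) (by simp)

theorem Good.indL [Infinite F] (G : Good F R) {κ : Type} {s : Finset κ} {c : κ → R}
    (hc : Ind F s c) {L : Ideal R} {n : R} (hn : n ∉ L) :
    ∃ u, u * n ∉ L ∧ ∃ ζ, DualOn s (fun a => u * c a) ζ := by
  let V : RI Rᵐᵒᵖ :=
    { carrier := {u | u.unop * n ∈ L}
      add_mem' := fun {a b} ha hb => by
        change (a.unop + b.unop) * n ∈ L; rw [add_mul]; exact L.add_mem ha hb
      zero_mem' := by change (0 : R) * n ∈ L; simp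
      smul_mem' := fun a x hx => by
        change a.unop.unop * x.unop * n ∈ L; rw [mul_assoc]; exact L.mul_mem_left _ hx }
  obtain ⟨u, -, h1, W, hW⟩ := G.opp.indK (s := s) (r := fun a => op (c a)) (fun l hl => hc l (by
      have := congrArg unop hl
      simpa [Finset.unop_sum] using this)) Essn.top [V]
    (fun V' hV' => by
      rw [List.mem_singleton.1 hV']
      exact ⟨1, trivial, fun e => hn (by simpa [V] using e)⟩)
  refine ⟨u.unop, h1 V (by simp), fun a => (W a).unop, fun a ha => ?_, fun a ha b hb hab => ?_⟩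
  · simpa using congrArg unop (hW.1 a ha)
  · simpa using congrArg unop (hW.2 b hb a ha hab.symm)

theorem Unif.essn (G : Good F R) {J : RI R} (h : Unif J) : Essn J := fun v hv => by
  obtain ⟨i0, i1, j0, j1, h1, h2, h3, h4, -⟩ := G.lea
  obtain ⟨s, t, hst⟩ := G.pi v hv
  rw [mul_assoc] at hst
  have ne : ∀ c, c ≠ 0 → v * (t * c) ≠ 0 := fun c hc e => hc (by
    rw [← one_mul c, ← hst, mul_assoc, mul_assoc, e, mul_zero])
  by_cases e0 : v * (t * i0) ∈ J
  · exact ⟨_, ne _ (by rintro rfl; exact G.nt (by simpa using h1.symm)), e0⟩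
  by_cases e1 : v * (t * i1) ∈ J
  · exact ⟨_, ne _ (by rintro rfl; exact G.nt (by simpa using h2.symm)), e1⟩
  obtain ⟨c, d, g1, g2⟩ := h.2 _ e0 _ e1
  refine ⟨t * (i0 * c - i1 * d), ne _ fun e => g2 ?_, RI.cast g1 (by noncomm_ring)⟩
  have : c = j0 * (i0 * c - i1 * d) := by simp [mul_sub, ra h1, ra h3]
  rw [this, e]; simp

/-- a dependent family: the last vector with a nonzero coefficient is a combination of others -/
theorem not_ind {κ : Type} [DecidableEq κ] {s : Finset κ} {r : κ → R} (h : ¬ Ind F s r) :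
    ∃ a ∈ s, ∃ l : κ → F, r a = ∑ b ∈ s.erase a, l b • r b := by
  simp only [Ind, not_forall] at h
  obtain ⟨c, hc, a, ha, hne⟩ := h
  refine ⟨a, ha, fun b => -((c a)⁻¹ * c b), ?_⟩
  rw [← Finset.add_sum_erase _ _ ha] at hc
  have := congrArg ((c a)⁻¹ • ·) hc
  simp only [smul_add, smul_smul, inv_mul_cancel₀ hne, one_smul, smul_zero, Finset.smul_sum] at this
  rw [eq_neg_of_add_eq_zero_left this, ← Finset.sum_neg_distrib]
  simp

/-- normal form of a bilinear sum -/
theorem nf {M N T : Type} [AddCommGroup M] [Module F M] [Ring N] [Algebra F N] [AddCommGroup T]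
    [Module F T] (B : M →ₗ[F] N →ₗ[F] T) {κ : Type} (s : Finset κ) (c : κ → M) (d : κ → N) :
    ∃ (s' : Finset κ) (c' : κ → M), s' ⊆ s ∧ Ind F s' d ∧
      ∑ a ∈ s, B (c a) (d a) = ∑ a ∈ s', B (c' a) (d a) := by
  classical
  induction' hn : s.card using Nat.strong_induction_on with n ih generalizing s c
  by_cases h : Ind F s d
  · exact ⟨s, c, subset_rfl, h, rfl⟩
  obtain ⟨a, ha, l, hl⟩ := not_ind h
  obtain ⟨s', c', h1, h2, h3⟩ := ih _ (hn ▸ Finset.card_erase_lt_of_mem ha) (s.erase a)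
    (fun b => c b + l b • c a) rfl
  refine ⟨s', c', h1.trans (Finset.erase_subset _ _), h2, ?_⟩
  rw [← h3, ← Finset.add_sum_erase _ _ ha, hl]
  simp [Finset.sum_add_distrib, add_comm]

end Z87
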