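import Pool.Agent.Lib.MP_1e63be_al.Z87.Ind

/-! Triangular representations of noncommutative polynomials. -/

namespace Z87

variable {F R T : Type} [Field F] [Ring R] [Algebra F R] [Ring T] [Algebra F T]

theorem Fam.self (ι : Fam R) (a : ℕ) : ι.j a * ι.i a = 1 := by simp [ι.h]

theorem Fam.ne (ι : Fam R) {a b : ℕ} (h : a ≠ b) : ι.j a * ι.i b = 0 := by simp [ι.h, h]

theorem Fam.z0 (ι : Fam R) (a : ℕ) : ι.j 0 * ι.i (a + 1) = 0 := ι.ne (by omega)

theorem Fam.z1 (ι : Fam R) (a : ℕ) : ι.j (a + 1) * ι.i 0 = 0 := ι.ne (by omega)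

theorem Fam.dual (ι : Fam R) (Λ : Finset ℕ) :
    DualOn Λ (fun l => ι.j (l + 1)) (fun l => ι.i (l + 1)) :=
  ⟨fun _ _ => ι.self _, fun _ _ _ _ h => ι.ne (by omega)⟩

/-- the projection on the coordinates in use -/
def Fam.E (ι : Fam R) (Λ : Finset ℕ) (a : R) : R :=
  ι.i 0 * ι.j 0 + ∑ l ∈ Λ, ι.i (l + 1) * (a * ι.j (l + 1))

theorem Fam.j0_E (ι : Fam R) (Λ : Finset ℕ) (a : R) : ι.j 0 * ι.E Λ a = ι.j 0 := by
  simp [Fam.E, mul_add, Finset.mul_sum, ra (ι.self 0), ra (ι.z0 _)]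

theorem Fam.E_i0 (ι : Fam R) (Λ : Finset ℕ) (a : R) : ι.E Λ a * ι.i 0 = ι.i 0 := by
  simp [Fam.E, add_mul, Finset.sum_mul, mul_assoc, ι.self 0, ι.z1]

theorem Fam.j_E (ι : Fam R) {Λ : Finset ℕ} (a : R) {l : ℕ} (hl : l ∈ Λ) :
    ι.j (l + 1) * ι.E Λ a = a * ι.j (l + 1) := by
  rw [Fam.E, mul_add, (ι.dual Λ).mul_sum _ hl, ra (ι.z1 _)]; simp

theorem Fam.E_i (ι : Fam R) {Λ : Finset ℕ} (a : R) {l : ℕ} (hl : l ∈ Λ) :
    ι.E Λ a * ι.i (l + 1) = ι.i (l + 1) * a := by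
  have := (ι.dual Λ).sum_mul (fun l => ι.i (l + 1) * a) hl
  simp only [mul_assoc] at this
  rw [Fam.E, add_mul, this, mul_assoc, ι.z0]; simp

theorem Fam.E_i' (ι : Fam R) {Λ : Finset ℕ} (a : R) {l : ℕ} (hl : l ∉ Λ) :
    ι.E Λ a * ι.i (l + 1) = 0 := by
  rw [Fam.E, add_mul, mul_assoc, ι.z0, Finset.sum_mul, Finset.sum_eq_zero]
  · simp
  · intro m hm
    have : m ≠ l := fun e => hl (e ▸ hm)
    simp [mul_assoc, ι.ne (show m + 1 ≠ l + 1 by omega)]

theorem Fam.E_mul (ι : Fam R) (Λ : Finset ℕ) (a u : R) :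
    ι.E Λ a * u = ι.i 0 * (ι.j 0 * u) + ∑ l ∈ Λ, ι.i (l + 1) * (a * (ι.j (l + 1) * u)) := by
  simp [Fam.E, add_mul, Finset.sum_mul, mul_assoc]

theorem Fam.E_E (ι : Fam R) (Λ : Finset ℕ) {a : R} (ha : a * a = a) :
    ι.E Λ a * ι.E Λ a = ι.E Λ a := by
  rw [ι.E_mul, ι.j0_E]
  conv_rhs => rw [Fam.E]
  congr 1
  exact Finset.sum_congr rfl fun l hl => by rw [ι.j_E a hl, ra ha]

def Tri (ι : Fam R) (Λ : Finset ℕ) (row : ℕ → R) : Prop :=
  ∀ l ∈ Λ, ∀ m, l ≤ m → row l * ι.i (m + 1) = 0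

theorem Tri.mul_E {ι : Fam R} {Λ : Finset ℕ} {row : ℕ → R} (h : Tri ι Λ row) (Λ' : Finset ℕ)
    (a : R) : Tri ι Λ fun l => row l * ι.E Λ' a := fun l hl m hm => by
  by_cases h' : m ∈ Λ'
  · rw [mul_assoc, ι.E_i a h', ra (h l hl m hm), zero_mul]
  · rw [mul_assoc, ι.E_i' a h', mul_zero]

structure Rep (ι : Fam R) (f : R →ₐ[F] T) (Λ : Finset ℕ) (xl : ℕ → T) (row : ℕ → R) (s : T) :
    Prop where
  eq : s = f (ι.i 0) + ∑ l ∈ Λ, f (ι.i (l + 1)) * (xl l * (f (row l) * s))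
  tri : Tri ι Λ row

variable {ι : Fam R} {f : R →ₐ[F] T} {Λ : Finset ℕ} {xl : ℕ → T} {row : ℕ → R} {s : T}

theorem uniq (h : Tri ι Λ row) {d : T}
    (hd : d = ∑ l ∈ Λ, f (ι.i (l + 1)) * (xl l * (f (row l) * d))) : d = 0 := by
  have key : ∀ l, l ∈ Λ → f (row l) * d = 0 := by
    intro l
    induction l using Nat.strong_induction_on with
    | _ l ih =>
      intro hl
      rw [hd, Finset.mul_sum]
      refine Finset.sum_eq_zero fun m hm => ?_
      rcases le_or_gt l m with h' | h'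
      · rw [← mul_assoc, ← map_mul, h l hl m h']; simp
      · rw [ih m h' hm]; simp
  rw [hd]
  exact Finset.sum_eq_zero fun m hm => by rw [key m hm]; simp

theorem Rep.j0 (h : Rep ι f Λ xl row s) : f (ι.j 0) * s = 1 := by
  rw [h.eq, mul_add, ← map_mul, ι.self, Finset.mul_sum, Finset.sum_eq_zero]
  · simp
  · intro l _; rw [← mul_assoc, ← map_mul, ι.z0]; simp

theorem Rep.coord (h : Rep ι f Λ xl row s) {l : ℕ} (hl : l ∈ Λ) :
    f (ι.j (l + 1)) * s = xl l * (f (row l) * s) := by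
  conv_lhs => rw [h.eq]
  rw [mul_add, ← map_mul, ι.z1, ((ι.dual Λ).map f).mul_sum _ hl]; simp

theorem Rep.E (h : Rep ι f Λ xl row s) {a : R} (ha : ∀ l ∈ Λ, f a * xl l = xl l) :
    f (ι.E Λ a) * s = s := by
  conv_rhs => rw [h.eq]
  simp only [Fam.E, map_add, map_sum, map_mul, add_mul, Finset.sum_mul, mul_assoc, h.j0, mul_one]
  congr 1
  exact Finset.sum_congr rfl fun l hl => by rw [h.coord hl, ra (ha l hl)]

theorem Rep.map {T' : Type} [Ring T'] [Algebra F T'] (h : Rep ι f Λ xl row s) {f' : R →ₐ[F] T'}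
    (φ : T →ₐ[F] T') (hφ : ∀ c, φ (f c) = f' c) :
    Rep ι f' Λ (fun l => φ (xl l)) row (φ s) :=
  ⟨by conv_lhs => rw [h.eq]
      simp [hφ], h.tri⟩

theorem Rep.congr (h : Rep ι f Λ xl row s) {xl' : ℕ → T} {row' : ℕ → R} (ht : Tri ι Λ row')
    (e : ∀ l ∈ Λ, xl' l * (f (row' l) * s) = xl l * (f (row l) * s)) : Rep ι f Λ xl' row' s :=
  ⟨by conv_lhs => rw [h.eq]
      congr 1
      exact Finset.sum_congr rfl fun l hl => by rw [e l hl], ht⟩

/-- solutions of the recursion are unique -/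
theorem Rep.kill (h : Rep ι f Λ xl row s) {u v : T}
    (hv : v = f (ι.i 0) * u + ∑ l ∈ Λ, f (ι.i (l + 1)) * (xl l * (f (row l) * v))) :
    s * u = v := by
  rw [← sub_eq_zero]
  refine uniq (f := f) (xl := xl) h.tri ?_
  conv_lhs => rw [h.eq, hv]
  simp only [add_mul, Finset.sum_mul, mul_assoc, mul_sub, Finset.sum_sub_distrib]
  abel

theorem Rep.empty (ι : Fam R) (f : R →ₐ[F] T) (xl : ℕ → T) (row : ℕ → R) :
    Rep ι f ∅ xl row (f (ι.i 0)) := ⟨by simp, by simp [Tri]⟩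

theorem Rep.push (h : Rep ι f Λ xl row s) {k : ℕ} (hk : ∀ l ∈ Λ, l < k) (x : T) {B : R}
    (hB : ∀ m, k ≤ m → B * ι.i (m + 1) = 0) :
    Rep ι f (insert k Λ) (Function.update xl k x) (Function.update row k B)
      (s + f (ι.i (k + 1)) * (x * (f B * s))) := by
  have hk' : k ∉ Λ := fun e => lt_irrefl _ (hk k e)
  refine ⟨?_, fun l hl m hm => ?_⟩
  · rw [Finset.sum_insert hk']
    simp only [Function.update_self, mul_add, ← mul_assoc (f B), ← map_mul, hB k le_rfl, map_zero,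
      zero_mul, add_zero]
    conv_lhs => rw [h.eq]
    rw [add_assoc, add_comm (∑ l ∈ Λ, _), ← h.eq]
    congr 2
    refine Finset.sum_congr rfl fun l hl => ?_
    have : l ≠ k := (hk l hl).ne
    simp only [Function.update_of_ne this, ← mul_assoc (f (row l)), ← map_mul,
      h.tri l hl k (hk l hl).le, map_zero, zero_mul, mul_zero, add_zero]
  · rcases Finset.mem_insert.1 hl with rfl | hl
    · simpa using hB m hm
    · rw [Function.update_of_ne (hk l hl).ne]; exact h.tri l hl m hm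

theorem rep_aux (ι : Fam R) (f : R →ₐ[F] T) (X : Set T) {p : T}
    (hp : p ∈ Subring.closure (Set.range f ∪ X)) :
    ∀ Λ xl row s n, Rep ι f Λ xl row s → (∀ l ∈ Λ, xl l ∈ X) →
      ∃ Λ' xl' row' s' g n', Rep ι f Λ' xl' row' s' ∧ (∀ l ∈ Λ', xl' l ∈ X) ∧ s = f g * s' ∧
        p * (f n * s) = f n' * s' := by
  induction hp using Subring.closure_induction with
  | mem x hx =>
    intro Λ xl row s n h hX
    rcases hx with ⟨c, rfl⟩ | hx
    · exact ⟨Λ, xl, row, s, 1, c * n, h, hX, by simp, by simp [mul_assoc]⟩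
    · obtain ⟨k, hk⟩ : ∃ k, ∀ l ∈ Λ, l < k :=
        ⟨Λ.sup id + 1, fun l hl => Nat.lt_succ_of_le (Finset.le_sup (f := id) hl)⟩
      have hk' : ∀ m, k ≤ m → m ∉ Λ := fun m hm e => absurd (hk m e) (by omega)
      have hE := h.E (a := 1) (by simp)
      have h' := h.push hk x (B := n * ι.E Λ 1) fun m hm => by
        rw [mul_assoc, ι.E_i' 1 (hk' m hm), mul_zero]
      refine ⟨_, _, _, _, ι.E Λ 1, ι.j (k + 1), h', fun l hl => ?_, ?_, ?_⟩
      · rcases Finset.mem_insert.1 hl with rfl | hl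
        · simpa using hx
        · rw [Function.update_of_ne (hk l hl).ne]; exact hX l hl
      · rw [mul_add, hE, ← mul_assoc, ← map_mul, ι.E_i' 1 (hk' k le_rfl)]; simp
      · rw [h'.coord (Finset.mem_insert_self _ _)]
        simp only [Function.update_self, mul_add, ← mul_assoc (f (n * ι.E Λ 1)), ← map_mul,
          mul_assoc n, ι.E_i' 1 (hk' k le_rfl), mul_zero, map_zero, zero_mul, add_zero]
        rw [map_mul, mul_assoc, hE]
  | zero => exact fun Λ xl row s n h hX => ⟨Λ, xl, row, s, 1, 0, h, hX, by simp, by simp⟩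
  | one => exact fun Λ xl row s n h hX => ⟨Λ, xl, row, s, 1, n, h, hX, by simp, by simp⟩
  | add x y _ _ hx hy =>
    intro Λ xl row s n h hX
    obtain ⟨Λ1, xl1, row1, s1, g1, n1, h1, hX1, e1, e1'⟩ := hx Λ xl row s n h hX
    obtain ⟨Λ2, xl2, row2, s2, g2, n2, h2, hX2, e2, e2'⟩ := hy Λ1 xl1 row1 s1 (n * g1) h1 hX1
    refine ⟨Λ2, xl2, row2, s2, g1 * g2, n1 * g2 + n2, h2, hX2, by rw [e1, e2]; simp [mul_assoc], ?_⟩
    rw [add_mul, e1', map_add, add_mul, ← e2', map_mul, map_mul, mul_assoc, mul_assoc, ← e1, ← e2]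
  | neg x _ hx =>
    intro Λ xl row s n h hX
    obtain ⟨Λ1, xl1, row1, s1, g1, n1, h1, hX1, e1, e1'⟩ := hx Λ xl row s n h hX
    exact ⟨Λ1, xl1, row1, s1, g1, -n1, h1, hX1, e1, by simp [e1']⟩
  | mul x y _ _ hx hy =>
    intro Λ xl row s n h hX
    obtain ⟨Λ1, xl1, row1, s1, g1, n1, h1, hX1, e1, e1'⟩ := hy Λ xl row s n h hX
    obtain ⟨Λ2, xl2, row2, s2, g2, n2, h2, hX2, e2, e2'⟩ := hx Λ1 xl1 row1 s1 n1 h1 hX1
    exact ⟨Λ2, xl2, row2, s2, g1 * g2, n2, h2, hX2, by rw [e1, e2]; simp [mul_assoc],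
      by rw [mul_assoc, e1', e2']⟩

theorem rep (ι : Fam R) (f : R →ₐ[F] T) (X : Set T) {p : T}
    (hp : p ∈ Subring.closure (Set.range f ∪ X)) :
    ∃ Λ xl row s n, Rep ι f Λ xl row s ∧ (∀ l ∈ Λ, xl l ∈ X) ∧ p = f n * s := by
  obtain ⟨Λ, xl, row, s, -, n, h, hX, -, e⟩ := rep_aux ι f X hp ∅ (fun _ => 0) (fun _ => 0) _
    (ι.j 0) (Rep.empty ι f _ _) (by simp)
  exact ⟨Λ, xl, row, s, n, h, hX, by rwa [← map_mul, ι.self, map_one, mul_one] at e⟩

theorem costate (f : R →ₐ[F] T) (xl : ℕ → T) (h : Tri ι Λ row) (n : T) :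
    ∃ σ, σ = n + ∑ l ∈ Λ, σ * (f (ι.i (l + 1)) * (xl l * f (row l))) := by
  induction Λ using Finset.induction_on_max generalizing n with
  | empty => exact ⟨n, by simp⟩
  | insert k Λ hk ih =>
    have hk' : k ∉ Λ := fun e => lt_irrefl _ (hk k e)
    obtain ⟨σ, hσ⟩ := ih (fun l hl => h l (Finset.mem_insert_of_mem hl))
      (n + n * (f (ι.i (k + 1)) * (xl k * f (row k))))
    have e : σ * f (ι.i (k + 1)) = n * f (ι.i (k + 1)) := by
      rw [hσ, add_mul, add_mul, Finset.sum_mul, Finset.sum_eq_zero]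
      · simp only [mul_assoc, ← map_mul, h k (Finset.mem_insert_self _ _) k le_rfl]; simp
      · intro l hl
        simp only [mul_assoc, ← map_mul, h l (Finset.mem_insert_of_mem hl) k (hk l hl).le]; simp
    refine ⟨σ, ?_⟩
    rw [Finset.sum_insert hk', ← mul_assoc, e, mul_assoc, ← add_assoc]
    exact hσ

/-- linearisation -/
theorem higman (G : Good F R) (h : Rep ι f Λ xl row s) (n : R) :
    ∃ (A κ : R) (k k' : ℕ → R) (Ξ q : T) (y : ℕ → T), Ξ * f κ = 1 ∧ Ξ * f A = f n * s * q ∧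
      (∀ l ∈ Λ, Ξ * (f (k' l) * xl l - f (k l)) = 0) ∧
      f κ * (f n * s) = f A * s + ∑ l ∈ Λ, (f (k' l) * xl l - f (k l)) * y l := by
  obtain ⟨a0, a1, b0, b1, h1, h2, h3, h4, -⟩ := G.lea
  obtain ⟨σ, hσ⟩ := costate f xl h.tri (f n)
  have hE := h.E (a := 1) (by simp)
  have hp : σ * f (ι.i 0) = f n * s := by
    have e1 : σ * s = σ * f (ι.i 0) + ∑ l ∈ Λ, σ * (f (ι.i (l + 1)) * (xl l * (f (row l) * s))) := by
      conv_lhs => rw [h.eq]
      rw [mul_add, Finset.mul_sum]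
    have e2 : σ * s = f n * s + ∑ l ∈ Λ, σ * (f (ι.i (l + 1)) * (xl l * (f (row l) * s))) := by
      conv_lhs => rw [hσ]
      simp only [add_mul, Finset.sum_mul, mul_assoc]
    exact add_right_cancel (e1.symm.trans e2)
  obtain ⟨Ξ, hΞ0, hΞ⟩ : ∃ Ξ : T, Ξ * f (ι.i 0) = 1 ∧ ∀ l ∈ Λ, Ξ * f (ι.i (l + 1)) =
      σ * f (ι.i (l + 1)) * xl l * f b0 + σ * f (ι.i (l + 1)) * f b1 := by
    refine ⟨f (ι.j 0) + ∑ l ∈ Λ, (σ * f (ι.i (l + 1)) * xl l * f b0 + σ * f (ι.i (l + 1)) * f b1)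
      * f (ι.j (l + 1)), ?_, fun l hl => ?_⟩
    · simp only [add_mul _ _ (f (ι.i 0)), Finset.sum_mul, mul_assoc, ← map_mul, ι.self, ι.z1]; simp
    · rw [add_mul, ((ι.dual Λ).map f).sum_mul _ hl, ← map_mul, ι.z0]; simp
  have hk : ∀ l ∈ Λ, Ξ * f (ι.i (l + 1) * a0) = σ * f (ι.i (l + 1)) * xl l := fun l hl => by
    rw [map_mul, ← mul_assoc, hΞ l hl]
    simp only [add_mul, mul_assoc, ← map_mul, h1, h4]; simp
  have hk' : ∀ l ∈ Λ, Ξ * f (ι.i (l + 1) * a1) = σ * f (ι.i (l + 1)) := fun l hl => by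
    rw [map_mul, ← mul_assoc, hΞ l hl]
    simp only [add_mul, mul_assoc, ← map_mul, h2, h3]; simp
  refine ⟨(ι.i 0 * n + ∑ l ∈ Λ, (ι.i (l + 1) * a0 * row l - ι.i (l + 1) * a1 * ι.j (l + 1)))
    * ι.E Λ 1, ι.i 0, fun l => ι.i (l + 1) * a0, fun l => ι.i (l + 1) * a1, Ξ, f (ι.j 0),
    fun l => f (row l) * s, hΞ0, ?_, fun l hl => ?_, ?_⟩
  · have e : Ξ * f (ι.i 0 * n + ∑ l ∈ Λ, (ι.i (l + 1) * a0 * row l - ι.i (l + 1) * a1 * ι.j (l + 1)))
        = σ - σ * f (∑ l ∈ Λ, ι.i (l + 1) * ι.j (l + 1)) := by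
      rw [map_add, map_sum, mul_add, map_mul, ra hΞ0, one_mul, Finset.mul_sum, map_sum,
        Finset.mul_sum, eq_sub_iff_add_eq, add_assoc, ← Finset.sum_add_distrib]
      conv_rhs => rw [hσ]
      congr 1
      refine Finset.sum_congr rfl fun l hl => ?_
      rw [map_sub, mul_sub, map_mul _ _ (row l), map_mul _ _ (ι.j _), ra (hk l hl), ra (hk' l hl),
        map_mul]
      noncomm_ring
    rw [map_mul, ← mul_assoc, e, ← hp, sub_mul, mul_assoc, mul_assoc, ← map_mul, ← map_mul,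
      ← mul_sub, ← map_sub]
    congr 2
    rw [Finset.sum_mul, sub_eq_iff_eq_add]
    conv_lhs => rw [Fam.E]
    congr 1
    exact Finset.sum_congr rfl fun l hl => by rw [mul_assoc, ι.j_E 1 hl]
  · rw [mul_sub, ra (hk' l hl), hk l hl, sub_self]
  · rw [map_mul, mul_assoc, hE, map_add, map_sum, add_mul, Finset.sum_mul, add_assoc,
      ← Finset.sum_add_distrib, Finset.sum_eq_zero, map_mul, mul_assoc, add_zero]
    intro l hl
    rw [map_sub, map_mul _ _ (row l), map_mul _ _ (ι.j _), sub_mul, mul_assoc _ (f (ι.j _)),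
      h.coord hl]
    noncomm_ring

end Z87
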