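import Pool.Agent.Lib.MP_1e63be_al.Z87.Lock

/-! The sealing step: setting, tracked elements, states and moves. -/

namespace Z87

variable {F R P : Type} [Field F] [Ring R] [Algebra F R] [Ring P] [Algebra F P]

/-- a ring of polynomials in one variable over `R` -/
structure PolyR (F R P : Type) [Field F] [Ring R] [Algebra F R] [Ring P] [Algebra F P] where
  C : R →ₐ[F] P
  X : P
  sub : P → (P →ₐ[F] P)
  subC : ∀ q c, sub q (C c) = C c
  subX : ∀ q, sub q X = q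
  ev : R → (P →ₐ[F] R)
  evC : ∀ δ c, ev δ (C c) = c
  evX : ∀ δ, ev δ X = δ
  gen : ∀ p, p ∈ Subring.closure (Set.range C ∪ {X})

theorem exists_polyR (F R : Type) [Field F] [Ring R] [Algebra F R] [Countable F] [Countable R] :
    ∃ (P : Type) (_ : Ring P) (_ : Algebra F P) (_ : Countable P), Nonempty (PolyR F R P) := by
  let S : Set (R → R) := Set.range (Pi.constAlgHom F R R) ∪ {id}
  let P := Algebra.adjoin F S
  have hC : ∀ c, Pi.constAlgHom F R R c ∈ P := fun c => Algebra.subset_adjoin (.inl ⟨c, rfl⟩)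
  have hX : id ∈ P := Algebra.subset_adjoin (.inr rfl)
  let C : R →ₐ[F] P := (Pi.constAlgHom F R R).codRestrict P hC
  let cmp : P → ((R → R) →ₐ[F] (R → R)) := fun q => AlgHom.pi fun v => Pi.evalAlgHom F _ (q.1 v)
  have hcmp : ∀ q : P, ∀ p ∈ P, cmp q p ∈ P := fun q p hp => by
    have : P ≤ P.comap (cmp q) := Algebra.adjoin_le (by
      rintro _ (⟨c, rfl⟩ | rfl)
      · exact hC c
      · exact q.2)
    exact this hp
  have hc : Countable P := by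
    have hS : S.Countable := (Set.countable_range _).union (Set.countable_singleton _)
    have := Algebra.lift_cardinalMk_adjoin_le F S
    rw [← Cardinal.mk_le_aleph0_iff]
    simp only [Cardinal.lift_id] at this
    exact this.trans (max_le (max_le Cardinal.mk_le_aleph0 hS.le_aleph0) le_rfl)
  refine ⟨P, inferInstance, inferInstance, hc, ⟨⟨C, ⟨id, hX⟩,
    fun q => ((cmp q).comp P.val).codRestrict P fun p => hcmp q p.1 p.2, fun _ _ => rfl,
    fun _ => rfl, fun δ => (Pi.evalAlgHom F _ δ).comp P.val, fun _ _ => rfl, fun _ => rfl, ?_⟩⟩⟩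
  rintro ⟨p, hp⟩
  induction hp using Algebra.adjoin_induction with
  | mem x hx =>
    rcases hx with ⟨c, rfl⟩ | rfl
    · exact Subring.subset_closure (.inl ⟨c, rfl⟩)
    · exact Subring.subset_closure (.inr rfl)
  | algebraMap l => exact Subring.subset_closure (.inl ⟨algebraMap F R l, rfl⟩)
  | add x y hx hy h1 h2 => exact Subring.add_mem _ h1 h2
  | mul x y hx hy h1 h2 => exact Subring.mul_mem _ h1 h2

/-- polynomials in `x` -/
def Cl (C : R →ₐ[F] P) (x : P) : Subring P := Subring.closure (Set.range C ∪ {x})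

theorem Cl.C (C : R →ₐ[F] P) (x : P) (c : R) : C c ∈ Cl C x :=
  Subring.subset_closure (.inl ⟨c, rfl⟩)

theorem Cl.x (C : R →ₐ[F] P) (x : P) : x ∈ Cl C x := Subring.subset_closure (.inr rfl)

theorem Cl.map {C : R →ₐ[F] P} {x x' : P} {φ : P →ₐ[F] P} (h : ∀ c, φ (C c) = C c)
    (hx : φ x ∈ Cl C x') {p : P} (hp : p ∈ Cl C x) : φ p ∈ Cl C x' := by
  have : Cl C x ≤ (Cl C x').comap φ.toRingHom := Subring.closure_le.2 (by
    rintro _ (⟨c, rfl⟩ | rfl)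
    · change φ (C c) ∈ Cl C x'; rw [h]; exact Cl.C C x' c
    · exact hx)
  exact this hp

theorem Cl.fix {C : R →ₐ[F] P} {x : P} {φ : P →ₐ[F] P} (h : ∀ c, φ (C c) = C c)
    (hx : φ x = x) {p : P} (hp : p ∈ Cl C x) : φ p = p := by
  induction hp using Subring.closure_induction with
  | mem z hz =>
    rcases hz with ⟨c, rfl⟩ | rfl
    · exact h c
    · exact hx
  | zero => simp
  | one => simp
  | add _ _ _ _ h1 h2 => rw [map_add, h1, h2]
  | neg _ _ h1 => rw [map_neg, h1]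
  | mul _ _ _ _ h1 h2 => rw [map_mul, h1, h2]

structure US (F R P : Type) [Field F] [Ring R] [Algebra F R] [Ring P] [Algebra F P]
    extends PolyR F R P where
  G : Good F R
  J : RI R
  unif : Unif J
  θ : R
  idz : Idz J θ
  D : Set ℕ
  d0 : 0 ∈ D
  indD : ∀ (s : Finset ℕ) (c : ℕ → F) (z : R), ↑s ⊆ D → (∑ j ∈ s, c j • θ ^ j) * z ∈ J → z ∉ J →
    ∀ j ∈ s, c j = 0

namespace US
variable (U : US F R P)

theorem idz_pow (j : ℕ) : Idz U.J (U.θ ^ j) := by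
  induction j with
  | zero => intro z hz; simpa using hz
  | succ j ih => intro z hz; rw [pow_succ, mul_assoc]; exact ih _ (U.idz z hz)

/-- a tracked element -/
def Mem (b : R) (x : P) (bt : ℕ → R) (T : Set ℕ) (w : P) : Prop :=
  ∃ (s : Finset ℕ) (β ξ : ℕ → R), ↑s ⊆ U.D ∧ (∀ j ∈ s, b * β j = β j) ∧ (∃ j ∈ s, β j ≠ 0) ∧
    (∀ τ, τ ∉ T → ∀ j ∈ s, bt τ * β j = 0) ∧
    w - ∑ j ∈ s, (U.C (ξ j) + U.C (U.θ ^ j) * x) * U.C (β j) ∈ ext U.C U.J

variable {U}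

theorem Mem.retype {b : R} {x : P} {bt : ℕ → R} {T : Set ℕ} {w : P} (h : U.Mem b x bt T w)
    {bt' : ℕ → R} (g : ℕ → ℕ) (hg : ∀ τ, ∃ c, bt' τ = c * bt (g τ)) :
    U.Mem b x bt' (g ⁻¹' T) w := by
  obtain ⟨s, β, ξ, h1, h2, h3, h4, h5⟩ := h
  refine ⟨s, β, ξ, h1, h2, h3, fun τ hτ j hj => ?_, h5⟩
  obtain ⟨c, hc⟩ := hg τ
  rw [hc, mul_assoc, h4 _ hτ j hj, mul_zero]

theorem Mem.move {b : R} {x : P} {bt : ℕ → R} {T : Set ℕ} {w : P} (h : U.Mem b x bt T w) :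
    ∃ (K : RI R) (β0 : R), Essn K ∧ β0 ≠ 0 ∧ ∀ (π δ : R) (φ : P →ₐ[F] P) (x' : P), π ∈ K →
      (1 - π) * β0 ≠ 0 → δ * π ∈ U.J → π * π = π → π * b = b * π → (∀ τ, π * bt τ = bt τ * π) →
      (∀ c, φ (U.C c) = U.C c) → φ x = U.C δ + x' → x' * U.C π = 0 →
      U.Mem (b * (1 - π)) x' (fun τ => bt τ * (1 - π)) T (φ w) := by
  obtain ⟨s, β, ξ, h1, h2, ⟨j0, hj0, h3⟩, h4, h5⟩ := h
  obtain ⟨K, hK, hK'⟩ := Essn.all s (fun j => pre (ξ j) U.J)
    fun j _ => (U.unif.essn U.G).pre _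
  refine ⟨K, β j0, hK, h3, fun π δ φ x' g1 g2 g3 g4 g5 g6 g7 g8 g9 => ?_⟩
  have e : ∀ c, π * c = c * π → c * (1 - π) * (1 - π) = (1 - π) * c := fun c hc => by
    simp only [mul_sub, sub_mul, mul_one, one_mul, mul_assoc, g4, hc]; abel
  refine ⟨s, fun j => (1 - π) * β j, fun j => ξ j + U.θ ^ j * δ, h1, fun j hj => ?_, ⟨j0, hj0, g2⟩,
    fun τ hτ j hj => ?_, ?_⟩
  · rw [← mul_assoc, e b g5, mul_assoc, h2 j hj]
  · rw [← mul_assoc, e _ (g6 τ), mul_assoc, h4 τ hτ j hj, mul_zero]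
  · have h6 := ext_map U.C U.C φ g7 h5
    rw [map_sub] at h6
    refine RI.trans h6 ?_
    rw [map_sum, ← Finset.sum_sub_distrib]
    refine Submodule.sum_mem _ fun j hj => ?_
    have m : (ξ j + U.θ ^ j * δ) * π ∈ U.J := by
      rw [add_mul, mul_assoc]; exact U.J.add_mem ((hK' π).1 g1 j hj) (U.idz_pow j _ g3)
    refine RI.cast (ext_mul U.C m (U.C (β j))) ?_
    simp only [map_mul, map_add, map_sub, g7, g8, add_mul, mul_add, sub_mul, mul_sub,
      one_mul, mul_assoc, ra g9, zero_mul, mul_zero]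
    abel

theorem Mem.link {b : R} {x : P} {bt : ℕ → R} {T : Set ℕ} {w : P} (h : U.Mem b x bt T w)
    (hD : U.D = Set.univ) :
    ∃ N0, ∀ N, N0 ≤ N → ∀ (y0 y1 γ0 γ1 a m : R) (τ0 : ℕ) (φ : P →ₐ[F] P) (x' : P),
      γ0 * y0 = 1 → γ1 * y1 = 1 → γ0 * y1 = 0 → γ1 * y0 = 0 → b * y0 = y0 → b * y1 = y1 →
      γ0 * b = γ0 → γ0 * bt τ0 = γ0 → (∀ τ, τ ≠ τ0 → bt τ * y1 = 0) →
      (∀ τ, y0 * γ0 * bt τ = bt τ * (y0 * γ0)) → m - U.θ ^ N * a ∈ U.J →
      (∀ c, φ (U.C c) = U.C c) → φ x = x' + (U.C a - U.C m * x' * U.C y1) * U.C γ0 →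
      x' * U.C y0 = 0 → U.C a * x' = x' →
      U.Mem (b * (1 - y0 * γ0)) x' (fun τ => bt τ * (1 - y0 * γ0)) T (φ w) := by
  classical
  obtain ⟨s, β, ξ, h1, h2, ⟨j0, hj0, h3⟩, h4, h5⟩ := h
  refine ⟨s.sup id + 1, fun N hN y0 y1 γ0 γ1 a m τ0 φ x' g1 g2 g3 g4 g5 g6 g7 g8 g9 g10 g11 g12 g13
    g14 g15 => ?_⟩
  have lt : ∀ j ∈ s, j < N := fun j hj => by
    have := Finset.le_sup (f := id) hj
    simp only [id] at this; omega
  obtain ⟨β', hβ1, hβ2⟩ : ∃ β' : ℕ → R, (∀ j ∈ s, β' j = (1 - y0 * γ0) * β j) ∧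
      ∀ j, β' (j + N) = -(y1 * γ0 * β j) :=
    ⟨fun j => if j < N then (1 - y0 * γ0) * β j else -(y1 * γ0 * β (j - N)),
      fun j hj => if_pos (lt j hj), fun j => by simp⟩
  obtain ⟨s', hs1, hs2, hs3⟩ : ∃ s' : Finset ℕ, (∀ j, j ∈ s' ↔ j ∈ s ∨ ∃ i ∈ s, j = i + N) ∧
      (∀ f : ℕ → P, ∑ j ∈ s', f j = ∑ j ∈ s, (f j + f (j + N))) ∧ True := by
    refine ⟨s ∪ s.image (· + N), fun j => by simp [eq_comm], fun f => ?_, trivial⟩
    rw [Finset.sum_union, Finset.sum_image (by intro a _ b _ h; simpa using h),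
      Finset.sum_add_distrib]
    rw [Finset.disjoint_left]
    intro j hj hj'
    obtain ⟨i, -, rfl⟩ := Finset.mem_image.1 hj'
    exact absurd (lt _ hj) (by omega)
  have ker : ∀ c, (∀ j ∈ s', β' j * c = 0) → ∀ j ∈ s, β j * c = 0 := fun c hc j hj => by
    have e1 := hc j ((hs1 j).2 (.inl hj))
    have e2 := congrArg (γ1 * ·) (hc (j + N) ((hs1 _).2 (.inr ⟨j, hj, rfl⟩)))
    rw [hβ1 j hj] at e1
    simp only [hβ2, neg_mul, mul_neg, mul_assoc, ra g2, one_mul, mul_zero, neg_eq_zero] at e2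
    simpa [sub_mul, mul_assoc, e2] using e1
  obtain ⟨k, -, k1, c, k2⟩ := ljoin U.G.reg s' β'
  have k3 : ∀ j ∈ s, β j * k = β j := fun j hj => by
    have := ker (1 - k) (fun j hj => by rw [mul_sub, k1 j hj]; simp) j hj
    rw [mul_sub, mul_one, sub_eq_zero] at this; exact this.symm
  have e : ∀ c, y0 * γ0 * c = c * (y0 * γ0) →
      c * (1 - y0 * γ0) * (1 - y0 * γ0) = (1 - y0 * γ0) * c := fun c hc => by
    simp only [mul_assoc] at hc
    simp only [mul_sub, sub_mul, mul_one, one_mul, mul_assoc, ra g1, hc]; abel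
  have e' : ∀ c, c * (1 - y0 * γ0) * y1 = c * y1 := fun c => by
    simp [mul_sub, sub_mul, mul_assoc, g3]
  obtain ⟨ξ0, hξ0⟩ : ∃ ξ0, ξ0 = ∑ j ∈ s, (ξ j + U.θ ^ j * a * γ0) * β j := ⟨_, rfl⟩
  have hξ : U.C ξ0 = ∑ j ∈ s', U.C (ξ0 * c j) * U.C (β' j) := by
    have : ξ0 = ξ0 * k := by
      rw [hξ0, Finset.sum_mul]
      exact Finset.sum_congr rfl fun j hj => by rw [mul_assoc _ (β j), k3 j hj]
    conv_lhs => rw [this, k2]
    simp [Finset.mul_sum, mul_assoc]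
  refine ⟨s', β', fun j => ξ0 * c j, by simp [hD], fun j hj => ?_, ?_, fun τ hτ j hj => ?_, ?_⟩
  · rcases (hs1 j).1 hj with hj | ⟨i, hi, rfl⟩
    · rw [hβ1 j hj, ← mul_assoc, e b (by rw [mul_assoc, g7, ← mul_assoc, g5]), mul_assoc, h2 j hj]
    · rw [hβ2, mul_neg, ← mul_assoc, ← mul_assoc, e', g6]
  · by_contra hne
    push Not at hne
    exact h3 (by simpa using ker 1 (by simpa using hne) j0 hj0)
  · rcases (hs1 j).1 hj with hj | ⟨i, hi, rfl⟩
    · rw [hβ1 j hj, ← mul_assoc, e _ (g10 τ), mul_assoc, h4 τ hτ j hj, mul_zero]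
    · rw [hβ2, mul_neg, ← mul_assoc, ← mul_assoc, e']
      by_cases hτ0 : τ = τ0
      · rw [← g8, ← hτ0]; simp [mul_assoc, h4 τ hτ i hi]
      · simp [g9 τ hτ0]
  · have h6 := ext_map U.C U.C φ g12 h5
    rw [map_sub] at h6
    refine RI.trans h6 ?_
    simp only [add_mul, Finset.sum_add_distrib]
    rw [← hξ, hs2, hξ0, map_add, map_sum, map_sum, map_sum, ← Finset.sum_add_distrib,
      ← Finset.sum_add_distrib, ← Finset.sum_sub_distrib]
    refine Submodule.sum_mem _ fun j hj => ?_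
    refine RI.cast (ext_mul U.C (U.idz_pow j _ g11) (-(x' * U.C (y1 * γ0 * β j)))) ?_
    rw [hβ1 j hj, hβ2]
    simp only [map_mul, map_add, map_sub, map_neg, g12, g13, add_mul, mul_add, sub_mul,
      mul_sub, one_mul, mul_assoc, ra g14, ra g15, zero_mul, mul_zero, pow_add, mul_neg]
    abel

end US
end Z87
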