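import Pool.Agent.Lib.MP_1e63be_al.Z87.U1

/-! The sealing step: states and basic moves. -/

namespace Z87

variable {F R P : Type} [Field F] [Ring R] [Algebra F R] [Ring P] [Algebra F P]

theorem collect {α : Type} {S : Set α} (hS : S.Finite) (Q : α → RI R → R → Prop)
    (h : ∀ x ∈ S, ∃ K β, Essn K ∧ β ≠ 0 ∧ Q x K β) :
    ∃ (K0 : RI R) (B : Finset R), Essn K0 ∧ (∀ β ∈ B, β ≠ 0) ∧
      ∀ x ∈ S, ∃ K β, K0 ≤ K ∧ β ∈ B ∧ Q x K β := by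
  classical
  induction S, hS using Set.Finite.induction_on with
  | empty => exact ⟨⊤, ∅, Essn.top, by simp, by simp⟩
  | insert _ _ ih =>
    obtain ⟨K0, B, h1, h2, h3⟩ := ih fun x hx => h x (Set.mem_insert_of_mem _ hx)
    obtain ⟨K, β, g1, g2, g3⟩ := h _ (Set.mem_insert _ _)
    refine ⟨K ⊓ K0, insert β B, g1.inf h1, fun γ hγ => ?_, fun x hx => ?_⟩
    · rcases Finset.mem_insert.1 hγ with rfl | hγ
      · exact g2
      · exact h2 γ hγ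
    · rcases hx with rfl | hx
      · exact ⟨K, β, inf_le_left, Finset.mem_insert_self _ _, g3⟩
      · obtain ⟨K', β', e1, e2, e3⟩ := h3 x hx
        exact ⟨K', β', inf_le_right.trans e1, Finset.mem_insert_of_mem e2, e3⟩

namespace US

structure St (U : US F R P) where
  a : R
  n : ℕ
  bt : ℕ → R
  b : R
  x : P
  tr : Set (P × P)
  ha : a * a = a
  haJ : a ∉ U.J
  idem : ∀ τ, bt τ * bt τ = bt τ
  orth : ∀ τ σ, τ ≠ σ → bt τ * bt σ = 0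
  zero : ∀ τ, n ≤ τ → bt τ = 0
  hb : b = ∑ τ ∈ Finset.range n, bt τ
  hx : x = U.C a * U.X * U.C b
  b0 : b ≠ 0
  fin : tr.Finite
  trk : ∀ pr ∈ tr, ∃ T, U.Mem b x bt T pr.1 ∧ U.Mem b x bt Tᶜ pr.2

variable {U : US F R P}

theorem St.b_bt (s : U.St) (τ : ℕ) : s.b * s.bt τ = s.bt τ := by
  rw [s.hb, Finset.sum_mul, Finset.sum_eq_single τ, s.idem]
  · intro σ _ h; exact s.orth _ _ h
  · intro h; rw [s.zero τ (by simpa using h), mul_zero]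

theorem St.bt_b (s : U.St) (τ : ℕ) : s.bt τ * s.b = s.bt τ := by
  rw [s.hb, Finset.mul_sum, Finset.sum_eq_single τ, s.idem]
  · intro σ _ h; exact s.orth _ _ h.symm
  · intro h; rw [s.zero τ (by simpa using h), mul_zero]

theorem St.bb (s : U.St) : s.b * s.b = s.b := by
  conv_lhs => rw [s.hb, Finset.sum_mul, ← s.hb]
  simp only [s.bt_b, ← s.hb]

theorem St.ax (s : U.St) : U.C s.a * s.x = s.x := by
  rw [s.hx, ← mul_assoc, ← mul_assoc, ← map_mul, s.ha]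

theorem St.xb (s : U.St) : s.x * U.C s.b = s.x := by
  rw [s.hx, mul_assoc, ← map_mul, s.bb]

theorem St.comm (s : U.St) {π : R} (h : ∀ τ, π * s.bt τ = s.bt τ * π) : π * s.b = s.b * π := by
  rw [s.hb, Finset.mul_sum, Finset.sum_mul]; exact Finset.sum_congr rfl fun τ _ => h τ

theorem St.sub (s : U.St) {q : P} (h1 : U.C s.a * q = q) (h2 : q * U.C s.b = q) :
    U.sub q s.x = q := by
  rw [s.hx, map_mul, map_mul, U.subC, U.subC, U.subX, h1, h2]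

theorem St.ev (s : U.St) {δ : R} (h1 : s.a * δ = δ) (h2 : δ * s.b = δ) : U.ev δ s.x = δ := by
  rw [s.hx, map_mul, map_mul, U.evC, U.evC, U.evX, h1, h2]

variable (U) in
def game : Game U.C where
  St := U.St
  Mv s φ s' := (∀ c, φ (U.C c) = U.C c) ∧ (∀ p, φ p ∈ Cl U.C s'.x) ∧
    ∀ pr ∈ s.tr, (φ pr.1, φ pr.2) ∈ s'.tr
  fix h := h.1
  comp h h' := ⟨fun c => by rw [AlgHom.comp_apply, h.1, h'.1], fun _ => h'.2.1 _,
    fun pr hpr => h'.2.2 _ (h.2.2 pr hpr)⟩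

theorem sub_cl {q x' : P} (h : q ∈ Cl U.C x') (p : P) : U.sub q p ∈ Cl U.C x' :=
  Cl.map (U.subC q) (by rwa [U.subX]) (U.gen p)

/-- the state after removing `π` from the types -/
def St.cut (s : U.St) (a' π : R) (φ : P →ₐ[F] P) (h1 : a' * a' = a') (h2 : a' ∉ U.J)
    (h3 : π * π = π) (h4 : ∀ τ, π * s.bt τ = s.bt τ * π) (h5 : s.b * (1 - π) ≠ 0)
    (h6 : ∀ pr ∈ s.tr, ∃ T,
      U.Mem (s.b * (1 - π)) (U.C a' * U.X * U.C (s.b * (1 - π))) (fun τ => s.bt τ * (1 - π)) T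
        (φ pr.1) ∧
      U.Mem (s.b * (1 - π)) (U.C a' * U.X * U.C (s.b * (1 - π))) (fun τ => s.bt τ * (1 - π)) Tᶜ
        (φ pr.2)) : U.St where
  a := a'
  n := s.n
  bt := fun τ => s.bt τ * (1 - π)
  b := s.b * (1 - π)
  x := U.C a' * U.X * U.C (s.b * (1 - π))
  tr := (fun pr => (φ pr.1, φ pr.2)) '' s.tr
  ha := h1
  haJ := h2
  idem := fun τ => by
    simp only [mul_sub, sub_mul, mul_one, mul_assoc, ra (h4 τ), h4 τ, ra (s.idem τ), s.idem, h3]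
    abel
  orth := fun τ σ h => by
    simp only [mul_sub, sub_mul, mul_one, mul_assoc, ra (h4 σ), h4 σ, ra (s.orth τ σ h),
      s.orth τ σ h, zero_mul, sub_self]
  zero := fun τ h => by rw [s.zero τ h, zero_mul]
  hb := by rw [s.hb, Finset.sum_mul]
  hx := rfl
  b0 := h5
  fin := s.fin.image _
  trk := by rintro _ ⟨pr, hpr, rfl⟩; exact h6 pr hpr

theorem St.move (s : U.St) : ∃ (K : RI R) (B : Finset R), Essn K ∧ (∀ β ∈ B, β ≠ 0) ∧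
    ∀ a' π δ : R, a' * a' = a' → a' ∉ U.J → s.a * a' = a' → π * π = π →
      (∀ τ, π * s.bt τ = s.bt τ * π) → π ∈ K → (∀ β ∈ B, (1 - π) * β ≠ 0) → δ * π ∈ U.J →
      s.a * δ = δ → δ * s.b = δ →
      ∃ φ s', U.game.Mv s φ s' ∧ s'.a = a' ∧ (∀ τ, s'.bt τ = s.bt τ * (1 - π)) ∧
        s'.b = s.b * (1 - π) ∧ φ s.x = U.C δ + s'.x := by
  classical
  choose! T hT1 hT2 using s.trk
  obtain ⟨K1, B1, k1, b1, h1⟩ := collect s.fin _ fun pr hpr => (hT1 pr hpr).move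
  obtain ⟨K2, B2, k2, b2, h2⟩ := collect s.fin _ fun pr hpr => (hT2 pr hpr).move
  refine ⟨K1 ⊓ K2, insert s.b (B1 ∪ B2), k1.inf k2, fun β hβ => ?_,
    fun a' π δ g1 g2 g3 g4 g5 g6 g7 g8 g9 g10 => ?_⟩
  · rcases Finset.mem_insert.1 hβ with rfl | hβ
    · exact s.b0
    · rcases Finset.mem_union.1 hβ with hβ | hβ
      exacts [b1 β hβ, b2 β hβ]
  have c := s.comm g5
  obtain ⟨x', hx'⟩ : ∃ x', x' = U.C a' * U.X * U.C (s.b * (1 - π)) := ⟨_, rfl⟩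
  have e1 : U.sub (U.C δ + x') s.x = U.C δ + x' := by
    refine s.sub ?_ ?_
    · rw [mul_add, hx', ← mul_assoc, ← mul_assoc, ← map_mul, ← map_mul, g9, g3]
    · rw [add_mul, hx', mul_assoc, ← map_mul, ← map_mul, g10]
      simp only [mul_sub, sub_mul, mul_one, mul_assoc, c, s.bb, ra s.bb]
  have e2 : x' * U.C π = 0 := by
    rw [hx', mul_assoc, ← map_mul]; simp [mul_sub, sub_mul, mul_assoc, g4]
  have e3 : x' ∈ Cl U.C (U.C a' * U.X * U.C (s.b * (1 - π))) := by rw [hx']; exact Cl.x _ _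
  refine ⟨U.sub (U.C δ + x'), s.cut a' π (U.sub (U.C δ + x')) g1 g2 g4 g5 ?_ fun pr hpr => ?_,
    ⟨U.subC _, sub_cl (Subring.add_mem _ (Cl.C _ _ _) e3), fun pr hpr => ⟨pr, hpr, rfl⟩⟩,
    rfl, fun _ => rfl, rfl, e1.trans (congrArg (U.C δ + ·) hx')⟩
  · have := g7 s.b (Finset.mem_insert_self _ _)
    rwa [sub_mul, c, one_mul, ← mul_one_sub] at this
  · obtain ⟨K, β, f1, f2, f3⟩ := h1 pr hpr
    obtain ⟨K', β', f1', f2', f3'⟩ := h2 pr hpr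
    rw [← hx']
    exact ⟨T pr, f3 π δ _ x' (f1 g6.1) (g7 β (by simp [f2])) g8 g4 c g5 (U.subC _) e1 e2,
      f3' π δ _ x' (f1' g6.2) (g7 β' (by simp [f2'])) g8 g4 c g5 (U.subC _) e1 e2⟩

theorem St.shift (s : U.St) {a' δ : R} (g1 : a' * a' = a') (g2 : a' ∉ U.J) (g3 : s.a * a' = a')
    (g9 : s.a * δ = δ) (g10 : δ * s.b = δ) :
    ∃ φ s', U.game.Mv s φ s' ∧ s'.a = a' ∧ (∀ τ, s'.bt τ = s.bt τ) ∧ s'.b = s.b ∧
      φ s.x = U.C δ + s'.x := by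
  obtain ⟨K, B, -, hB, h⟩ := s.move
  simpa using h a' 0 δ g1 g2 g3 (by simp) (by simp) K.zero_mem (by simpa using hB) (by simp) g9 g10

/-- shrink `a` into `a w R` -/
theorem St.shrink (s : U.St) {w δ : R} (g2 : s.a * w ∉ U.J) (g9 : s.a * δ = δ)
    (g10 : δ * s.b = δ) :
    ∃ φ s', U.game.Mv s φ s' ∧ (∃ c, s'.a = s.a * w * c) ∧ (∀ τ, s'.bt τ = s.bt τ) ∧
      s'.b = s.b ∧ φ s.x = U.C δ + s'.x := by
  obtain ⟨c, h1, h2⟩ := U.G.reg.idem (s.a * w)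
  obtain ⟨φ, s', e1, e2, e3⟩ := s.shift h1 (fun e => g2 (h2 ▸ RI.mul e _))
    (by simp only [mul_assoc, ra s.ha]) g9 g10
  exact ⟨φ, s', e1, ⟨c, e2⟩, e3⟩

theorem St.id (s : U.St) : ∃ φ s', U.game.Mv s φ s' ∧ s'.a = s.a ∧ (∀ τ, s'.bt τ = s.bt τ) ∧
    s'.x = s.x ∧ φ s.x = s.x := by
  obtain ⟨φ, s', h1, h2, h3, h4, h5⟩ := s.shift (δ := 0) s.ha s.haJ s.ha (by simp) (by simp)
  have : s'.x = s.x := by rw [s'.hx, s.hx, h2, h4]
  exact ⟨φ, s', h1, h2, h3, this, by simpa [this] using h5⟩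

theorem St.split (s : U.St) {τ0 : ℕ} {y0 y1 γ : R} (h0 : s.bt τ0 * y0 = y0)
    (h1 : s.bt τ0 * y1 = y1) (h2 : γ * y0 = 1) (h3 : γ * y1 = 0) (h4 : y1 ≠ 0) :
    ∃ φ s', U.game.Mv s φ s' ∧ φ s.x = s.x ∧ (s.x * U.C y0, s.x * U.C y1) ∈ s'.tr := by
  classical
  obtain ⟨φ, s1, hm, e1, e2, e3, e4⟩ := s.id
  rw [← e2] at h0 h1
  rw [← e3] at e4 ⊢
  have y00 : y0 ≠ 0 := by rintro rfl; exact U.G.nt (by simpa using h2.symm)
  have lt : τ0 < s1.n := by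
    by_contra h
    rw [s1.zero τ0 (by omega), zero_mul] at h0
    exact y00 h0.symm
  obtain ⟨f, hf⟩ : ∃ f, f = y0 * γ * s1.bt τ0 := ⟨_, rfl⟩
  have f1 : f * f = f := by simp only [hf, mul_assoc, ra h0, ra h2, one_mul]
  have f2 : f * s1.bt τ0 = f := by simp only [hf, mul_assoc, s1.idem]
  have f3 : s1.bt τ0 * f = f := by simp only [hf, mul_assoc, ra h0]
  have f4 : ∀ τ, τ ≠ τ0 → f * s1.bt τ = 0 := fun τ h => by
    rw [← f2, mul_assoc, s1.orth _ _ h.symm, mul_zero]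
  have f5 : ∀ τ, τ ≠ τ0 → s1.bt τ * f = 0 := fun τ h => by
    rw [← f3, ra (s1.orth _ _ h), zero_mul]
  obtain ⟨bt', b1, b2, b3⟩ : ∃ bt' : ℕ → R, bt' s1.n = f ∧ bt' τ0 = s1.bt τ0 - f ∧
      ∀ τ, τ ≠ s1.n → τ ≠ τ0 → bt' τ = s1.bt τ :=
    ⟨fun τ => if τ = s1.n then f else if τ = τ0 then s1.bt τ0 - f else s1.bt τ, by simp,
      by simp [lt.ne], fun τ h h' => by simp [h, h']⟩
  have cases : ∀ τ, τ = s1.n ∨ τ = τ0 ∨ (τ ≠ s1.n ∧ τ ≠ τ0) := fun τ => by omega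
  have re : ∀ τ, ∃ c, bt' τ = c * s1.bt (if τ = s1.n then τ0 else τ) := fun τ => by
    rcases cases τ with rfl | rfl | ⟨h, h'⟩
    · exact ⟨f, by simp [b1, f2]⟩
    · exact ⟨1 - f, by simp [b2, lt.ne, sub_mul, f2]⟩
    · exact ⟨1, by simp [b3 τ h h', h]⟩
  have new : ∀ (T : Set ℕ) (y : R), s1.bt τ0 * y = y → y ≠ 0 → (∀ τ, τ ∉ T → bt' τ * y = 0) →
      U.Mem s1.b s1.x bt' T (s1.x * U.C y) := fun T y e e' e'' =>
    ⟨{0}, fun _ => y, fun _ => 0, by simpa using U.d0, fun _ _ => by rw [← e, ra (s1.b_bt _)],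
      ⟨0, by simp, e'⟩, fun τ hτ _ _ => e'' τ hτ, by simp⟩
  refine ⟨φ, ⟨s1.a, s1.n + 1, bt', s1.b, s1.x, insert (s1.x * U.C y0, s1.x * U.C y1) s1.tr,
    s1.ha, s1.haJ, fun τ => ?_, fun τ σ h => ?_, fun τ h => ?_, ?_, s1.hx, s1.b0, s1.fin.insert _,
    ?_⟩, ⟨hm.1, hm.2.1, fun pr hpr => .inr (hm.2.2 pr hpr)⟩, e4, .inl rfl⟩
  · rcases cases τ with rfl | rfl | ⟨h, h'⟩
    · rw [b1, f1]
    · simp [b2, mul_sub, sub_mul, s1.idem, f1, f2, f3]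
    · rw [b3 τ h h', s1.idem]
  · rcases cases τ with rfl | rfl | ⟨g, g'⟩ <;> rcases cases σ with rfl | rfl | ⟨k, k'⟩
    · exact absurd rfl h
    · simp [b1, b2, mul_sub, f1, f2]
    · rw [b1, b3 σ k k', f4 σ k']
    · simp [b1, b2, sub_mul, f1, f3]
    · exact absurd rfl h
    · simp [b2, b3 σ k k', sub_mul, f4 σ k', s1.orth _ _ h]
    · rw [b1, b3 τ g g', f5 τ g']
    · simp [b2, b3 τ g g', mul_sub, f5 τ g', s1.orth _ _ h]
    · rw [b3 τ g g', b3 σ k k', s1.orth _ _ h]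
  · rw [b3 τ (by omega) (by omega), s1.zero τ (by omega)]
  · rw [Finset.sum_range_succ, b1, s1.hb, ← Finset.add_sum_erase _ _ (Finset.mem_range.2 lt),
      ← Finset.add_sum_erase _ bt' (Finset.mem_range.2 lt), b2,
      Finset.sum_congr rfl fun τ hτ => b3 τ (by
        have := Finset.mem_range.1 (Finset.mem_of_mem_erase hτ); omega) (Finset.ne_of_mem_erase hτ)]
    abel
  · rintro pr (rfl | hpr)
    · refine ⟨{s1.n}, new _ y0 h0 y00 fun τ hτ => ?_, new _ y1 h1 h4 fun τ hτ => ?_⟩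
      · rcases cases τ with rfl | rfl | ⟨h, h'⟩
        · exact absurd rfl hτ
        · simp [b2, hf, sub_mul, mul_assoc, h0, h2]
        · rw [b3 τ h h', ← h0, ra (s1.orth _ _ h'), zero_mul]
      · have : τ = s1.n := by simpa using hτ
        simp [this, b1, hf, mul_assoc, h1, h3]
    · obtain ⟨T, t1, t2⟩ := s1.trk pr hpr
      exact ⟨_, t1.retype _ re, t2.retype _ re⟩

theorem St.link (s : U.St) (hD : U.D = Set.univ) (hJ : MaxR U.J) {τ0 : ℕ} {y0 y1 γ0 γ1 : R}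
    (h0 : s.bt τ0 * y0 = y0) (h1 : s.bt τ0 * y1 = y1) (g1 : γ0 * y0 = 1) (g2 : γ1 * y1 = 1)
    (g3 : γ0 * y1 = 0) (g4 : γ1 * y0 = 0) :
    ∃ φ s' N, U.game.Mv s φ s' ∧
      φ s.x * U.C y0 + U.C (U.θ ^ N) * φ s.x * U.C y1 - U.C s.a ∈ ext U.C U.J := by
  choose! T hT1 hT2 using s.trk
  choose! N1 hN1 using fun pr hpr => (hT1 pr hpr).link hD
  choose! N2 hN2 using fun pr hpr => (hT2 pr hpr).link hD
  obtain ⟨N, hN⟩ : ∃ N, ∀ pr ∈ s.tr, N1 pr ≤ N ∧ N2 pr ≤ N := by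
    obtain ⟨M1, hM1⟩ := (s.fin.image N1).bddAbove
    obtain ⟨M2, hM2⟩ := (s.fin.image N2).bddAbove
    exact ⟨max M1 M2, fun pr hpr => ⟨le_max_of_le_left (hM1 ⟨pr, hpr, rfl⟩),
      le_max_of_le_right (hM2 ⟨pr, hpr, rfl⟩)⟩⟩
  obtain ⟨c0, hc0⟩ := hJ.2 s.a s.haJ
  obtain ⟨m, hm, hm'⟩ : ∃ m, s.a * m = m ∧ m - U.θ ^ N * s.a ∈ U.J :=
    ⟨s.a * c0 * (U.θ ^ N * s.a), by simp only [mul_assoc, ra s.ha],
      RI.cast (RI.mul hc0 (U.θ ^ N * s.a)) (by noncomm_ring)⟩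
  obtain ⟨γ, k1, k2, k3⟩ : ∃ γ, γ * y0 = 1 ∧ γ * y1 = 0 ∧ γ * s.bt τ0 = γ :=
    ⟨γ0 * s.bt τ0, by rw [mul_assoc, h0, g1], by rw [mul_assoc, h1, g3],
      by rw [mul_assoc, s.idem]⟩
  have k4 : γ * s.b = γ := by rw [← k3, mul_assoc, s.bt_b]
  have k5 : s.b * y0 = y0 := by rw [← h0, ra (s.b_bt _)]
  have k6 : s.b * y1 = y1 := by rw [← h1, ra (s.b_bt _)]
  have k7 : ∀ τ, τ ≠ τ0 → s.bt τ * y1 = 0 := fun τ h => by rw [← h1, ra (s.orth _ _ h), zero_mul]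
  have k8 : ∀ τ, y0 * γ * s.bt τ = s.bt τ * (y0 * γ) := fun τ => by
    by_cases h : τ = τ0
    · rw [h, mul_assoc, k3, ra h0]
    · rw [← k3, ← h0]
      simp only [mul_assoc, s.orth _ _ (Ne.symm h), ra (s.orth _ _ h), mul_zero, zero_mul]
  obtain ⟨x', hx'⟩ : ∃ x', x' = U.C s.a * U.X * U.C (s.b * (1 - y0 * γ)) := ⟨_, rfl⟩
  have x1 : U.C s.a * x' = x' := by rw [hx', ← mul_assoc, ← mul_assoc, ← map_mul, s.ha]
  have x2 : x' * U.C y0 = 0 := by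
    rw [hx', mul_assoc, ← map_mul]; simp [mul_sub, sub_mul, mul_assoc, k1]
  have x3 : x' * U.C s.b = x' := by
    rw [hx', mul_assoc, ← map_mul]
    simp only [mul_sub, sub_mul, mul_one, mul_assoc, k4, s.bb]
  obtain ⟨q, hq⟩ : ∃ q, q = x' + (U.C s.a - U.C m * x' * U.C y1) * U.C γ := ⟨_, rfl⟩
  have e1 : U.sub q s.x = q := by
    refine s.sub ?_ ?_
    · simp only [hq, mul_add, mul_sub, sub_mul, x1, ← mul_assoc, ← map_mul, s.ha, hm]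
    · simp only [hq, add_mul, x3, mul_assoc, ← map_mul, k4]
  refine ⟨U.sub q, s.cut s.a (y0 * γ) (U.sub q) s.ha s.haJ (by simp only [mul_assoc, ra k1, one_mul])
    k8 (fun e => ?_) fun pr hpr => ?_, N, ⟨U.subC _, sub_cl ?_, fun pr hpr => ⟨pr, hpr, rfl⟩⟩, ?_⟩
  · have := congrArg (fun z => γ1 * (z * y1)) e
    simp [mul_sub, sub_mul, mul_assoc, k2, k6, g2] at this
    exact U.G.nt this
  · rw [← hx']
    exact ⟨T pr, hN1 pr hpr N (hN pr hpr).1 y0 y1 γ γ1 s.a m τ0 _ x' k1 g2 k2 g4 k5 k6 k4 k3 k7 k8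
        hm' (U.subC _) (e1.trans hq) x2 x1,
      hN2 pr hpr N (hN pr hpr).2 y0 y1 γ γ1 s.a m τ0 _ x' k1 g2 k2 g4 k5 k6 k4 k3 k7 k8
        hm' (U.subC _) (e1.trans hq) x2 x1⟩
  · have hx : x' ∈ Cl U.C (U.C s.a * U.X * U.C (s.b * (1 - y0 * γ))) := by
      rw [hx']; exact Cl.x _ _
    change q ∈ Cl U.C (U.C s.a * U.X * U.C (s.b * (1 - y0 * γ)))
    rw [hq]
    exact Subring.add_mem _ hx (Subring.mul_mem _ (Subring.sub_mem _ (Cl.C _ _ _)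
      (Subring.mul_mem _ (Subring.mul_mem _ (Cl.C _ _ _) hx) (Cl.C _ _ _))) (Cl.C _ _ _))
  · rw [e1, hq]
    refine RI.cast (ext_mul U.C hm' (-(x' * U.C y1))) ?_
    have a1 : U.C γ * U.C y0 = 1 := by rw [← map_mul, k1, map_one]
    have a2 : U.C γ * U.C y1 = 0 := by rw [← map_mul, k2, map_zero]
    simp only [map_sub, map_mul, add_mul, mul_add, sub_mul, mul_assoc, x2, a1, a2, ra x1, mul_one,
      mul_zero, mul_neg, sub_self, add_zero]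
    abel

end US
end Z87
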