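import Pool.Agent.Lib.MP_1e63be_al.Z87.U2

/-! The sealing step: typed representations with independent rows. -/

namespace Z87

variable {F R P : Type} [Field F] [Ring R] [Algebra F R] [Ring P] [Algebra F P]

theorem Fam.E_sub (ι : Fam R) {Λ Λ' : Finset ℕ} (h : Λ ⊆ Λ') {a : R} (ha : a * a = a) :
    ι.E Λ a * ι.E Λ' a = ι.E Λ a := by
  conv_lhs => rw [ι.E_mul, ι.j0_E]
  conv_rhs => rw [Fam.E]
  congr 1
  exact Finset.sum_congr rfl fun l hl => by rw [ι.j_E a (h hl), ra ha]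

theorem Rep.drop {ι : Fam R} {C : R →ₐ[F] P} {Λ : Finset ℕ} {x : P} {row : ℕ → R} {σ : P}
    (h : Rep ι C Λ (fun _ => x) row σ) {k : ℕ} (hk : k ∈ Λ) {g : R}
    (hg : ∀ l ∈ Λ.erase k, C (row l) * σ =
      C (row l * g) * (σ - C (ι.i (k + 1)) * (x * (C (row k) * σ))))
    (ht : Tri ι (Λ.erase k) fun l => row l * g) :
    Rep ι C (Λ.erase k) (fun _ => x) (fun l => row l * g)
      (σ - C (ι.i (k + 1)) * (x * (C (row k) * σ))) := by
  refine ⟨?_, ht⟩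
  rw [Finset.sum_congr rfl fun l hl => by rw [← hg l hl], sub_eq_iff_eq_add, add_assoc,
    Finset.sum_erase_add _ _ hk]
  exact h.eq

theorem Rep.reduce {ι : Fam R} {C : R →ₐ[F] P} {x : P} {a : R} (ha : a * a = a)
    (hx : C a * x = x) {Λ : Finset ℕ} {row : ℕ → R} {σ : P} (h : Rep ι C Λ (fun _ => x) row σ) :
    ∃ (Λ' : Finset ℕ) (g : R) (σ' : P), Λ' ⊆ Λ ∧ Rep ι C Λ' (fun _ => x) (fun l => row l * g) σ' ∧
      σ = C g * σ' ∧ Ind F Λ' (fun l => row l * g) ∧ g * ι.E Λ' a = g := by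
  classical
  induction' hn : Λ.card using Nat.strong_induction_on with n ih generalizing Λ row σ
  have hE := h.E (a := a) fun _ _ => hx
  have h' : Rep ι C Λ (fun _ => x) (fun l => row l * ι.E Λ a) σ :=
    h.congr (h.tri.mul_E Λ a) fun l _ => by rw [map_mul, mul_assoc, hE]
  by_cases hI : Ind F Λ fun l => row l * ι.E Λ a
  · exact ⟨Λ, ι.E Λ a, σ, subset_rfl, h', hE.symm, hI, ι.E_E Λ ha⟩
  obtain ⟨k, hk, m, hm, hm'⟩ : ∃ k ∈ Λ, ∃ m : ℕ → F, row k * ι.E Λ a =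
      ∑ l ∈ Λ.erase k, m l • (row l * ι.E Λ a) ∧ ∀ l ∈ Λ, k < l → m l = 0 := by
    simp only [Ind, not_forall] at hI
    obtain ⟨c, hc, l0, hl0, hne⟩ := hI
    obtain ⟨k, hk, hmax⟩ := (Λ.filter fun l => c l ≠ 0).exists_max_image id ⟨l0, by simp [hl0, hne]⟩
    obtain ⟨hk, hck⟩ := Finset.mem_filter.1 hk
    refine ⟨k, hk, fun b => -((c k)⁻¹ * c b), ?_, fun l hl hlt => ?_⟩
    · rw [← Finset.add_sum_erase _ _ hk] at hc
      have := congrArg ((c k)⁻¹ • ·) hc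
      simp only [smul_add, smul_smul, inv_mul_cancel₀ hck, one_smul, smul_zero,
        Finset.smul_sum] at this
      rw [eq_neg_of_add_eq_zero_left this, ← Finset.sum_neg_distrib]
      simp
    · have : c l = 0 := by_contra fun e => absurd (hmax l (by simp [hl, e])) (by simpa using hlt)
      simp [this]
  obtain ⟨g, hg⟩ : ∃ g, g = 1 + ι.i (k + 1) * ∑ l ∈ Λ.erase k, m l • ι.j (l + 1) := ⟨_, rfl⟩
  have e : C g * (σ - C (ι.i (k + 1)) * (x * (C (row k * ι.E Λ a) * σ))) = σ := by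
    have : C (∑ l ∈ Λ.erase k, m l • ι.j (l + 1)) *
        (σ - C (ι.i (k + 1)) * (x * (C (row k * ι.E Λ a) * σ))) = x * (C (row k * ι.E Λ a) * σ) := by
      conv_rhs => rw [hm]
      simp only [map_sum, map_smul, Finset.sum_mul, Finset.mul_sum, smul_mul_assoc, mul_smul_comm]
      refine Finset.sum_congr rfl fun l hl => ?_
      rw [mul_sub, h'.coord (Finset.mem_of_mem_erase hl), ← mul_assoc (C (ι.j _)), ← map_mul,
        ι.ne (by simpa using Finset.ne_of_mem_erase hl)]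
      simp
    rw [hg, map_add, map_one, map_mul C (ι.i _), add_mul, one_mul, mul_assoc, this, sub_add_cancel]
  obtain ⟨Λ', g', σ', k1, k2, k3, k4, k5⟩ := ih _ (hn ▸ Finset.card_erase_lt_of_mem hk)
    (h'.drop hk (g := g) (fun l _ => by rw [map_mul _ _ g, mul_assoc, e]) fun l hl n hn => by
      have t := h'.tri l (Finset.mem_of_mem_erase hl)
      rw [hg, mul_assoc, add_mul, one_mul, mul_add, t n hn, zero_add, mul_assoc (ι.i _)]
      rcases le_or_gt l k with h1 | h1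
      · rw [ra (t k h1), zero_mul]
      · rw [Finset.sum_mul, Finset.sum_eq_zero, mul_zero, mul_zero]
        intro l' hl'
        by_cases h2 : l' = n
        · rw [hm' l' (Finset.mem_of_mem_erase hl') (by omega)]; simp
        · rw [smul_mul_assoc, ι.ne (by omega), smul_zero]) rfl
  refine ⟨Λ', ι.E Λ a * g * g', σ', k1.trans (Finset.erase_subset _ _), ?_, ?_, ?_, ?_⟩
  · simpa only [mul_assoc] using k2
  · rw [map_mul, map_mul, mul_assoc, ← k3, mul_assoc, e, hE]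
  · simpa only [mul_assoc] using k4
  · rw [mul_assoc, k5]

namespace US
variable {U : US F R P}

/-- typed representation with independent normalised rows -/
structure TR (s : U.St) (ι : Fam R) (Λ : Finset ℕ) (row : ℕ → R) (τ : ℕ → ℕ) (σ : P) : Prop where
  rep : Rep ι U.C Λ (fun _ => s.x) row σ
  typ : ∀ l ∈ Λ, s.bt (τ l) * row l = row l
  ind : Ind F Λ row
  nor : ∀ l ∈ Λ, row l * ι.E Λ s.a = row l

theorem St.reduce (s : U.St) {ι : Fam R} {Λ : Finset ℕ} {row : ℕ → R} {τ : ℕ → ℕ} {σ : P}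
    (h : Rep ι U.C Λ (fun _ => s.x) row σ) (ht : ∀ l ∈ Λ, s.bt (τ l) * row l = row l) (n : R) :
    ∃ Λ' row' σ' n', Λ' ⊆ Λ ∧ TR s ι Λ' row' τ σ' ∧ U.C n * σ = U.C n' * σ' ∧
      n' * ι.E Λ' s.a = n' := by
  obtain ⟨Λ', g, σ', h1, h2, h3, h4, h5⟩ := h.reduce s.ha s.ax
  exact ⟨Λ', _, σ', n * g, h1, ⟨h2, fun l hl => by rw [ra (ht l (h1 hl))], h4,
    fun l _ => by rw [mul_assoc, h5]⟩, by rw [h3, map_mul, mul_assoc], by rw [mul_assoc, h5]⟩

theorem St.rep (s : U.St) (ι : Fam R) {p : P} (hp : p ∈ Cl U.C s.x) :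
    ∃ Λ row τ σ n, TR s ι Λ row τ σ ∧ p = U.C n * σ ∧ n * ι.E Λ s.a = n := by
  have : Cl U.C s.x ≤ Subring.closure (Set.range U.C ∪ Set.range fun τ => s.x * U.C (s.bt τ)) :=
    Subring.closure_le.2 (by
      rintro _ (h | rfl)
      · exact Subring.subset_closure (.inl h)
      · have e : s.x = ∑ τ ∈ Finset.range s.n, s.x * U.C (s.bt τ) := by
          rw [← Finset.mul_sum, ← map_sum, ← s.hb, s.xb]
        rw [SetLike.mem_coe, e]
        exact Subring.sum_mem _ fun τ _ => Subring.subset_closure (.inr ⟨τ, by rw [← e]⟩))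
  obtain ⟨Λ, xl, row, σ, n, h1, h2, rfl⟩ := Z87.rep ι U.C _ (this hp)
  choose! τ hτ using h2
  obtain ⟨Λ', row', σ', n', -, k⟩ := s.reduce (τ := τ) (row := fun l => s.bt (τ l) * row l)
    (h1.congr (fun l hl m hm => by rw [mul_assoc, h1.tri l hl m hm, mul_zero]) fun l hl => by
      rw [← hτ l hl, map_mul]; simp only [mul_assoc]) (fun l _ => by rw [ra (s.idem _)]) n
  exact ⟨Λ', row', τ, σ', n', k⟩

variable {s : U.St} {ι : Fam R} {Λ : Finset ℕ} {row : ℕ → R} {τ : ℕ → ℕ} {σ : P}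

theorem TR.kill (h : TR s ι Λ row τ σ) {T : Type} [Ring T] [Algebra F T] {f : R →ₐ[F] T}
    (φ : P →ₐ[F] T) (hφ : ∀ c, φ (U.C c) = f c) (u : R)
    (hu : ∀ l ∈ Λ, φ s.x * f (row l * u) = f (s.a * (ι.j (l + 1) * u))) :
    φ σ * f (ι.j 0 * u) = f (ι.E Λ s.a * u) := by
  refine (h.rep.map φ hφ).kill ?_
  conv_lhs => rw [ι.E_mul]
  rw [map_add, map_sum, map_mul]
  congr 1
  exact Finset.sum_congr rfl fun l hl => by rw [← map_mul, ra (h.nor l hl), hu l hl, map_mul]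

theorem TR.ev [Infinite F] (h : TR s ι Λ row τ σ) {Q : RI R} {n : R}
    (hn : U.C n * σ ∈ ext U.C Q) : n * ι.E Λ s.a ∈ Q := by
  by_contra hne
  obtain ⟨u, -, h1, W, hW⟩ := U.G.indK h.ind Essn.top [pre (n * ι.E Λ s.a) Q]
    (fun V hV => ⟨1, trivial, by rw [List.mem_singleton.1 hV]; simpa using hne⟩)
  apply h1 _ (List.mem_singleton_self _)
  obtain ⟨δ, hδ⟩ : ∃ δ, δ = (∑ l ∈ Λ, s.a * (ι.j (l + 1) * u) * W l) * s.b := ⟨_, rfl⟩
  have e := s.ev (δ := δ) (by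
    rw [hδ, ← mul_assoc, Finset.mul_sum]; simp only [mul_assoc, ra s.ha]) (by
    rw [hδ, mul_assoc, s.bb])
  have k := h.kill (f := AlgHom.id F R) (U.ev δ) (U.evC δ) u fun l hl => by
    rw [e, hδ, mul_assoc, AlgHom.id_apply, AlgHom.id_apply, ← h.typ l hl, mul_assoc, ra (s.b_bt _),
      ← mul_assoc (s.bt _), h.typ l hl, hW.sum_mul _ hl]
  have := ext_id (ext_map U.C (fun c => c) (U.ev δ) (U.evC δ) hn)
  rw [map_mul, U.evC] at this
  simp only [AlgHom.id_apply] at k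
  rw [mem_pre, mul_assoc, ← k, ← mul_assoc]
  exact RI.mul this _

theorem St.kill (s : U.St) : ∃ (K : RI R) (B : Finset R), Essn K ∧ (∀ β ∈ B, β ≠ 0) ∧
    ∀ (Λ Λ' : Finset ℕ) (y z W : ℕ → R) (τ : ℕ → ℕ), Λ' ⊆ Λ → DualOn Λ W y →
      (∀ l ∈ Λ, s.bt (τ l) * y l = y l) → (∀ l ∈ Λ', y l ∈ K) →
      (∀ l ∈ Λ', z l ∈ U.J ∧ s.a * z l = z l) →
      (∀ β ∈ B, ∃ ω, ω * β ≠ 0 ∧ ∀ l ∈ Λ, ω * y l = 0) →
      ∃ φ s', U.game.Mv s φ s' ∧ s'.a = s.a ∧ (∀ l ∈ Λ', φ s.x * U.C (y l) = U.C (z l)) ∧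
        ∀ l ∈ Λ, l ∉ Λ' → φ s.x * U.C (y l) = s'.x * U.C (y l) ∧ s'.bt (τ l) * y l = y l := by
  obtain ⟨K, B, hK, hB, h⟩ := s.move
  refine ⟨K, B, hK, hB, fun Λ Λ' y z W τ h1 h2 h3 h4 h5 h6 => ?_⟩
  have hW : DualOn Λ (fun l => W l * s.bt (τ l)) y :=
    ⟨fun l hl => by rw [mul_assoc, h3 l hl, h2.1 l hl], fun l hl m hm hlm => by
      by_cases e : τ l = τ m
      · rw [mul_assoc, e, h3 m hm, h2.2 l hl m hm hlm]
      · rw [← h3 m hm, mul_assoc, ra (s.orth _ _ e), zero_mul, mul_zero]⟩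
  have hW' := hW.mono h1
  have out : ∀ (c : ℕ → R), ∀ l ∈ Λ, l ∉ Λ' → (∑ m ∈ Λ', c m * (W m * s.bt (τ m))) * y l = 0 :=
    fun c l hl hl' => by
      rw [Finset.sum_mul]
      exact Finset.sum_eq_zero fun m hm => by
        rw [mul_assoc, hW.2 m (h1 hm) l hl (fun e => hl' (e ▸ hm)), mul_zero]
  obtain ⟨π, hπ⟩ : ∃ π, π = ∑ m ∈ Λ', y m * (W m * s.bt (τ m)) := ⟨_, rfl⟩
  obtain ⟨δ, hδ⟩ : ∃ δ, δ = ∑ m ∈ Λ', z m * (W m * s.bt (τ m)) := ⟨_, rfl⟩
  have p1 : ∀ l ∈ Λ', π * y l = y l := fun l hl => by rw [hπ, hW'.sum_mul _ hl]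
  obtain ⟨φ, s', k1, k2, k3, k4, k5⟩ := h s.a π δ s.ha s.haJ s.ha
    (by conv_lhs => rw [hπ, Finset.mul_sum, ← hπ]
        rw [Finset.sum_congr rfl fun l hl => by rw [ra (p1 l hl)], ← hπ])
    (fun t => by
      rw [hπ, Finset.mul_sum, Finset.sum_mul]
      refine Finset.sum_congr rfl fun l hl => ?_
      by_cases e : τ l = t
      · rw [← e, ra (h3 l (h1 hl))]; simp only [mul_assoc, s.idem]
      · rw [← h3 l (h1 hl)]
        simp only [mul_assoc, s.orth _ _ e, ra (s.orth _ _ (Ne.symm e)), mul_zero, zero_mul])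
    (hπ ▸ K.sum_mem fun l hl => RI.mul (h4 l hl) _)
    (fun β hβ e => by
      obtain ⟨ω, e1, e2⟩ := h6 β hβ
      rw [sub_mul, one_mul, sub_eq_zero] at e
      apply e1
      rw [e, hπ, ← mul_assoc, Finset.mul_sum, Finset.sum_eq_zero, zero_mul]
      intro l hl; rw [ra (e2 l (h1 hl)), zero_mul])
    (RI.mul (hδ ▸ U.J.sum_mem fun l hl => RI.mul (h5 l hl).1 _) _)
    (by rw [hδ, Finset.mul_sum]
        exact Finset.sum_congr rfl fun l hl => by rw [ra (h5 l hl).2])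
    (by rw [hδ, Finset.sum_mul]
        exact Finset.sum_congr rfl fun l hl => by simp only [mul_assoc, s.bt_b])
  refine ⟨φ, s', k1, k2, fun l hl => ?_, fun l hl hl' => ⟨?_, ?_⟩⟩
  · rw [k5, add_mul, ← map_mul, hδ, hW'.sum_mul _ hl, ← s'.xb, mul_assoc, ← map_mul, k4, mul_assoc,
      sub_mul, p1 l hl]
    simp
  · rw [k5, add_mul, ← map_mul, hδ, out _ l hl hl']; simp
  · rw [k3, mul_assoc, sub_mul, hπ, out _ l hl hl', one_mul, sub_zero, h3 l hl]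

end US
end Z87
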